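import Mathlib

/-!
Compactly supported flows on manifolds.
-/

set_option autoImplicit false

namespace Pool.Agent.Lib.MP_b004e2_gt

open Set Filter Topology Metric

variable {E : Type*} [NormedAddCommGroup E] [NormedSpace ℝ E]

/-- From the space to the unit ball. -/
noncomputable def dn (a : E) : E := (1 + ‖a‖)⁻¹ • a

/-- From the unit ball to the space. -/
noncomputable def up (x : E) : E := (1 - ‖x‖)⁻¹ • x

theorem norm_dn (a : E) : ‖dn a‖ = (1 + ‖a‖)⁻¹ * ‖a‖ := by
  rw [dn, norm_smul, Real.norm_of_nonneg (by positivity)]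

theorem norm_dn_lt (a : E) : ‖dn a‖ < 1 := by
  rw [norm_dn, inv_mul_lt_iff₀ (by positivity)]
  linarith

theorem up_dn (a : E) : up (dn a) = a := by
  have h : (0 : ℝ) < 1 + ‖a‖ := by positivity
  rw [up, norm_dn, dn, smul_smul]
  have : (1 - (1 + ‖a‖)⁻¹ * ‖a‖)⁻¹ * (1 + ‖a‖)⁻¹ = 1 := by
    field_simp
    ring
  rw [this, one_smul]

theorem one_add_norm_up {x : E} (hx : ‖x‖ < 1) : 1 + ‖up x‖ = (1 - ‖x‖)⁻¹ := by
  have h : (0 : ℝ) < 1 - ‖x‖ := by linarith
  rw [up, norm_smul, Real.norm_of_nonneg (by positivity)]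
  field_simp
  ring

theorem dn_up {x : E} (hx : ‖x‖ < 1) : dn (up x) = x := by
  have h : (0 : ℝ) < 1 - ‖x‖ := by linarith
  rw [dn, one_add_norm_up hx, up, smul_smul, inv_inv, mul_inv_cancel₀ h.ne', one_smul]

theorem norm_dn_sub (a b : E) : ‖dn b - dn a‖ ≤ 2 * ‖b - a‖ * (1 + ‖a‖)⁻¹ := by
  have ha : (0 : ℝ) < 1 + ‖a‖ := by positivity
  have hb : (0 : ℝ) < 1 + ‖b‖ := by positivity
  have h1 : dn b - dn a = (1 + ‖a‖)⁻¹ • (b - a) + ((1 + ‖a‖)⁻¹ * (‖a‖ - ‖b‖)) • dn b := by
    simp only [dn, smul_sub, smul_smul]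
    have : (1 + ‖a‖)⁻¹ * (‖a‖ - ‖b‖) * (1 + ‖b‖)⁻¹ = (1 + ‖b‖)⁻¹ - (1 + ‖a‖)⁻¹ := by
      field_simp
      ring
    rw [this, sub_smul]
    abel
  rw [h1]
  refine (norm_add_le _ _).trans ?_
  rw [norm_smul, norm_smul, norm_mul, Real.norm_of_nonneg (by positivity)]
  have h2 : ‖‖a‖ - ‖b‖‖ ≤ ‖b - a‖ := by
    rw [norm_sub_rev b a]; exact abs_norm_sub_norm_le a b
  have h3 : (1 + ‖a‖)⁻¹ * ‖‖a‖ - ‖b‖‖ * ‖dn b‖ ≤ (1 + ‖a‖)⁻¹ * ‖b - a‖ * 1 := by
    gcongr
    exact (norm_dn_lt b).le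
  linarith

theorem continuous_dn : Continuous (dn : E → E) :=
  (Continuous.inv₀ (by fun_prop) fun a => by positivity).smul continuous_id

/-- The translation flow seen in the unit ball. -/
noncomputable def ballMap (v : E) (t : ℝ) (x : E) : E :=
  if ‖x‖ < 1 then dn (up x + t • v) else x

theorem ballMap_dn (v : E) (t : ℝ) (a : E) : ballMap v t (dn a) = dn (a + t • v) := by
  rw [ballMap, if_pos (norm_dn_lt a), up_dn]

theorem ballMap_of_le (v : E) (t : ℝ) {x : E} (h : ¬ ‖x‖ < 1) : ballMap v t x = x := by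
  rw [ballMap, if_neg h]

theorem norm_ballMap_sub (v : E) (t : ℝ) (x : E) :
    ‖ballMap v t x - x‖ ≤ 2 * ‖t • v‖ * max (1 - ‖x‖) 0 := by
  by_cases h : ‖x‖ < 1
  · have := norm_dn_sub (up x) (up x + t • v)
    rw [dn_up h, one_add_norm_up h, inv_inv, add_sub_cancel_left] at this
    rw [ballMap, if_pos h, max_eq_left (by linarith)]
    exact this
  · rw [ballMap_of_le v t h, sub_self, norm_zero]
    positivity

theorem continuous_ballMap (v : E) : Continuous fun z : ℝ × E => ballMap v z.1 z.2 := by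
  rw [continuous_iff_continuousAt]
  rintro ⟨t, x⟩
  by_cases h : ‖x‖ < 1
  · have h1 : ∀ᶠ z : ℝ × E in 𝓝 (t, x), ‖z.2‖ < 1 :=
      (isOpen_lt (f := fun z : ℝ × E => ‖z.2‖) (by fun_prop) continuous_const).mem_nhds h
    refine ContinuousAt.congr (f := fun z : ℝ × E => dn (up z.2 + z.1 • v)) ?_
      (h1.mono fun z hz => (if_pos hz).symm)
    refine continuous_dn.continuousAt.comp (ContinuousAt.add ?_ (by fun_prop))
    exact (ContinuousAt.inv₀ (by fun_prop) (by simp only; linarith)).smul continuousAt_snd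
  · have h1 : Tendsto (fun z : ℝ × E => 2 * ‖z.1 • v‖ * max (1 - ‖z.2‖) 0) (𝓝 (t, x)) (𝓝 0) := by
      have : Continuous fun z : ℝ × E => 2 * ‖z.1 • v‖ * max (1 - ‖z.2‖) 0 := by fun_prop
      have h2 := this.tendsto (t, x)
      rwa [max_eq_right (by linarith), mul_zero] at h2
    have h2 : Tendsto (fun z : ℝ × E => ballMap v z.1 z.2 - z.2) (𝓝 (t, x)) (𝓝 0) :=
      squeeze_zero_norm (fun z => norm_ballMap_sub v z.1 z.2) h1
    have h3 := h2.add (continuous_snd.tendsto (t, x))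
    simp only [sub_add_cancel, zero_add] at h3
    show Tendsto _ _ (𝓝 (ballMap v t x))
    rwa [ballMap_of_le v t h]

variable {M : Type*} [TopologicalSpace M] [T2Space M]

theorem exists_flow_chart [ProperSpace E] (j : OpenPartialHomeomorph E M)
    (hj : closedBall 0 1 ⊆ j.source) (v : E) :
    ∃ ψ : Flow ℝ M, (∀ t p, p ∉ j '' closedBall 0 1 → ψ t p = p) ∧
      ∀ t a, ψ t (j (dn a)) = j (dn (a + t • v)) := by
  classical
  have hdn : ∀ a : E, dn a ∈ j.source := fun a => hj (by simpa using (norm_dn_lt a).le)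
  let F : ℝ → M → M := fun t p => if p ∈ j.target then j (ballMap v t (j.symm p)) else p
  have h1 : ∀ t a, F t (j (dn a)) = j (dn (a + t • v)) := fun t a => by
    simp only [F, if_pos (j.map_source (hdn a)), j.left_inv (hdn a), ballMap_dn]
  have h2 : ∀ t p, (∀ a, j (dn a) ≠ p) → F t p = p := fun t p hp => by
    simp only [F]
    split_ifs with h
    · rw [ballMap_of_le, j.right_inv h]
      intro h'
      exact hp (up (j.symm p)) (by rw [dn_up h', j.right_inv h])
    · rfl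
  have h3 : ∀ t p, p ∉ j '' closedBall 0 1 → F t p = p := fun t p hp =>
    h2 t p fun a ha => hp ⟨dn a, by simpa using (norm_dn_lt a).le, ha⟩
  have hK : IsClosed (j '' closedBall 0 1) :=
    ((isCompact_closedBall 0 1).image_of_continuousOn (j.continuousOn.mono hj)).isClosed
  refine ⟨⟨F, ?_, fun s t p => ?_, fun p => ?_⟩, h3, h1⟩
  · rw [continuous_iff_continuousAt]
    rintro ⟨t, p⟩
    by_cases h : p ∈ j.target
    · have h4 : ∀ᶠ z : ℝ × M in 𝓝 (t, p), z.2 ∈ j.target :=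
        (j.open_target.preimage continuous_snd).mem_nhds h
      refine ContinuousAt.congr (f := fun z : ℝ × M => j (ballMap v z.1 (j.symm z.2))) ?_
        (h4.mono fun z hz => (if_pos hz).symm)
      have h5 : ballMap v t (j.symm p) ∈ j.source := by
        unfold ballMap
        split_ifs
        · exact hdn _
        · exact j.map_target h
      refine ContinuousAt.comp (f := fun z : ℝ × M => ballMap v z.1 (j.symm z.2))
        (j.continuousAt h5) ?_
      exact ContinuousAt.comp (f := fun z : ℝ × M => (z.1, j.symm z.2))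
        (continuous_ballMap v).continuousAt (continuousAt_fst.prodMk
          (ContinuousAt.comp (f := fun z : ℝ × M => z.2) (j.continuousAt_symm h) continuousAt_snd))
    · have h4 : ∀ᶠ z : ℝ × M in 𝓝 (t, p), z.2 ∉ j '' closedBall 0 1 :=
        (hK.isOpen_compl.preimage continuous_snd).mem_nhds fun ⟨a, ha, ha'⟩ =>
          h ((show j a = p from ha') ▸ j.map_source (hj ha))
      exact ContinuousAt.congr (f := fun z : ℝ × M => z.2) continuousAt_snd
        (h4.mono fun z hz => (h3 z.1 z.2 hz).symm)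
  · by_cases h : ∃ a, j (dn a) = p
    · obtain ⟨a, rfl⟩ := h
      rw [h1, h1, h1, add_smul, add_assoc, add_comm (t • v)]
    · push Not at h
      rw [h2 _ p h, h2 _ p h, h2 _ p h]
  · by_cases h : ∃ a, j (dn a) = p
    · obtain ⟨a, rfl⟩ := h
      rw [h1, zero_smul, add_zero]
    · push Not at h
      exact h2 _ p h

omit [T2Space M] in
theorem exists_chart [ChartedSpace E M] (x : M) {U : Set M} (hU : IsOpen U) (hx : x ∈ U) :
    ∃ j : OpenPartialHomeomorph E M, closedBall 0 1 ⊆ j.source ∧ j 0 = x ∧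
      j '' closedBall 0 1 ⊆ U := by
  let e := chartAt E x
  have h1 : e.target ∩ e.symm ⁻¹' U ∈ 𝓝 (e x) :=
    (e.isOpen_inter_preimage_symm hU).mem_nhds ⟨e.map_source (mem_chart_source E x), by
      show e.symm (e x) ∈ U
      rwa [e.left_inv (mem_chart_source E x)]⟩
  obtain ⟨r, hr, h2⟩ := nhds_basis_closedBall.mem_iff.1 h1
  let h : E ≃ₜ E := (Homeomorph.smulOfNeZero r hr.ne').trans (Homeomorph.addLeft (e x))
  have h3 : ∀ a ∈ closedBall (0 : E) 1, h a ∈ closedBall (e x) r := fun a ha => by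
    show e x + r • a ∈ closedBall (e x) r
    rw [mem_closedBall_zero_iff] at ha
    rw [mem_closedBall, dist_self_add_left, norm_smul, Real.norm_of_nonneg hr.le]
    nlinarith
  refine ⟨h.toOpenPartialHomeomorph.trans e.symm, fun a ha => ⟨trivial, (h2 (h3 a ha)).1⟩, ?_, ?_⟩
  · show e.symm (e x + r • (0 : E)) = x
    rw [smul_zero, add_zero, e.left_inv (mem_chart_source E x)]
  · rintro _ ⟨a, ha, rfl⟩
    exact (h2 (h3 a ha)).2

theorem exists_flows [ProperSpace E] [ChartedSpace E M] (x : M) {U : Set M} (hU : IsOpen U)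
    (hx : x ∈ U) : ∃ K : Set M, IsCompact K ∧ K ⊆ U ∧
      {z | ∃ ψ : Flow ℝ M, (∀ t p, p ∉ K → ψ t p = p) ∧ ψ 1 x = z} ∈ 𝓝 x := by
  obtain ⟨j, h1, h2, h3⟩ := exists_chart (E := E) x hU hx
  refine ⟨_, (isCompact_closedBall 0 1).image_of_continuousOn (j.continuousOn.mono h1), h3, ?_⟩
  have h4 : j '' ball 0 1 ∈ 𝓝 x := by
    rw [← h2]
    exact j.image_mem_nhds (h1 (by simp)) (ball_mem_nhds _ one_pos)
  filter_upwards [h4]
  rintro _ ⟨a, ha, rfl⟩
  obtain ⟨ψ, h5, h6⟩ := exists_flow_chart j h1 (up a)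
  refine ⟨ψ, h5, ?_⟩
  have := h6 1 0
  rwa [show dn (0 : E) = 0 by simp [dn], h2, zero_add, one_smul,
    dn_up (mem_ball_zero_iff.1 ha)] at this

omit [T2Space M] in
theorem exists_isOpenEmbedding [ChartedSpace E M] (x : M) :
    ∃ J : E → M, IsOpenEmbedding J ∧ J 0 = x := by
  obtain ⟨j, h1, h2, -⟩ := exists_chart (E := E) x isOpen_univ (mem_univ x)
  refine ⟨(OpenPartialHomeomorph.univUnitBall.trans j), ?_, ?_⟩
  · refine OpenPartialHomeomorph.isOpenEmbedding _ (eq_univ_of_forall fun a => ⟨trivial, ?_⟩)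
    exact h1 (ball_subset_closedBall (OpenPartialHomeomorph.univUnitBall.map_source (mem_univ a)))
  · show j (OpenPartialHomeomorph.univUnitBall 0) = x
    rw [OpenPartialHomeomorph.univUnitBall_apply_zero, h2]

end Pool.Agent.Lib.MP_b004e2_gt
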