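import Mathlib

set_option autoImplicit false

namespace Pool.Agent.Lib.MP_b004e2_gt

/-- The group `G_f^M` of self-homeomorphisms `T` of `M` with `f (T p) = f p` for every `p`,
as a subgroup of the group of all self-homeomorphisms of `M` under composition. -/
def levelGroup {M : Type} [TopologicalSpace M] (f : M → ℝ) : Subgroup (M ≃ₜ M) where
  carrier := {T | ∀ p, f (T p) = f p}
  mul_mem' := by
    intro S T hS hT p
    show f (S (T p)) = f p
    rw [hS, hT]
  one_mem' := fun _ => rfl
  inv_mem' := by
    intro T hT p
    have := hT (T.symm p)
    rw [Homeomorph.apply_symm_apply] at this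
    exact this.symm

end Pool.Agent.Lib.MP_b004e2_gt
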