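import Mathlib

/-!
Locally moving group actions: algebraic disjointness and a reconstruction theorem.
-/

set_option autoImplicit false

namespace Pool.Agent.Lib.MP_b004e2_gt

open Set Filter Topology

/-- The set of points moved by `g`. -/
def supp (X : Type*) {G : Type*} [Group G] [MulAction G X] (g : G) : Set X := {x | g • x ≠ x}

/-- A faithful, locally moving action by homeomorphisms. -/
structure LM (G X : Type*) [Group G] [TopologicalSpace X] [MulAction G X] : Prop where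
  cont : ∀ g : G, Continuous fun x : X => g • x
  faith : ∀ g : G, (∀ x : X, g • x = x) → g = 1
  mov : ∀ U : Set X, IsOpen U → U.Nonempty → ∃ g : G, g ≠ 1 ∧ supp X g ⊆ U

/-- Local transitivity. -/
def LocTr (G X : Type*) [Group G] [TopologicalSpace X] [MulAction G X] : Prop :=
  ∀ (x : X) (U : Set X), IsOpen U → x ∈ U → {z | ∃ g : G, supp X g ⊆ U ∧ g • x = z} ∈ 𝓝 x

section basic

variable {G X : Type*} [Group G] [MulAction G X]

theorem smul_eq_of_notMem {g : G} {V : Set X} (h : supp X g ⊆ V) {x : X} (hx : x ∉ V) :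
    g • x = x := by
  by_contra hc
  exact hx (h hc)

theorem smul_mem_supp {g : G} {x : X} (h : x ∈ supp X g) : g • x ∈ supp X g :=
  fun h' => h (smul_left_cancel g h')

theorem smul_mem_of_supp {g : G} {V : Set X} (h : supp X g ⊆ V) {x : X} (hx : x ∈ V) :
    g • x ∈ V := by
  by_cases h' : g • x = x
  · rwa [h']
  · exact h (smul_mem_supp h')

theorem supp_inv (g : G) : supp X g⁻¹ = supp X g := by
  ext x
  simp only [supp, mem_ofPred_eq, ne_eq, inv_smul_eq_iff]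
  exact not_congr eq_comm

theorem supp_mul (a b : G) : supp X (a * b) ⊆ supp X a ∪ supp X b := by
  intro x hx
  by_contra hc
  simp only [supp, mem_union, mem_ofPred_eq, not_or, not_not] at hc
  exact hx (by rw [mul_smul, hc.2, hc.1])

theorem mem_supp_conj {c g : G} {x : X} : x ∈ supp X (c * g * c⁻¹) ↔ c⁻¹ • x ∈ supp X g := by
  simp only [supp, mem_ofPred_eq, ne_eq, mul_smul]
  rw [← eq_inv_smul_iff]

theorem supp_pow (g : G) (n : ℕ) : supp X (g ^ n) ⊆ supp X g := by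
  intro x hx h
  apply hx
  induction n with
  | zero => simp
  | succ n ih =>
    rw [pow_succ, mul_smul, h]
    by_contra hc
    exact hc (ih hc)

theorem smul_mem_supp_of_commute {g k : G} (h : g * k = k * g) {x : X} (hx : x ∈ supp X k) :
    g • x ∈ supp X k := fun h' => hx (smul_left_cancel g (by rw [← mul_smul, h, mul_smul, h']))

end basic

section one

variable {G X : Type*} [Group G] [TopologicalSpace X] [MulAction G X]

theorem LM.exists_mem (h : LM G X) {g : G} (hg : g ≠ 1) : ∃ x, x ∈ supp X g := by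
  by_contra hc
  exact hg (h.faith g fun x => not_not.1 fun hx => hc ⟨x, hx⟩)

omit [TopologicalSpace X] in
theorem commute_of_disjoint (h : ∀ g : G, (∀ x : X, g • x = x) → g = 1) {a b : G}
    (hd : ∀ x ∈ supp X a, b • x = x) : a * b = b * a := by
  have : (b * a)⁻¹ * (a * b) = 1 := h _ fun x => by
    rw [mul_smul, inv_smul_eq_iff, mul_smul, mul_smul]
    by_cases ha : x ∈ supp X a
    · rw [hd x ha, hd _ (smul_mem_supp ha)]
    · rw [not_not.1 ha]
      by_cases hb : b • x ∈ supp X a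
      · have := hd _ hb
        rw [smul_left_cancel b this] at hb
        exact absurd hb ha
      · exact not_not.1 hb
  exact (inv_mul_eq_one.1 this).symm

theorem LM.eq_one (h : LM G X) {g k : G} {V : Set X} (hk : supp X k ⊆ V)
    (hV : ∀ y ∈ V, g • y ∉ V) (hc : g * k = k * g) : k = 1 := by
  by_contra hne
  obtain ⟨x, hx⟩ := h.exists_mem hne
  exact hV x (hk hx) (hk (smul_mem_supp_of_commute hc hx))

variable [T2Space X]

theorem isOpen_supp (h : ∀ g : G, Continuous fun x : X => g • x) (g : G) : IsOpen (supp X g) :=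
  (isClosed_eq (h g) continuous_id).isOpen_compl

theorem exists_displace (h : ∀ g : G, Continuous fun x : X => g • x) (S : Finset G) {x : X}
    (hS : ∀ s ∈ S, s • x ≠ x) {U : Set X} (hU : IsOpen U) (hx : x ∈ U) :
    ∃ V : Set X, IsOpen V ∧ x ∈ V ∧ V ⊆ U ∧ ∀ s ∈ S, ∀ y ∈ V, s • y ∉ V := by
  classical
  induction S using Finset.induction_on with
  | empty => exact ⟨U, hU, hx, subset_rfl, by simp⟩
  | insert s S _ ih =>
    obtain ⟨V, h1, h2, h3, h4⟩ := ih fun t ht => hS t (Finset.mem_insert_of_mem ht)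
    obtain ⟨A, B, hA, hB, a, b, hAB⟩ := t2_separation (hS s (Finset.mem_insert_self _ _))
    refine ⟨V ∩ (B ∩ (fun y => s • y) ⁻¹' A), h1.inter (hB.inter (hA.preimage (h s))),
      ⟨h2, b, a⟩, inter_subset_left.trans h3, fun t ht y hy hy' => ?_⟩
    rcases Finset.mem_insert.1 ht with rfl | ht
    · exact disjoint_left.1 hAB hy.2.2 hy'.2.1
    · exact h4 t ht y hy.1 hy'.1

theorem exists_displace_one (h : ∀ g : G, Continuous fun x : X => g • x) {s : G} {x : X}
    (hS : s • x ≠ x) {U : Set X} (hU : IsOpen U) (hx : x ∈ U) :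
    ∃ V : Set X, IsOpen V ∧ x ∈ V ∧ V ⊆ U ∧ ∀ y ∈ V, s • y ∉ V :=
  let ⟨V, a, b, c, d⟩ := exists_displace h {s} (by simpa using hS) hU hx
  ⟨V, a, b, c, d s (Finset.mem_singleton_self s)⟩

/-- Algebraic disjointness. -/
def AlgDisj {G : Type*} [Group G] (g f : G) : Prop :=
  ∀ h : G, f * h ≠ h * f → ∃ f₁ f₂ : G, g * f₁ = f₁ * g ∧ g * f₂ = f₂ * g ∧
    f₁ * (f₂ * h * f₂⁻¹ * h⁻¹) * f₁⁻¹ * (f₂ * h * f₂⁻¹ * h⁻¹)⁻¹ ≠ 1 ∧
    g * (f₁ * (f₂ * h * f₂⁻¹ * h⁻¹) * f₁⁻¹ * (f₂ * h * f₂⁻¹ * h⁻¹)⁻¹) =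
      (f₁ * (f₂ * h * f₂⁻¹ * h⁻¹) * f₁⁻¹ * (f₂ * h * f₂⁻¹ * h⁻¹)⁻¹) * g

theorem LM.algDisj (H : LM G X) {f g : G} (hd : ∀ x ∈ supp X f, g • x = x) : AlgDisj g f := by
  intro h hh
  obtain ⟨p, hp, hp'⟩ : ∃ p ∈ supp X f, h • p ≠ p := by
    by_contra hc
    push Not at hc
    exact hh (commute_of_disjoint H.faith hc)
  obtain ⟨V, hV, hpV, hVf, hVh⟩ := exists_displace_one H.cont hp' (isOpen_supp H.cont f) hp
  obtain ⟨f₂, hf₂, hs₂⟩ := H.mov V hV ⟨p, hpV⟩
  obtain ⟨q, hq⟩ := H.exists_mem hf₂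
  obtain ⟨W, hW, hqW, hWV, hWf⟩ := exists_displace_one H.cont hq hV (hs₂ hq)
  obtain ⟨f₁, hf₁, hs₁⟩ := H.mov W hW ⟨q, hqW⟩
  have hcomm : ∀ k : G, supp X k ⊆ V → g * k = k * g := fun k hk =>
    (commute_of_disjoint H.faith fun x hx => hd x (hVf (hk hx))).symm
  have hc : ∀ y ∈ V, (f₂ * h * f₂⁻¹ * h⁻¹) • y = f₂ • y := fun y hy => by
    have h1 : h⁻¹ • y ∉ V := fun h' => hVh _ h' (by rwa [smul_inv_smul])
    rw [mul_smul, mul_smul, mul_smul, smul_eq_of_notMem ((supp_inv f₂).subset.trans hs₂) h1,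
      smul_inv_smul]
  refine ⟨f₁, f₂, hcomm _ (hs₁.trans hWV), hcomm _ hs₂, fun h1 => hf₁ ?_, hcomm _ ?_⟩
  · refine H.eq_one (g := f₂ * h * f₂⁻¹ * h⁻¹) hs₁ (fun y hy => ?_) ?_
    · rw [hc y (hWV hy)]; exact hWf y hy
    · rw [mul_inv_eq_one, mul_inv_eq_iff_eq_mul] at h1
      exact h1.symm
  · intro x hx
    rw [mul_assoc, mul_assoc, ← mul_assoc _ f₁⁻¹] at hx
    rcases supp_mul _ _ hx with h1 | h1
    · exact hWV (hs₁ h1)
    · rw [mem_supp_conj, supp_inv] at h1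
      have h2 := hc _ (hWV (hs₁ h1))
      rw [smul_inv_smul] at h2
      rw [h2]
      exact smul_mem_of_supp hs₂ (hWV (hs₁ h1))

theorem LM.of_algDisj (H : LM G X) {f g : G} (hd : AlgDisj g f) :
    ∀ x ∈ supp X f, g ^ 12 • x = x := by
  classical
  intro p hp
  by_contra hp'
  have hper : ∀ j : ℕ, j ∣ 12 → g ^ j • p ≠ p := by
    rintro j ⟨k, hk⟩ h
    apply hp'
    rw [hk, pow_mul]
    by_contra hc
    exact supp_pow (g ^ j) k hc h
  obtain ⟨V, hV, hpV, -, hS⟩ := exists_displace H.cont {f, g ^ 1, g ^ 2, g ^ 3, g ^ 4} (x := p) (by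
    simp only [Finset.mem_insert, Finset.mem_singleton]
    rintro s (rfl | rfl | rfl | rfl | rfl)
    exacts [hp, hper 1 (by norm_num), hper 2 (by norm_num), hper 3 (by norm_num),
      hper 4 (by norm_num)]) isOpen_univ (mem_univ p)
  obtain ⟨h, hh, hs⟩ := H.mov V hV ⟨p, hpV⟩
  obtain ⟨f₁, f₂, c1, c2, hk, c3⟩ := hd h fun hc => hh (H.eq_one hs (hS f (by simp)) hc)
  obtain ⟨q, hq⟩ := H.exists_mem hk
  let u : Fin 4 → G := ![1, f₁, f₂, f₁ * f₂]
  have hu : ∀ i, g * u i = u i * g := by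
    intro i
    fin_cases i
    · simp [u]
    · exact c1
    · exact c2
    · show g * (f₁ * f₂) = f₁ * f₂ * g
      rw [← mul_assoc, c1, mul_assoc, c2, mul_assoc]
  have hc : ∀ x ∈ supp X (f₂ * h * f₂⁻¹ * h⁻¹), x ∈ V ∨ f₂⁻¹ • x ∈ V := fun x hx => by
    rcases supp_mul _ _ hx with h1 | h1
    · exact Or.inr (hs (mem_supp_conj.1 h1))
    · exact Or.inl (hs (supp_inv (X := X) h ▸ h1))
  have hcov : ∀ x ∈ supp X (f₁ * (f₂ * h * f₂⁻¹ * h⁻¹) * f₁⁻¹ * (f₂ * h * f₂⁻¹ * h⁻¹)⁻¹),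
      ∃ i, (u i)⁻¹ • x ∈ V := fun x hx => by
    rcases supp_mul _ _ hx with h1 | h1
    · rcases hc _ (mem_supp_conj.1 h1) with h2 | h2
      · exact ⟨1, h2⟩
      · exact ⟨3, by show (f₁ * f₂)⁻¹ • x ∈ V; rwa [mul_inv_rev, mul_smul]⟩
    · rcases hc _ ((supp_inv _).subset h1) with h2 | h2
      · exact ⟨0, by show (1 : G)⁻¹ • x ∈ V; simpa using h2⟩
      · exact ⟨2, h2⟩
  have hmem : ∀ j : ℕ, g ^ j • q ∈
      supp X (f₁ * (f₂ * h * f₂⁻¹ * h⁻¹) * f₁⁻¹ * (f₂ * h * f₂⁻¹ * h⁻¹)⁻¹) := fun j =>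
    smul_mem_supp_of_commute (Commute.pow_left c3 j) hq
  choose e he using fun j : Fin 5 => hcov _ (hmem j)
  have key : ∀ i j : Fin 5, i < j → e i ≠ e j := by
    intro i j hij hne
    have h1 := he i
    have h2 := he j
    rw [← hne] at h2
    have h3 : g ^ ((j : ℕ) - i) • ((u (e i))⁻¹ • g ^ (i : ℕ) • q) =
        (u (e i))⁻¹ • g ^ (j : ℕ) • q := by
      have hc : Commute (g ^ ((j : ℕ) - i)) (u (e i))⁻¹ := (Commute.pow_left (hu _) _).inv_right
      rw [← mul_smul, hc.eq, mul_smul, ← mul_smul (g ^ ((j : ℕ) - i)), ← pow_add,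
        Nat.sub_add_cancel hij.le]
    refine hS (g ^ ((j : ℕ) - i)) ?_ _ h1 (h3 ▸ h2)
    have h4 : (i : ℕ) < j := hij
    have h5 := j.2
    have : (j : ℕ) - i = 1 ∨ (j : ℕ) - i = 2 ∨ (j : ℕ) - i = 3 ∨ (j : ℕ) - i = 4 := by omega
    rcases this with h | h | h | h <;> simp [h]
  obtain ⟨i, j, hij, hne⟩ := Fintype.exists_ne_map_eq_of_card_lt e (by simp)
  rcases lt_or_gt_of_ne hij with h1 | h1
  · exact key i j h1 hne
  · exact key j i h1 hne.symm

theorem LM.exists_pow (H : LM G X) {U : Set X} (hU : IsOpen U) (hne : U.Nonempty) :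
    ∃ b : G, supp X b ⊆ U ∧ b ^ 12 ≠ 1 := by
  classical
  have key : ∀ m : ℕ, ∃ g : G, ∃ p ∈ U, supp X g ⊆ U ∧ ∀ i, 0 < i → i ≤ m → g ^ i • p ≠ p := by
    intro m
    induction m with
    | zero =>
      obtain ⟨p, hp⟩ := hne
      exact ⟨1, p, hp, fun x hx => absurd (one_smul G x) hx, fun i h1 h2 => by omega⟩
    | succ m ih =>
      obtain ⟨g, p, hp, hg, hi⟩ := ih
      obtain ⟨V, hV, hpV, hVU, hS⟩ := exists_displace H.cont
        ((Finset.Icc 1 m).image fun i => g ^ i) (x := p) (by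
          simp only [Finset.mem_image, Finset.mem_Icc]
          rintro s ⟨i, ⟨h1, h2⟩, rfl⟩
          exact hi i h1 h2) hU hp
      have hS' : ∀ i, 0 < i → i ≤ m → ∀ y ∈ V, g ^ i • y ∉ V := fun i h1 h2 =>
        hS _ (Finset.mem_image_of_mem _ (Finset.mem_Icc.2 ⟨h1, h2⟩))
      by_cases hq : ∃ q ∈ V, g ^ (m + 1) • q ≠ q
      · obtain ⟨q, hq, hq'⟩ := hq
        refine ⟨g, q, hVU hq, hg, fun i h1 h2 => ?_⟩
        rcases h2.lt_or_eq with h3 | rfl
        · exact fun h => hS' i h1 (Nat.lt_succ_iff.1 h3) q hq (by rwa [h])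
        · exact hq'
      · push Not at hq
        obtain ⟨h, hh, hs⟩ := H.mov V hV ⟨p, hpV⟩
        obtain ⟨q, hq'⟩ := H.exists_mem hh
        have h1 : ∀ i, i ≤ m → (h * g) ^ i • q = g ^ i • q := by
          intro i
          induction i with
          | zero => simp
          | succ i ih' =>
            intro hi'
            rw [pow_succ', mul_smul, ih' (by omega), mul_smul, ← mul_smul g, ← pow_succ']
            exact smul_eq_of_notMem hs (hS' (i + 1) (by omega) hi' q (hs hq'))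
        refine ⟨h * g, q, hVU (hs hq'), (supp_mul _ _).trans (union_subset (hs.trans hVU) hg),
          fun i h2 h3 => ?_⟩
        rcases h3.lt_or_eq with h4 | rfl
        · rw [h1 i (Nat.lt_succ_iff.1 h4)]
          exact fun h => hS' i h2 (Nat.lt_succ_iff.1 h4) q (hs hq') (by rw [h]; exact hs hq')
        · rw [pow_succ', mul_smul, h1 m le_rfl, mul_smul, ← mul_smul g, ← pow_succ',
            hq q (hs hq')]
          exact hq'
  obtain ⟨g, p, -, hg, hi⟩ := key 12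
  exact ⟨g, hg, fun h => hi 12 (by norm_num) le_rfl (by rw [h, one_smul])⟩

end one

section two

variable {G X Y : Type*} [Group G] [TopologicalSpace X] [MulAction G X] [T2Space X]
  [TopologicalSpace Y] [MulAction G Y] [T2Space Y]

theorem LM.transfer (HX : LM G X) (HY : LM G Y) {h k : G} (hs : supp X h ⊆ supp X k) :
    supp Y h ⊆ closure (supp Y k) := by
  intro p hp
  by_contra hp'
  obtain ⟨W, hW, hpW, hWs, hWh⟩ := exists_displace_one HY.cont hp isClosed_closure.isOpen_compl hp'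
  obtain ⟨b, hb, hb'⟩ := HY.exists_pow hW ⟨p, hpW⟩
  have h1 := HX.of_algDisj (HY.algDisj (f := k) (g := b) fun y hy =>
    smul_eq_of_notMem hb fun h' => hWs h' (subset_closure hy))
  exact hb' (HY.eq_one ((supp_pow b 12).trans hb) hWh
    (commute_of_disjoint HX.faith fun x hx => h1 x (hs hx)))

theorem LM.inter_nonempty (HX : LM G X) (HY : LM G Y) (ht : ∀ x x' : X, ∃ c : G, c • x = x')
    {U V : Set Y} (hU : IsOpen U) (hV : IsOpen V) (hU' : U.Nonempty) (hV' : V.Nonempty)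
    (hinv : ∀ (c : G), ∀ y ∈ U, c • y ∈ U) : (U ∩ V).Nonempty := by
  by_contra hcon
  obtain ⟨a, ha, ha'⟩ := HY.mov U hU hU'
  obtain ⟨b, hb, hb'⟩ := HY.exists_pow hV hV'
  obtain ⟨x, hx⟩ := HX.exists_mem ha
  obtain ⟨x', hx'⟩ := HX.exists_mem hb'
  obtain ⟨c, rfl⟩ := ht x x'
  refine hx' (HX.of_algDisj (HY.algDisj (f := c * a * c⁻¹) (g := b) fun y hy =>
    smul_eq_of_notMem hb fun h' => hcon ⟨y, ?_, h'⟩) _ (mem_supp_conj.2 (by simpa using hx)))
  have := hinv c _ (ha' (mem_supp_conj.1 hy))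
  rwa [smul_inv_smul] at this

/-- The relation which will be the graph of the homeomorphism. -/
def Rel (G : Type*) {X Y : Type*} [Group G] [TopologicalSpace X] [MulAction G X]
    [TopologicalSpace Y] [MulAction G Y] (x : X) (y : Y) : Prop :=
  ∀ (U : Set X) (V : Set Y), IsOpen U → IsOpen V → x ∈ U → y ∈ V →
    ∃ g : G, g ≠ 1 ∧ supp X g ⊆ U ∧ supp Y g ⊆ V

omit [T2Space X] [T2Space Y] in
theorem Rel.symm {x : X} {y : Y} (h : Rel G x y) : Rel G y x := fun V U hV hU hy hx =>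
  let ⟨g, a, b, c⟩ := h U V hU hV hx hy
  ⟨g, a, c, b⟩

omit [T2Space X] [T2Space Y] in
theorem Rel.smul (HX : LM G X) (HY : LM G Y) {x : X} {y : Y} (h : Rel G x y) (c : G) :
    Rel G (c • x) (c • y) := fun U V hU hV hx hy => by
  obtain ⟨g, a, b, d⟩ := h _ _ (hU.preimage (HX.cont c)) (hV.preimage (HY.cont c)) hx hy
  refine ⟨c * g * c⁻¹, fun h' => a (by simpa using h'), fun z hz => ?_, fun z hz => ?_⟩
  · simpa using b (mem_supp_conj.1 hz)
  · simpa using d (mem_supp_conj.1 hz)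

omit [T2Space X] in
theorem Rel.fix (HX : LM G X) (HY : LM G Y) {x : X} {y : Y} (h : Rel G x y) {g : G} {O : Set X}
    (hO : IsOpen O) (hx : x ∈ O) (hg : ∀ z ∈ O, g • z = z) : g • y = y := by
  by_contra hc
  obtain ⟨V, hV, hy, -, hVg⟩ := exists_displace_one HY.cont hc isOpen_univ (mem_univ y)
  obtain ⟨k, a, b, d⟩ := h O V hO hV hx hy
  exact a (HY.eq_one d hVg (commute_of_disjoint HX.faith fun z hz => hg z (b hz)).symm)

theorem Rel.unique (HX : LM G X) (HY : LM G Y) (hT : LocTr G Y) {x : X} {y y' : Y}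
    (h : Rel G x y) (h' : Rel G x y') : y = y' := by
  by_contra hne
  obtain ⟨O, U, hO, hU, hy, hy', hOU⟩ := t2_separation hne
  obtain ⟨W, hW, hWo, hyW⟩ := mem_nhds_iff.1 (hT y' U hU hy')
  have hR : ∀ w ∈ W, Rel G x w := fun w hw => by
    obtain ⟨g, hg, rfl⟩ := hW hw
    have := h.symm.fix HY HX hO hy fun z hz =>
      smul_eq_of_notMem hg fun hz' => disjoint_left.1 hOU hz hz'
    exact this ▸ h'.smul HX HY g
  obtain ⟨k, hk, hkW⟩ := HY.mov W hWo ⟨y', hyW⟩
  obtain ⟨z, hz, hzx⟩ : ∃ z ∈ supp X k, z ≠ x := by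
    obtain ⟨p, hp⟩ := HX.exists_mem hk
    by_cases hpx : p = x
    · exact ⟨k • p, smul_mem_supp hp, fun h => hp (h.trans hpx.symm)⟩
    · exact ⟨p, hp, hpx⟩
  obtain ⟨A, B, hA, hB, hzA, hxB, hAB⟩ := t2_separation hzx
  obtain ⟨g, hg, hgs⟩ := HX.mov _ (hA.inter (isOpen_supp HX.cont k)) ⟨z, hzA, hz⟩
  have h1 : closure (supp Y k) ⊆ {w | g • w = w} :=
    closure_minimal (fun w hw => (hR w (hkW hw)).fix HX HY hB hxB fun t ht =>
      smul_eq_of_notMem hgs fun ht' => disjoint_left.1 hAB ht'.1 ht)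
      (isClosed_eq (HY.cont g) continuous_id)
  obtain ⟨w, hw⟩ := HY.exists_mem hg
  exact hw (h1 (HX.transfer HY (hgs.trans inter_subset_right) hw))

theorem exists_rel [RegularSpace X] (HX : LM G X) (HY : LM G Y) {k : G} {K : Set Y}
    (hK : IsCompact K) (hk : supp Y k ⊆ K) {x : X} (hx : x ∈ supp X k) : ∃ y ∈ K, Rel G x y := by
  let Z : Set X → Set Y := fun U => {y | ∃ h : G, supp X h ⊆ U ∩ supp X k ∧ y ∈ supp Y h}
  have hZ : Monotone Z := fun U U' hU y ⟨h, a, b⟩ =>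
    ⟨h, a.trans (inter_subset_inter_left _ hU), b⟩
  have hne : ((𝓝 x).lift' Z).NeBot := by
    rw [lift'_neBot_iff hZ]
    intro U hU
    obtain ⟨U', h1, h2, h3⟩ := mem_nhds_iff.1 hU
    obtain ⟨h, a, b⟩ := HX.mov _ (h2.inter (isOpen_supp HX.cont k)) ⟨x, h3, hx⟩
    obtain ⟨y, hy⟩ := HY.exists_mem a
    exact ⟨y, h, b.trans (inter_subset_inter_left _ h1), hy⟩
  have hle : (𝓝 x).lift' Z ≤ 𝓟 K := by
    rw [le_principal_iff]
    refine mem_of_superset (mem_lift' univ_mem) fun y ⟨h, a, b⟩ => ?_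
    exact closure_minimal hk hK.isClosed (HX.transfer HY (a.trans inter_subset_right) b)
  obtain ⟨y, hy, hc⟩ := hK hle
  refine ⟨y, hy, fun U V hU hV hxU hyV => ?_⟩
  obtain ⟨U', h1, h2, h3⟩ := exists_mem_nhds_isClosed_subset (hU.mem_nhds hxU)
  obtain ⟨y', hy', h, a, b⟩ := clusterPt_iff_nonempty.1 hc (hV.mem_nhds hyV) (mem_lift' h1)
  obtain ⟨k', c, d⟩ := HY.mov _ ((isOpen_supp HY.cont h).inter hV) ⟨y', b, hy'⟩
  exact ⟨k', c, (HY.transfer HX (d.trans inter_subset_left)).trans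
    ((closure_minimal (a.trans inter_subset_left) h2).trans h3), d.trans inter_subset_right⟩

theorem exists_rel_all [LocallyCompactSpace X] [RegularSpace Y] (HX : LM G X) (HY : LM G Y)
    (hT : LocTr G X) (x : X) : ∃ y : Y, Rel G x y := by
  obtain ⟨K, h1, h2, h3⟩ := local_compact_nhds (hT x univ isOpen_univ (mem_univ x))
  obtain ⟨k, a, b⟩ := HX.mov _ isOpen_interior ⟨x, mem_interior_iff_mem_nhds.2 h1⟩
  obtain ⟨y, hy⟩ := HY.exists_mem a
  obtain ⟨x', hx', h⟩ := exists_rel HY HX h3 (b.trans interior_subset) hy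
  obtain ⟨c, -, rfl⟩ := h2 hx'
  have := h.symm.smul HX HY c⁻¹
  rw [inv_smul_smul] at this
  exact ⟨_, this⟩

theorem continuous_of_rel [RegularSpace X] [LocallyCompactSpace Y] (HX : LM G X) (HY : LM G Y)
    (hTX : LocTr G X) (hTY : LocTr G Y) {φ : X → Y} (hφ : ∀ x, Rel G x (φ x)) : Continuous φ := by
  have heq : ∀ (c : G) x, φ (c • x) = c • φ x := fun c x =>
    (hφ _).unique HX HY hTY ((hφ x).smul HX HY c)
  rw [continuous_iff_continuousAt]
  intro x
  obtain ⟨K, hK, hK'⟩ := exists_compact_mem_nhds (φ x)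
  obtain ⟨k, a, b, d⟩ := hφ x _ _ isOpen_interior isOpen_interior
    (mem_interior_iff_mem_nhds.2 (hTX x univ isOpen_univ (mem_univ x)))
    (mem_interior_iff_mem_nhds.2 hK')
  obtain ⟨x', hx'⟩ := HX.exists_mem a
  obtain ⟨c, -, rfl⟩ := interior_subset (b hx')
  have h1 : ContinuousAt φ (c • x) := by
    refine hK.tendsto_nhds_of_unique_mapClusterPt ?_ fun y _ hy => ?_
    · filter_upwards [(isOpen_supp HX.cont k).mem_nhds hx'] with z hz
      obtain ⟨y, hy, h⟩ := exists_rel HX HY hK (d.trans interior_subset) hz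
      rwa [(hφ z).unique HX HY hTY h]
    · refine Rel.unique HX HY hTY (fun U V hU hV hxU hyV => ?_) (hφ _)
      obtain ⟨z, h1, h2⟩ := ((mapClusterPt_iff_frequently.1 hy V (hV.mem_nhds hyV)).and_eventually
        (hU.mem_nhds hxU)).exists
      exact hφ z U V hU hV h2 h1
  have h2 : φ = fun z => c⁻¹ • φ (c • z) := funext fun z => by rw [heq, inv_smul_smul]
  rw [h2]
  exact (HY.cont c⁻¹).continuousAt.comp (ContinuousAt.comp (f := fun z => c • z) h1
    (HX.cont c).continuousAt)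

/-- A reconstruction theorem in the spirit of Rubin and Whittaker. -/
theorem exists_homeomorph [LocallyCompactSpace X] [LocallyCompactSpace Y] (HX : LM G X)
    (HY : LM G Y) (hTX : LocTr G X) (hTY : LocTr G Y) :
    ∃ φ : X ≃ₜ Y, ∀ (c : G) x, φ (c • x) = c • φ x := by
  choose φ hφ using exists_rel_all HX HY hTX
  choose ψ hψ using exists_rel_all HY HX hTY
  exact ⟨⟨⟨φ, ψ, fun x => (hψ _).unique HY HX hTX (hφ x).symm,
    fun y => (hφ _).unique HX HY hTY (hψ y).symm⟩, continuous_of_rel HX HY hTX hTY hφ,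
    continuous_of_rel HY HX hTY hTX hψ⟩, fun c x => (hφ _).unique HX HY hTY ((hφ x).smul HX HY c)⟩

end two

end Pool.Agent.Lib.MP_b004e2_gt
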