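import Mathlib
import Pool.Agent.Lib.MP_b004e2_gt.LocMov

/-!
Automatic continuity of one-parameter subgroups, after Kallman.
-/

set_option autoImplicit false

namespace Pool.Agent.Lib.MP_b004e2_gt

open Set Filter Topology Metric MeasureTheory TopologicalSpace

section

variable {G X : Type*} [Group G] [TopologicalSpace X] [MulAction G X] [T2Space X]

theorem LM.maps_iff (H : LM G X) {U V : Set X} (hU : IsOpen U) (hV : IsClosed V) (g : G) :
    (∀ x ∈ U, g • x ∈ V) ↔ ∀ a b : G, supp X a ⊆ U → supp X b ⊆ Vᶜ →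
      g * a * g⁻¹ * b = b * (g * a * g⁻¹) := by
  constructor
  · intro h a b ha hb
    refine commute_of_disjoint H.faith fun x hx => smul_eq_of_notMem hb (not_not.2 ?_)
    have := h _ (ha (mem_supp_conj.1 hx))
    rwa [smul_inv_smul] at this
  · intro h x hx
    by_contra hc
    have hW : IsOpen ((fun y => g⁻¹ • y) ⁻¹' U ∩ Vᶜ) :=
      (hU.preimage (H.cont _)).inter hV.isOpen_compl
    obtain ⟨b, hb, hb'⟩ := H.mov _ hW ⟨g • x, by simpa using hx, hc⟩
    obtain ⟨p, hp⟩ := H.exists_mem hb
    obtain ⟨W, h1, h2, h3, h4⟩ := exists_displace_one H.cont hp hW (hb' hp)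
    obtain ⟨a, ha, ha'⟩ := H.mov W h1 ⟨p, h2⟩
    have := h (g⁻¹ * a * g⁻¹⁻¹) b (fun y hy => by
      simpa using (h3 (ha' (mem_supp_conj.1 hy))).1) (hb'.trans inter_subset_right)
    refine ha (H.eq_one ha' h4 ?_)
    simpa [mul_assoc] using this.symm

end

theorem continuous_of_measurable_flow {K : Type*} [MetricSpace K] [CompactSpace K]
    [MeasurableSpace C(K, K)] [BorelSpace C(K, K)] (u : ℝ → C(K, K))
    (hu : ∀ s t k, u (s + t) k = u s (u t k)) (h0 : ∀ k, u 0 k = k) (hm : Measurable u) :
    Continuous u := by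
  have hd : ∀ s t, dist (u s) (u t) = dist (u (s - t)) (u 0) := by
    have key : ∀ s t r, dist (u (s + r)) (u (t + r)) ≤ dist (u s) (u t) := fun s t r =>
      (ContinuousMap.dist_le dist_nonneg).2 fun k => by
        rw [hu, hu]; exact ContinuousMap.dist_apply_le_dist _
    intro s t
    refine le_antisymm ?_ ?_
    · simpa using key (s - t) 0 t
    · simpa [sub_eq_add_neg] using key s t (-t)
  have h1 : ∀ ε > 0, ∀ᶠ t in 𝓝 (0 : ℝ), dist (u t) (u 0) < ε := by
    intro ε hε
    obtain ⟨D, hD, hD'⟩ := exists_countable_dense C(K, K)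
    obtain ⟨d, -, hpos⟩ : ∃ d ∈ D, 0 < volume (u ⁻¹' ball d (ε / 2)) := by
      by_contra hc
      push Not at hc
      have h2 : volume (⋃ d ∈ D, u ⁻¹' ball d (ε / 2)) = 0 :=
        (measure_biUnion_null_iff hD).2 fun d hd => le_zero_iff.1 (hc d hd)
      have h3 : (⋃ d ∈ D, u ⁻¹' ball d (ε / 2)) = univ := eq_univ_of_forall fun t => by
        obtain ⟨d, a, b⟩ := hD'.exists_dist_lt (u t) (half_pos hε)
        exact mem_biUnion a b
      rw [h3] at h2
      simp at h2
    filter_upwards [Measure.sub_mem_nhds_zero_of_addHaar_pos volume _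
      (hm measurableSet_ball) hpos]
    rintro _ ⟨s, hs, t, ht, rfl⟩
    rw [← hd]
    have := dist_triangle_right (u s) (u t) d
    have h2 : dist (u s) d < ε / 2 := hs
    have h3 : dist (u t) d < ε / 2 := ht
    linarith
  rw [continuous_iff_continuousAt]
  intro t
  rw [ContinuousAt, Metric.tendsto_nhds]
  intro ε hε
  have : Tendsto (fun s => s - t) (𝓝 t) (𝓝 0) := by
    simpa using (continuous_sub_right t).tendsto t
  filter_upwards [this.eventually (h1 ε hε)] with s hs
  rwa [hd]

theorem kallman {G X K : Type*} [Group G] [TopologicalSpace X] [MulAction G X] [T2Space X]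
    [RegularSpace X] [SecondCountableTopology X] [MetricSpace K] [CompactSpace K]
    (H : LM G X) (ρ : G → C(K, K)) (hρ : ∀ a b k, ρ (a * b) k = ρ a (ρ b k))
    (hinj : Function.Injective ρ) (h1 : ∀ k, ρ 1 k = k)
    (hcl : IsClosed (range fun g => (ρ g, ρ g⁻¹)))
    (c : ℝ → G) (hc : ∀ s t, c (s + t) = c s * c t) (hc' : ∀ x : X, Continuous fun t => c t • x) :
    Continuous fun t => ρ (c t) := by
  borelize C(K, K)
  let S : Set (C(K, K) × C(K, K)) := range fun g => (ρ g, ρ g⁻¹)
  have : StandardBorelSpace S := hcl.measurableSet.standardBorel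
  have hr : ∀ s : S, ∃ g, (ρ g, ρ g⁻¹) = s.1 := fun s => s.2
  choose r hr using hr
  let j : S → (countableBasis X × countableBasis X → Prop) :=
    fun s B => ∀ x ∈ B.1.1, r s • x ∈ closure B.2.1
  have hj : Measurable j := by
    refine measurable_pi_lambda _ fun B => ?_
    rw [← measurableSet_setOfPred]
    refine IsClosed.measurableSet ?_
    have : {s : S | j s B} = ⋂ a : G, ⋂ b : G, ⋂ (_ : supp X a ⊆ B.1.1),
        ⋂ (_ : supp X b ⊆ (closure B.2.1)ᶜ), ⋂ k : K,
        {s : S | s.1.1 (ρ a (s.1.2 (ρ b k))) = ρ b (s.1.1 (ρ a (s.1.2 k)))} := by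
      ext s
      simp only [mem_iInter, mem_ofPred_eq, j]
      rw [H.maps_iff (isOpen_of_mem_countableBasis B.1.2) isClosed_closure, ← hr s]
      refine forall₄_congr fun a b _ _ => ?_
      rw [← hinj.eq_iff, ContinuousMap.ext_iff]
      simp only [hρ]
    rw [this]
    refine isClosed_iInter fun a => isClosed_iInter fun b => isClosed_iInter fun _ =>
      isClosed_iInter fun _ => isClosed_iInter fun k => isClosed_eq ?_ ?_
    · fun_prop
    · fun_prop
  have hji : Function.Injective j := by
    intro s s' h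
    have : r s = r s' := by
      rw [← mul_inv_eq_one, ← inv_mul_eq_one.trans mul_inv_eq_one.symm |>.eq]
      refine H.faith _ fun x => ?_
      rw [mul_smul, inv_smul_eq_iff]
      by_contra hne
      obtain ⟨W, h2, h3, h4⟩ := exists_mem_nhds_isClosed_subset
        (isOpen_compl_singleton.mem_nhds (show r s • x ∈ ({r s' • x}ᶜ : Set X) from Ne.symm hne))
      obtain ⟨V, hV, h5, h6⟩ := (isBasis_countableBasis X).mem_nhds_iff.1 h2
      obtain ⟨U, hU, h7, h8⟩ := (isBasis_countableBasis X).mem_nhds_iff.1
        (((isOpen_of_mem_countableBasis hV).preimage (H.cont (r s))).mem_nhds h5)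
      have h9 : j s (⟨U, hU⟩, ⟨V, hV⟩) := fun y hy => subset_closure (h8 hy)
      rw [h] at h9
      exact h4 (closure_minimal h6 h3 (h9 x h7)) rfl
    exact Subtype.ext (by rw [← hr s, ← hr s', this])
  let w : ℝ → S := fun t => ⟨(ρ (c t), ρ (c t)⁻¹), c t, rfl⟩
  have hw : Measurable w := by
    rw [← (hj.measurableEmbedding hji).measurable_comp_iff]
    refine measurable_pi_lambda _ fun B => ?_
    rw [← measurableSet_setOfPred]
    refine IsClosed.measurableSet ?_
    have : {t | (j ∘ w) t B} = ⋂ x ∈ B.1.1, (fun t => c t • x) ⁻¹' closure B.2.1 := by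
      ext t
      have : r (w t) = c t := hinj (congrArg Prod.fst (hr (w t)))
      simp only [mem_iInter, mem_ofPred_eq, j, Function.comp, this, mem_preimage]
    rw [this]
    exact isClosed_biInter fun x _ => isClosed_closure.preimage (hc' x)
  have hc0 : c 0 = 1 := by
    have := hc 0 0
    rw [add_zero] at this
    exact left_eq_mul.1 this
  exact continuous_of_measurable_flow (fun t => ρ (c t)) (fun s t k => by rw [hc, hρ])
    (fun k => by rw [hc0, h1]) (measurable_fst.comp (measurable_subtype_coe.comp hw))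

theorem secondCountable_onePoint (N : Type*) [TopologicalSpace N] [T2Space N]
    [LocallyCompactSpace N] [SecondCountableTopology N] :
    SecondCountableTopology (OnePoint N) := by
  let K := CompactExhaustion.choice N
  have : IsTopologicalBasis ((fun U : Set N => ((↑) : N → OnePoint N) '' U) '' countableBasis N ∪
      range fun n => (((↑) : N → OnePoint N) '' K n)ᶜ) := by
    refine isTopologicalBasis_of_isOpen_of_nhds ?_ fun a u ha hu => ?_
    · rintro _ (⟨U, hU, rfl⟩ | ⟨n, rfl⟩)
      · exact OnePoint.isOpenMap_coe _ (isOpen_of_mem_countableBasis hU)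
      · exact OnePoint.isOpen_compl_image_coe.2 ⟨(K.isCompact n).isClosed, K.isCompact n⟩
    · induction a using OnePoint.rec with
      | infty =>
        obtain ⟨n, hn⟩ := K.exists_superset_of_isCompact ((OnePoint.isOpen_iff_of_mem ha).1 hu).2
        refine ⟨_, Or.inr ⟨n, rfl⟩, by simp, fun y hy => ?_⟩
        induction y using OnePoint.rec with
        | infty => exact ha
        | coe y =>
          by_contra hc
          exact hy ⟨y, hn hc, rfl⟩
      | coe a =>
        obtain ⟨U, hU, h1, h2⟩ := (isBasis_countableBasis N).mem_nhds_iff.1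
          ((hu.preimage OnePoint.continuous_coe).mem_nhds ha)
        exact ⟨_, Or.inl ⟨U, hU, rfl⟩, ⟨a, h1, rfl⟩, image_subset_iff.2 h2⟩
  exact this.secondCountableTopology
    (((countable_countableBasis N).image _).union (countable_range _))

end Pool.Agent.Lib.MP_b004e2_gt
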