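import Mathlib

/-!
Shift maps along the orbits of a flow.
-/

set_option autoImplicit false

namespace Pool.Agent.Lib.MP_b004e2_gt

open Set Filter Topology Metric

variable {N : Type*} [TopologicalSpace N]

theorem exists_homeo_of_lip (ψ : Flow ℝ N) {α : N → ℝ} (hα : Continuous α) {δ : ℝ}
    (h0 : ∀ p, 0 ≤ α p ∧ α p ≤ δ) (hl : ∀ t p, α (ψ t p) ≤ α p + |t| / 2) :
    ∃ T : N ≃ₜ N, ∀ p, T p = ψ (α p) p := by
  have hc : ∀ y, Continuous fun s => s + α (ψ s y) := fun y =>
    continuous_id.add (hα.comp (ψ.continuous continuous_id continuous_const))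
  have hexp : ∀ y s s', |s' - s| ≤ 2 * |(s' + α (ψ s' y)) - (s + α (ψ s y))| := by
    intro y s s'
    have h1 := hl (s' - s) (ψ s y)
    have h2 := hl (s - s') (ψ s' y)
    rw [← ψ.map_add, sub_add_cancel] at h1 h2
    rw [abs_sub_comm s s'] at h2
    rcases abs_cases (s' - s) with h | h <;>
      rcases abs_cases ((s' + α (ψ s' y)) - (s + α (ψ s y))) with h' | h' <;> linarith
  have hex : ∀ y, ∃ s, s + α (ψ s y) = 0 := fun y => by
    have hδ : 0 ≤ δ := (h0 y).1.trans (h0 y).2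
    obtain ⟨s, -, hs⟩ := intermediate_value_Icc (a := -δ) (b := 0) (by linarith)
      (hc y).continuousOn (show (0 : ℝ) ∈ Icc _ _ from
        ⟨by have := (h0 (ψ (-δ) y)).2; linarith, by have := (h0 (ψ 0 y)).1; linarith⟩)
    exact ⟨s, hs⟩
  choose σ hσ using hex
  have hu : ∀ y s, s + α (ψ s y) = 0 → σ y = s := fun y s hs => by
    have := hexp y s (σ y)
    rw [hs, hσ, sub_zero, abs_zero, mul_zero] at this
    exact sub_eq_zero.1 (abs_nonpos_iff.1 this)
  have hσc : Continuous σ := by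
    rw [continuous_iff_continuousAt]
    intro y
    rw [ContinuousAt, tendsto_iff_norm_sub_tendsto_zero]
    have h1 : Continuous fun y' => 2 * |0 - (σ y + α (ψ (σ y) y'))| := by
      have := hα.comp (ψ.continuous_toFun (σ y))
      exact continuous_const.mul (continuous_const.sub (continuous_const.add this)).abs
    have h2 := h1.tendsto y
    rw [hσ, sub_zero, abs_zero, mul_zero] at h2
    refine squeeze_zero (fun _ => norm_nonneg _) (fun y' => ?_) h2
    have := hexp y' (σ y) (σ y')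
    rwa [hσ] at this
  refine ⟨⟨⟨fun p => ψ (α p) p, fun y => ψ (σ y) y, fun p => ?_, fun y => ?_⟩,
    ψ.continuous hα continuous_id, ψ.continuous hσc continuous_id⟩, fun p => rfl⟩
  · have h1 : ψ (-α p) (ψ (α p) p) = p := by
      rw [← ψ.map_add, neg_add_cancel, ψ.map_zero_apply]
    show ψ (σ (ψ (α p) p)) (ψ (α p) p) = p
    rw [hu _ (-α p) (by rw [h1, neg_add_cancel]), h1]
  · show ψ (α (ψ (σ y) y)) (ψ (σ y) y) = y
    rw [← ψ.map_add, add_comm, hσ, ψ.map_zero_apply]

theorem exists_small_time (ψ : Flow ℝ N) {x : N} {t : ℝ} (h : ψ t x ≠ x) {δ : ℝ} (hδ : 0 < δ) :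
    ∃ η, 0 < η ∧ η ≤ δ ∧ ψ η x ≠ x := by
  by_contra hc
  push Not at hc
  have h1 : ∀ (n : ℕ) s, 0 ≤ s → s ≤ δ → ψ (n * s) x = x := by
    intro n s h1 h2
    have h3 : ψ s x = x := by
      rcases h1.lt_or_eq with h3 | rfl
      · exact hc s h3 h2
      · exact ψ.map_zero_apply x
    induction n with
    | zero => rw [Nat.cast_zero, zero_mul, ψ.map_zero_apply]
    | succ n ih => rw [Nat.cast_succ, add_mul, one_mul, ψ.map_add, h3, ih]
  have h2 : ψ |t| x = x := by
    obtain ⟨n, hn⟩ := exists_nat_gt (|t| / δ)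
    have hn0 : (0 : ℝ) < n := lt_of_le_of_lt (by positivity) hn
    have := h1 n (|t| / n) (by positivity) (by
      rw [div_le_iff₀ hn0]
      rw [div_lt_iff₀ hδ] at hn
      linarith)
    rwa [mul_div_cancel₀ _ hn0.ne'] at this
  apply h
  rcases abs_cases t with h3 | h3
  · rwa [h3.1] at h2
  · rw [h3.1] at h2
    conv_lhs => rw [← h2]
    rw [← ψ.map_add, add_neg_cancel, ψ.map_zero_apply]

theorem exists_shift [T2Space N] [LocallyCompactSpace N] (ψ : Flow ℝ N) {x : N} {t : ℝ}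
    (h : ψ t x ≠ x) {U : Set N} (hU : IsOpen U) (hx : x ∈ U) :
    ∃ T : N ≃ₜ N, T x ≠ x ∧ (∀ p ∉ U, T p = p) ∧ ∀ p, ∃ s, T p = ψ s p := by
  have hc : Continuous fun z : ℝ × N => ψ z.1 z.2 := ψ.continuous continuous_fst continuous_snd
  have h1 : (fun z : ℝ × N => ψ z.1 z.2) ⁻¹' U ∈ 𝓝 ((0 : ℝ), x) :=
    (hU.preimage hc).mem_nhds (by show ψ 0 x ∈ U; rwa [ψ.map_zero_apply])
  obtain ⟨A, hA, V, hV, hAV⟩ := mem_nhds_prod_iff.1 h1
  obtain ⟨δ, hδ, hδA⟩ := nhds_basis_closedBall.mem_iff.1 hA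
  obtain ⟨β, b1, b0, -, b01⟩ := exists_continuous_one_zero_of_isCompact (isCompact_singleton (x := x))
    isOpen_interior.isClosed_compl
    (disjoint_singleton_left.2 (not_not.2 (mem_interior_iff_mem_nhds.2 hV)))
  obtain ⟨η, hη, hηδ, hηx⟩ := exists_small_time ψ h (half_pos hδ)
  let F : N → ℝ → ℝ := fun p s => η * β (ψ s p) - |s| / 2
  have hF : Continuous ↿F := by
    have : Continuous fun z : N × ℝ => β (ψ z.2 z.1) :=
      β.continuous.comp (ψ.continuous continuous_snd continuous_fst)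
    exact (continuous_const.mul this).sub (continuous_snd.abs.div_const 2)
  let α : N → ℝ := fun p => sSup (F p '' closedBall 0 δ)
  have hα : Continuous α := (isCompact_closedBall 0 δ).continuous_sSup hF
  have hB : ∀ p, ∃ s ∈ closedBall (0 : ℝ) δ, α p = F p s ∧ ∀ s' ∈ closedBall (0 : ℝ) δ,
      F p s' ≤ F p s := fun p => (isCompact_closedBall 0 δ).exists_sSup_image_eq_and_ge
        ⟨0, mem_closedBall_self hδ.le⟩ (hF.comp (Continuous.prodMk_right p)).continuousOn
  have hF0 : ∀ p, F p 0 = η * β p := fun p => by simp [F, ψ.map_zero_apply]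
  have hFle : ∀ p s, F p s ≤ η - |s| / 2 := fun p s => by
    have := (b01 (ψ s p)).2
    simp only [F]
    nlinarith
  have hA' : ∀ p s, F p s ≤ α p := fun p s => by
    obtain ⟨s', -, h2, h3⟩ := hB p
    rw [h2]
    by_cases hs : s ∈ closedBall (0 : ℝ) δ
    · exact h3 s hs
    · have h4 := h3 0 (mem_closedBall_self hδ.le)
      have h5 := hFle p s
      have h6 := mul_nonneg hη.le (b01 p).1
      rw [mem_closedBall_zero_iff, Real.norm_eq_abs] at hs
      rw [hF0] at h4
      linarith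
  have h0 : ∀ p, 0 ≤ α p ∧ α p ≤ η := fun p => by
    refine ⟨(mul_nonneg hη.le (b01 p).1).trans (hF0 p ▸ hA' p 0), ?_⟩
    obtain ⟨s', -, h2, -⟩ := hB p
    have := hFle p s'
    have := abs_nonneg s'
    linarith
  obtain ⟨T, hT⟩ := exists_homeo_of_lip ψ hα h0 fun t p => by
    obtain ⟨s, -, h2, -⟩ := hB (ψ t p)
    have h3 := hA' p (s + t)
    have h4 := abs_add_le s t
    simp only [F] at h2 h3
    rw [← ψ.map_add] at h2
    linarith
  refine ⟨T, ?_, fun p hp => ?_, fun p => ⟨_, hT p⟩⟩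
  · have h2 := hA' x 0
    rw [hF0, b1 rfl, Pi.one_apply, mul_one] at h2
    rwa [hT, le_antisymm (h0 x).2 h2]
  · obtain ⟨s, hs, h2, -⟩ := hB p
    have h3 : β (ψ s p) = 0 := b0 fun h4 => hp (by
      have := hAV (mk_mem_prod (hδA (show -s ∈ closedBall (0 : ℝ) δ by simpa using hs))
        (interior_subset h4))
      rwa [mem_preimage, ← ψ.map_add, neg_add_cancel, ψ.map_zero_apply] at this)
    have h4 : α p = 0 := le_antisymm (by
      simp only [F, h3] at h2
      have := abs_nonneg s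
      linarith) (h0 p).1
    rw [hT, h4, ψ.map_zero_apply]

end Pool.Agent.Lib.MP_b004e2_gt
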