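import Mathlib
import Pool.Agent.Lib.MP_b004e2_gt.Kallman
import Pool.Agent.Lib.MP_b004e2_gt.Shift
import Pool.Agent.Lib.MP_b004e2_gt.Ball

/-!
If the homeomorphism group of `M` is isomorphic to the group of homeomorphisms of `N` preserving
`f`, then `M` is equivariantly homeomorphic to an open subset of `N` on which `f` is constant.
-/

set_option autoImplicit false

namespace Pool.Agent.Lib.MP_b004e2_gt

open Set Filter Topology Metric

/-- The tautological action of the homeomorphism group. -/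
@[reducible] def homeoAct (M : Type*) [TopologicalSpace M] : MulAction (M ≃ₜ M) M where
  smul g x := g x
  one_smul _ := rfl
  mul_smul _ _ _ := rfl

theorem flow_mem {N : Type*} [TopologicalSpace N] (ψ : Flow ℝ N) {K : Set N}
    (h : ∀ t p, p ∉ K → ψ t p = p) (t : ℝ) {p : N} (hp : p ∈ K) : ψ t p ∈ K := by
  by_contra hc
  have := h (-t) _ hc
  rw [← ψ.map_add, neg_add_cancel, ψ.map_zero_apply] at this
  exact hc (this ▸ hp)

theorem exists_move {E M : Type*} [NormedAddCommGroup E] [NormedSpace ℝ E] [ProperSpace E]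
    [TopologicalSpace M] [T2Space M] [ChartedSpace E M] {U : Set M} (hU : IsOpen U)
    (hc : IsPreconnected U) {x y : M} (hx : x ∈ U) (hy : y ∈ U) :
    ∃ (g : M ≃ₜ M) (K : Set M), IsCompact K ∧ K ⊆ U ∧ (∀ p ∉ K, g p = p) ∧ g x = y := by
  refine hc.induction₂' (fun x y => ∃ (g : M ≃ₜ M) (K : Set M), IsCompact K ∧ K ⊆ U ∧
    (∀ p ∉ K, g p = p) ∧ g x = y) (fun x hx => ?_) ?_ hx hy
  · obtain ⟨K, h1, h2, h3⟩ := exists_flows (E := E) x hU hx
    filter_upwards [mem_nhdsWithin_of_mem_nhds h3]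
    rintro _ ⟨ψ, h4, rfl⟩
    exact ⟨⟨ψ.toHomeomorph 1, K, h1, h2, h4 1, rfl⟩, ⟨(ψ.toHomeomorph 1).symm, K, h1, h2, h4 (-1),
      (ψ.toHomeomorph 1).symm_apply_apply x⟩⟩
  · rintro x y z - - - ⟨g, K, a, b, c, rfl⟩ ⟨g', K', a', b', c', rfl⟩
    exact ⟨g.trans g', K ∪ K', a.union a', union_subset b b', fun p hp => by
      rw [Homeomorph.trans_apply, c p fun h => hp (Or.inl h), c' p fun h => hp (Or.inr h)], rfl⟩

theorem flow_image {M N : Type*} [TopologicalSpace M] [T2Space M] [RegularSpace M]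
    [SecondCountableTopology M] [TopologicalSpace N] [T2Space N] [LocallyCompactSpace N]
    [SecondCountableTopology N] (H : @LM (M ≃ₜ M) M _ _ (homeoAct M)) {f : N → ℝ}
    (hf : Continuous f) (ρ : (M ≃ₜ M) →* (N ≃ₜ N)) (hinj : Function.Injective ρ)
    (hr : ∀ T : N ≃ₜ N, (∃ g, ρ g = T) ↔ ∀ p, f (T p) = f p) (ψ : Flow ℝ M) :
    ∃ χ : Flow ℝ N, ∀ t p, χ t p = ρ (ψ.toHomeomorph t) p := by
  let := homeoAct M
  have := secondCountable_onePoint N
  let : MetricSpace (OnePoint N) := TopologicalSpace.metrizableSpaceMetric _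
  let ρ' : (M ≃ₜ M) → C(OnePoint N, OnePoint N) := fun g => (ρ g).onePointCongr
  have hc : ∀ g (p : N), ρ' g p = (ρ g p : N) := fun g p => rfl
  have hi : ∀ g, ρ' g OnePoint.infty = OnePoint.infty := fun g => rfl
  have hmul : ∀ s t, ψ.toHomeomorph (s + t) = ψ.toHomeomorph s * ψ.toHomeomorph t :=
    fun s t => Homeomorph.ext fun x => ψ.map_add s t x
  have key := kallman H ρ' (fun a b k => by
      induction k using OnePoint.rec with
      | infty => rfl
      | coe k => rw [hc, hc, hc, map_mul]; rfl)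
    (fun a b hab => hinj (Homeomorph.ext fun p => OnePoint.coe_injective (by
      rw [← hc, ← hc, hab])))
    (fun k => by
      induction k using OnePoint.rec with
      | infty => rfl
      | coe k => rw [hc, map_one]; rfl) ?_ ψ.toHomeomorph hmul
    (fun x => ψ.continuous continuous_id continuous_const)
  · refine ⟨⟨fun t p => ρ (ψ.toHomeomorph t) p, ?_, fun s t p => by rw [hmul, map_mul]; rfl,
      fun p => ?_⟩, fun _ _ => rfl⟩
    · rw [OnePoint.isOpenEmbedding_coe.isInducing.continuous_iff]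
      exact (key.comp continuous_fst).eval (OnePoint.continuous_coe.comp continuous_snd)
    · rw [show ψ.toHomeomorph 0 = 1 from Homeomorph.ext fun x => ψ.map_zero_apply x, map_one]
      rfl
  · have : (range fun g => (ρ' g, ρ' g⁻¹)) =
        {u | (∀ k, u.1 (u.2 k) = k) ∧ (∀ k, u.2 (u.1 k) = k) ∧ u.1 OnePoint.infty = OnePoint.infty ∧
          ∀ p : N, u.1 p ∈ (((↑) : N → OnePoint N) '' {q | f q ≠ f p})ᶜ} := by
      ext u
      constructor
      · rintro ⟨g, rfl⟩
        refine ⟨fun k => ?_, fun k => ?_, rfl, fun p => ?_⟩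
        · induction k using OnePoint.rec with
          | infty => rfl
          | coe k => simp only [hc, map_inv]; exact congrArg _ ((ρ g).apply_symm_apply k)
        · induction k using OnePoint.rec with
          | infty => rfl
          | coe k => simp only [hc, map_inv]; exact congrArg _ ((ρ g).symm_apply_apply k)
        · rintro ⟨q, h1, h2⟩
          rw [hc] at h2
          exact h1 (OnePoint.coe_injective h2 ▸ (hr _).1 ⟨g, rfl⟩ p)
      · rintro ⟨h1, h2, h3, h4⟩
        have h3' : u.2 OnePoint.infty = OnePoint.infty := by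
          conv_lhs => rw [← h3]
          exact h2 _
        have e1 : ∀ p : N, ∃ q : N, (q : OnePoint N) = u.1 p := fun p =>
          OnePoint.ne_infty_iff_exists.1 fun h => by
            have := h2 p
            rw [h, h3'] at this
            exact OnePoint.infty_ne_coe p this
        have e2 : ∀ p : N, ∃ q : N, (q : OnePoint N) = u.2 p := fun p =>
          OnePoint.ne_infty_iff_exists.1 fun h => by
            have := h1 p
            rw [h, h3] at this
            exact OnePoint.infty_ne_coe p this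
        choose a ha using e1
        choose b hb using e2
        let T : N ≃ₜ N := ⟨⟨a, b, fun p => OnePoint.coe_injective (by rw [hb, ha, h2]),
          fun p => OnePoint.coe_injective (by rw [ha, hb, h1])⟩,
          OnePoint.isOpenEmbedding_coe.isInducing.continuous_iff.2
            ((u.1.continuous.comp OnePoint.continuous_coe).congr fun p => (ha p).symm),
          OnePoint.isOpenEmbedding_coe.isInducing.continuous_iff.2
            ((u.2.continuous.comp OnePoint.continuous_coe).congr fun p => (hb p).symm)⟩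
        obtain ⟨g, hg⟩ := (hr T).2 fun p => not_not.1 fun h => h4 p ⟨a p, h, ha p⟩
        refine ⟨g, Prod.ext (ContinuousMap.ext fun k => ?_) (ContinuousMap.ext fun k => ?_)⟩
        · induction k using OnePoint.rec with
          | infty => exact h3.symm
          | coe k => simp only [hc, hg]; exact ha k
        · induction k using OnePoint.rec with
          | infty => exact h3'.symm
          | coe k => simp only [hc, map_inv, hg]; exact hb k
    rw [this]
    simp only [ofPred_and, ofPred_forall]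
    refine (isClosed_iInter fun k => isClosed_eq (by fun_prop) continuous_const).inter
      ((isClosed_iInter fun k => isClosed_eq (by fun_prop) continuous_const).inter
      ((isClosed_eq (by fun_prop) continuous_const).inter (isClosed_iInter fun p => ?_)))
    exact (OnePoint.isOpenMap_coe _ (isOpen_ne_fun hf continuous_const)).isClosed_compl.preimage
      (show Continuous fun u : C(OnePoint N, OnePoint N) × C(OnePoint N, OnePoint N) => u.1 p by
        fun_prop)

theorem core {E E' M N : Type*} [NormedAddCommGroup E] [NormedSpace ℝ E] [ProperSpace E]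
    [NormedAddCommGroup E'] [NormedSpace ℝ E'] [ProperSpace E']
    [TopologicalSpace M] [T2Space M] [SecondCountableTopology M] [ChartedSpace E M]
    [ConnectedSpace M] [Nontrivial M]
    [TopologicalSpace N] [T2Space N] [SecondCountableTopology N] [ChartedSpace E' N]
    {f : N → ℝ} (hf : Continuous f) (ρ : (M ≃ₜ M) →* (N ≃ₜ N)) (hinj : Function.Injective ρ)
    (hr : ∀ T : N ≃ₜ N, (∃ g, ρ g = T) ↔ ∀ p, f (T p) = f p) :
    ∃ φ : M → N, IsOpenEmbedding φ ∧ (∀ g x, ρ g (φ x) = φ (g x)) ∧ (∀ x x', f (φ x) = f (φ x')) ∧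
      ∀ y, (𝓝[≠] y).NeBot → (∀ᶠ z in 𝓝 y, f z = f y) → y ∈ range φ := by
  have := ChartedSpace.locallyCompactSpace E M
  have := ChartedSpace.locallyCompactSpace E' N
  let := homeoAct M
  have hmov : ∀ (x : M) (U : Set M), IsOpen U → x ∈ U → ∃ ψ : Flow ℝ M,
      (∀ t p, p ∉ U → ψ t p = p) ∧ ψ 1 x ≠ x := fun x U hU hx => by
    obtain ⟨K, -, h2, h3⟩ := exists_flows (E := E) x hU hx
    obtain ⟨_, ⟨ψ, h4, rfl⟩, h5⟩ := Filter.nonempty_of_mem (inter_mem
      (mem_nhdsWithin_of_mem_nhds h3 : _ ∈ 𝓝[≠] x) (self_mem_nhdsWithin (s := {x}ᶜ)))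
    exact ⟨ψ, fun t p hp => h4 t p fun h => hp (h2 h), h5⟩
  have HM : LM (M ≃ₜ M) M := ⟨fun g => g.continuous, fun g h => Homeomorph.ext h,
    fun U hU ⟨x, hx⟩ => by
      obtain ⟨ψ, h1, h2⟩ := hmov x U hU hx
      exact ⟨ψ.toHomeomorph 1, fun h => h2 (congrArg (fun g : M ≃ₜ M => g x) h),
        fun p hp => not_not.1 fun h => hp (h1 1 p h)⟩⟩
  have TM : LocTr (M ≃ₜ M) M := fun x U hU hx => by
    obtain ⟨K, -, h2, h3⟩ := exists_flows (E := E) x hU hx
    filter_upwards [h3]
    rintro _ ⟨ψ, h4, rfl⟩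
    exact ⟨ψ.toHomeomorph 1, fun p hp => not_not.1 fun h => hp (h4 1 p fun h' => h (h2 h')), rfl⟩
  have hρ : ∀ g p, f (ρ g p) = f p := fun g => (hr _).1 ⟨g, rfl⟩
  let Y : Set N := {y | ∃ χ : Flow ℝ N, (∀ t p, f (χ t p) = f p) ∧ ∃ t, χ t y ≠ y}
  have hY : IsOpen Y := by
    rw [isOpen_iff_mem_nhds]
    rintro y ⟨χ, h1, t, h2⟩
    filter_upwards [(isOpen_ne_fun (χ.continuous_toFun t) continuous_id).mem_nhds h2] with z hz
    exact ⟨χ, h1, t, hz⟩
  have hYi : ∀ (g : M ≃ₜ M), ∀ y ∈ Y, ρ g y ∈ Y := by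
    rintro g y ⟨χ, h1, t, h2⟩
    refine ⟨⟨fun t p => ρ g (χ t ((ρ g).symm p)), ?_, fun s t p => ?_, fun p => ?_⟩,
      fun t p => ?_, t, ?_⟩
    · exact (ρ g).continuous.comp
        (χ.continuous continuous_fst ((ρ g).symm.continuous.comp continuous_snd))
    · rw [Homeomorph.symm_apply_apply, χ.map_add]
    · rw [χ.map_zero_apply, Homeomorph.apply_symm_apply]
    · show f (ρ g (χ t ((ρ g).symm p))) = f p
      rw [hρ, h1, ← hρ g, Homeomorph.apply_symm_apply]
    · show ρ g (χ t ((ρ g).symm (ρ g y))) ≠ ρ g y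
      rw [Homeomorph.symm_apply_apply]
      exact fun h => h2 ((ρ g).injective h)
  let : MulAction (M ≃ₜ M) Y :=
    { smul := fun g y => ⟨ρ g y, hYi g y y.2⟩
      one_smul := fun y => Subtype.ext (by show ρ 1 y = y; rw [map_one]; rfl)
      mul_smul := fun a b y => Subtype.ext (by show ρ (a * b) y = _; rw [map_mul]; rfl) }
  have hsm : ∀ (g : M ≃ₜ M) (y : Y), ((g • y : Y) : N) = ρ g y := fun _ _ => rfl
  have HY : LM (M ≃ₜ M) Y := by
    refine ⟨fun g => ((ρ g).continuous.comp continuous_subtype_val).subtype_mk _,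
      fun g hg => ?_, fun U hU ⟨y, hy⟩ => ?_⟩
    · by_contra hne
      obtain ⟨x, hx⟩ := HM.exists_mem hne
      obtain ⟨V, h1, h2, -, h3⟩ := exists_displace_one HM.cont hx isOpen_univ (mem_univ x)
      obtain ⟨ψ, h4, h5⟩ := hmov x V h1 h2
      obtain ⟨χ, hχ⟩ := flow_image HM hf ρ hinj hr ψ
      let := homeoAct N
      have h6 : ρ (ψ.toHomeomorph 1) * ρ g = ρ g * ρ (ψ.toHomeomorph 1) :=
        commute_of_disjoint (X := N) (fun g h => Homeomorph.ext h) fun p hp =>
          congrArg Subtype.val (hg ⟨p, χ, fun t q => by rw [hχ, hρ], 1, by rw [hχ]; exact hp⟩)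
      rw [← map_mul, ← map_mul] at h6
      have h7 := HM.eq_one (k := ψ.toHomeomorph 1)
        (fun p hp => not_not.1 fun h => hp (h4 1 p h)) h3 (hinj h6).symm
      exact h5 (congrArg (fun g : M ≃ₜ M => g x) h7)
    · obtain ⟨χ, h1, t, h2⟩ := y.2
      obtain ⟨T, h3, h4, h5⟩ := exists_shift χ h2 (hY.isOpenMap_subtype_val U hU) ⟨y, hy, rfl⟩
      obtain ⟨g, rfl⟩ := (hr T).2 fun p => by
        obtain ⟨s, hs⟩ := h5 p
        rw [hs, h1]
      refine ⟨g, fun h => h3 (by rw [h, map_one]; rfl), fun p hp => ?_⟩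
      by_contra hc
      exact hp (Subtype.ext (h4 p fun ⟨q, h6, h7⟩ => hc (Subtype.ext h7 ▸ h6)))
  have hconst : ∀ y y' : Y, f y = f y' := by
    have key : ∀ y y' : Y, ¬ f y < f y' := fun y y' h => by
      obtain ⟨c, h1, h2⟩ := exists_between h
      obtain ⟨z, h3, h4⟩ := HM.inter_nonempty HY (fun x x' => by
          obtain ⟨g, -, -, -, -, h⟩ := exists_move (E := E) isOpen_univ isPreconnected_univ
            (mem_univ x) (mem_univ x')
          exact ⟨g, h⟩) (U := {z : Y | f z < c}) (V := {z : Y | c < f z})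
        (isOpen_lt (hf.comp continuous_subtype_val) continuous_const)
        (isOpen_lt continuous_const (hf.comp continuous_subtype_val)) ⟨y, h1⟩ ⟨y', h2⟩
        fun g z hz => by
          show f (ρ g z) < c
          rwa [hρ]
      exact lt_asymm (show f z < c from h3) h4
    exact fun y y' => le_antisymm (not_lt.1 (key y' y)) (not_lt.1 (key y y'))
  have TY : LocTr (M ≃ₜ M) Y := fun y U hU hy => by
    obtain ⟨K, -, h2, h3⟩ := exists_flows (E := E') (y : N) (hY.isOpenMap_subtype_val U hU)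
      ⟨y, hy, rfl⟩
    filter_upwards [continuous_subtype_val.continuousAt.preimage_mem_nhds h3]
    rintro z ⟨χ, h4, h5⟩
    obtain ⟨g, hg⟩ := (hr (χ.toHomeomorph 1)).2 fun p => by
      by_cases hp : p ∈ K
      · obtain ⟨a, -, ha⟩ := h2 hp
        obtain ⟨b, -, hb⟩ := h2 (flow_mem χ h4 1 hp)
        rw [Flow.toHomeomorph_apply, ← hb, ← ha]
        exact hconst b a
      · rw [Flow.toHomeomorph_apply, h4 1 p hp]
    refine ⟨g, fun p hp => ?_, Subtype.ext (by rw [hsm, hg]; exact h5)⟩
    by_contra hc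
    refine hp (Subtype.ext ?_)
    rw [hsm, hg]
    exact h4 1 p fun h => let ⟨q, h6, h7⟩ := h2 h; hc (Subtype.ext h7 ▸ h6)
  have := hY.locallyCompactSpace
  obtain ⟨φ, hφ⟩ := exists_homeomorph HM HY TM TY
  refine ⟨fun x => φ x, hY.isOpenEmbedding_subtypeVal.comp φ.isOpenEmbedding,
    fun g x => congrArg Subtype.val (hφ g x).symm, fun x x' => hconst _ _, fun y hy h => ?_⟩
  obtain ⟨O, h1, h2, h3⟩ := mem_nhds_iff.1 h
  obtain ⟨K, -, h4, h5⟩ := exists_flows (E := E') y h2 h3
  obtain ⟨_, ⟨χ, h6, rfl⟩, h7⟩ := Filter.nonempty_of_mem (inter_mem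
    (mem_nhdsWithin_of_mem_nhds h5 : _ ∈ 𝓝[≠] y) (self_mem_nhdsWithin (s := {y}ᶜ)))
  have : y ∈ Y := ⟨χ, fun t p => by
    by_cases hp : p ∈ K
    · rw [h1 (h4 hp), h1 (h4 (flow_mem χ h6 t hp))]
    · rw [h6 t p hp], 1, h7⟩
  exact ⟨φ.symm ⟨y, this⟩, by simp⟩

end Pool.Agent.Lib.MP_b004e2_gt
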