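import Mathlib
import Pool.Agent.Lib.MP_b004e2_gt.Core

/-!
The Phragmen-Brouwer property, and density of an open set all of whose homeomorphisms extend.
-/

set_option autoImplicit false

namespace Pool.Agent.Lib.MP_b004e2_gt

open Set Filter Topology Metric

section PB

variable {E : Type*} [NormedAddCommGroup E] [NormedSpace ℝ E]

theorem isOpen_sdiff_component {X : Type*} [TopologicalSpace X] [LocallyConnectedSpace X]
    {O : Set X} (hO : IsOpen O) (p : X) : IsOpen (O \ connectedComponentIn O p) := by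
  rw [isOpen_iff_mem_nhds]
  rintro x ⟨h1, h2⟩
  filter_upwards [hO.connectedComponentIn.mem_nhds (mem_connectedComponentIn h1)] with y hy
  refine ⟨connectedComponentIn_subset _ _ hy, fun h => h2 ?_⟩
  rw [connectedComponentIn_eq h, ← connectedComponentIn_eq hy]
  exact mem_connectedComponentIn h1

theorem phragmen_brouwer {A B : Set E} (hA : IsClosed A) (hB : IsClosed B) (hAB : Disjoint A B)
    {p q : E} (h1 : q ∈ connectedComponentIn Aᶜ p) (h2 : q ∈ connectedComponentIn Bᶜ p) :
    q ∈ connectedComponentIn (A ∪ B)ᶜ p := by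
  classical
  by_contra hq
  have hpA : p ∈ Aᶜ := connectedComponentIn_nonempty_iff.1 ⟨q, h1⟩
  have hpB : p ∈ Bᶜ := connectedComponentIn_nonempty_iff.1 ⟨q, h2⟩
  have hO : IsOpen (A ∪ B)ᶜ := (hA.union hB).isOpen_compl
  obtain ⟨τ, t0, t1, -⟩ := exists_continuous_zero_one_of_isClosed hA hB hAB
  set O' := (A ∪ B)ᶜ \ connectedComponentIn (A ∪ B)ᶜ p with hO'
  have hO'o : IsOpen O' := isOpen_sdiff_component hO p
  have hfr : ∀ a ∈ frontier O', a ∈ A ∪ B := fun a ha => by
    by_contra hc
    rw [hO'o.frontier_eq] at ha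
    have h3 : a ∈ connectedComponentIn (A ∪ B)ᶜ p := not_not.1 fun h => ha.2 ⟨hc, h⟩
    obtain ⟨y, h4, h5⟩ := mem_closure_iff.1 ha.1 _ hO.connectedComponentIn h3
    exact h5.2 h4
  let L₁ : E → ℝ := fun x => if x ∈ O' then 2 - τ x else τ x
  let L₂ : E → ℝ := fun x => if x ∈ O' then -τ x else τ x
  have c1 : ContinuousOn L₁ Aᶜ := ContinuousOn.if (fun a ha => by
      rw [t1 ((hfr a ha.2).resolve_left ha.1)]; norm_num)
    (continuous_const.sub τ.continuous).continuousOn τ.continuous.continuousOn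
  have c2 : ContinuousOn L₂ Bᶜ := ContinuousOn.if (fun a ha => by
      rw [t0 ((hfr a ha.2).resolve_right ha.1)]; norm_num)
    τ.continuous.neg.continuousOn τ.continuous.continuousOn
  have e12 : ∀ x, ((L₁ x : ℝ) : AddCircle (2 : ℝ)) = (L₂ x : ℝ) := fun x => by
    simp only [L₁, L₂]
    split_ifs
    · rw [sub_eq_add_neg, add_comm, AddCircle.coe_add_period]
    · rfl
  have cov := AddCircle.isCoveringMap_coe (2 : ℝ)
  have hF : Continuous fun x => ((L₁ x : ℝ) : AddCircle (2 : ℝ)) := by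
    rw [continuous_iff_continuousAt]
    intro x
    by_cases hx : x ∈ A
    · simp only [e12]
      exact cov.continuous.continuousAt.comp
        (c2.continuousAt (hB.isOpen_compl.mem_nhds (disjoint_left.1 hAB hx)))
    · exact cov.continuous.continuousAt.comp (c1.continuousAt (hA.isOpen_compl.mem_nhds hx))
  have hp : p ∉ O' := fun h => h.2 (mem_connectedComponentIn h.1)
  have hq' : q ∈ O' := ⟨fun h => h.elim (connectedComponentIn_subset _ _ h1)
    (connectedComponentIn_subset _ _ h2), hq⟩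
  obtain ⟨F, ⟨F0, F1⟩, -⟩ := cov.existsUnique_continuousMap_lifts ⟨_, hF⟩ p (L₁ p) rfl
  have a1 := cov.eqOn_of_comp_eqOn isPreconnected_connectedComponentIn F.continuous.continuousOn
    (c1.mono (connectedComponentIn_subset _ _)) (fun x _ => congrFun F1 x)
    (mem_connectedComponentIn hpA) F0 h1
  have a2 := cov.eqOn_of_comp_eqOn isPreconnected_connectedComponentIn F.continuous.continuousOn
    (c2.mono (connectedComponentIn_subset _ _)) (fun x _ => (congrFun F1 x).trans (e12 x))
    (mem_connectedComponentIn hpB) (by rw [F0]; simp only [L₁, L₂, if_neg hp]) h2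
  rw [a1] at a2
  simp only [L₁, L₂, if_pos hq'] at a2
  linarith

theorem phragmen_brouwer_finite {𝒜 : Set (Set E)} (hf : 𝒜.Finite) (hc : ∀ A ∈ 𝒜, IsClosed A)
    (hd : 𝒜.Pairwise Disjoint) {p q : E} (h : ∀ A ∈ 𝒜, q ∈ connectedComponentIn Aᶜ p) :
    q ∈ connectedComponentIn (⋃₀ 𝒜)ᶜ p := by
  induction 𝒜, hf using Set.Finite.induction_on with
  | empty =>
    rw [sUnion_empty, compl_empty, isPreconnected_univ.connectedComponentIn (mem_univ p)]
    trivial
  | @insert A 𝒜 hA hf ih =>
    rw [sUnion_insert]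
    refine phragmen_brouwer (hc A (mem_insert _ _))
      (sUnion_eq_biUnion ▸ hf.isClosed_biUnion fun B hB => hc B (mem_insert_of_mem _ hB))
      (disjoint_sUnion_right.2 fun B hB => hd (mem_insert _ _) (mem_insert_of_mem _ hB)
        fun h' => hA (h' ▸ hB)) (h A (mem_insert _ _))
      (ih (fun B hB => hc B (mem_insert_of_mem _ hB)) (hd.mono (subset_insert _ _))
        fun B hB => h B (mem_insert_of_mem _ hB))

theorem isPreconnected_compl_closedBall (h : 1 < Module.rank ℝ E) (c : E) {ε : ℝ} (hε : 0 ≤ ε) :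
    IsPreconnected (closedBall c ε)ᶜ := by
  have : (closedBall c ε)ᶜ = (fun z : ℝ × E => c + z.1 • z.2) '' (Ioi ε ×ˢ sphere 0 1) := by
    ext x
    simp only [mem_compl_iff, mem_closedBall, not_le, dist_eq_norm]
    constructor
    · intro hx
      have h0 : 0 < ‖x - c‖ := hε.trans_lt hx
      refine ⟨(‖x - c‖, ‖x - c‖⁻¹ • (x - c)), ⟨hx, ?_⟩, ?_⟩
      · simp [norm_smul, h0.ne']
      · simp [smul_smul, h0.ne']
    · rintro ⟨⟨r, v⟩, ⟨h1, h2⟩, rfl⟩
      have h3 : ‖v‖ = 1 := by simpa using h2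
      have h4 : ε < r := h1
      simp only [add_sub_cancel_left, norm_smul, h3, mul_one]
      exact h4.trans_le (le_abs_self r)
  rw [this]
  exact (isPreconnected_Ioi.prod (isPreconnected_sphere h 0 1)).image _ (by fun_prop)

end PB

theorem exists_glue {M : Type*} [TopologicalSpace M] [T2Space M] (g : ℕ → M ≃ₜ M)
    (C : ℕ → Set M) (hC : ∀ k, IsClosed (C k)) (hd : Pairwise fun k l => Disjoint (C k) (C l))
    (hl : LocallyFinite C) (hg : ∀ k, ∀ p ∉ C k, g k p = p) :
    ∃ h : M ≃ₜ M, (∀ k, ∀ p ∈ C k, h p = g k p) ∧ ∀ p, (∀ k, p ∉ C k) → h p = p := by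
  classical
  have key : ∀ g : ℕ → M ≃ₜ M, (∀ k, ∀ p ∉ C k, g k p = p) → ∃ H : M → M, Continuous H ∧
      (∀ k, ∀ p ∈ C k, H p = g k p) ∧ ∀ p, (∀ k, p ∉ C k) → H p = p := by
    intro g hg
    let H : M → M := fun p => if h : ∃ k, p ∈ C k then g h.choose p else p
    have h1 : ∀ k, ∀ p ∈ C k, H p = g k p := fun k p hp => by
      have h : ∃ k, p ∈ C k := ⟨k, hp⟩
      have : h.choose = k := by
        by_contra hne
        exact disjoint_left.1 (hd hne) h.choose_spec hp
      simp only [H, dif_pos h, this]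
    have h2 : ∀ p, (∀ k, p ∉ C k) → H p = p := fun p hp => dif_neg fun ⟨k, hk⟩ => hp k hk
    refine ⟨H, ?_, h1, h2⟩
    refine (hl.option_elim' (closure (⋃ k, C k)ᶜ)).continuous ?_ ?_ ?_
    · refine eq_univ_of_forall fun p => ?_
      by_cases hp : p ∈ ⋃ k, C k
      · obtain ⟨k, hk⟩ := mem_iUnion.1 hp
        exact mem_iUnion.2 ⟨some k, hk⟩
      · exact mem_iUnion.2 ⟨none, subset_closure hp⟩
    · rintro (_ | k)
      exacts [isClosed_closure, hC k]
    · rintro (_ | k)
      · refine continuous_id.continuousOn.congr fun p hp => ?_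
        by_cases h : ∃ k, p ∈ C k
        · obtain ⟨k, hk⟩ := h
          rw [h1 k p hk]
          exact closure_minimal (s := (⋃ k, C k)ᶜ)
            (fun y hy => hg k y fun h => hy (mem_iUnion.2 ⟨k, h⟩))
            (isClosed_eq (g k).continuous continuous_id) hp
        · exact h2 p fun k hk => h ⟨k, hk⟩
      · exact (g k).continuous.continuousOn.congr (h1 k)
  have hg' : ∀ k, ∀ p ∉ C k, (g k).symm p = p := fun k p hp => by
    rw [Homeomorph.symm_apply_eq, hg k p hp]
  have hm : ∀ g : ℕ → M ≃ₜ M, (∀ k, ∀ p ∉ C k, g k p = p) → ∀ k, ∀ p ∈ C k, g k p ∈ C k :=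
    fun g hg k p hp => by
      by_contra hc
      exact hc (by rwa [(g k).injective (hg k _ hc)])
  obtain ⟨H, a, b, c⟩ := key g hg
  obtain ⟨H', a', b', c'⟩ := key (fun k => (g k).symm) hg'
  refine ⟨⟨⟨H, H', fun p => ?_, fun p => ?_⟩, a, a'⟩, b, c⟩
  · by_cases h : ∃ k, p ∈ C k
    · obtain ⟨k, hk⟩ := h
      rw [b k p hk, b' k _ (hm g hg k p hk), Homeomorph.symm_apply_apply]
    · push Not at h
      rw [c p h, c' p h]
  · by_cases h : ∃ k, p ∈ C k
    · obtain ⟨k, hk⟩ := h
      rw [b' k p hk, b k _ (hm _ hg' k p hk), Homeomorph.apply_symm_apply]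
    · push Not at h
      rw [c' p h, c p h]

variable {E E' M N : Type*} [NormedAddCommGroup E] [NormedSpace ℝ E] [ProperSpace E]
  [TopologicalSpace M] [T2Space M] [ChartedSpace E M] [TopologicalSpace N] [T2Space N]

include E in
theorem frequently_mem {φ : M → N} (hext : ∀ g : M ≃ₜ M, ∃ T : N ≃ₜ N, ∀ x, T (φ x) = φ (g x))
    (K : CompactExhaustion M) {u v : ℕ → M} (h : ∀ j, v j ∈ connectedComponentIn (K j)ᶜ (u j))
    {y : N} (hy : Tendsto (fun j => φ (u j)) atTop (𝓝 y)) {W : Set N} (hW : W ∈ 𝓝 y) :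
    ∃ᶠ j in atTop, φ (v j) ∈ W := by
  have := ChartedSpace.locallyConnectedSpace E M
  have hu : ∀ j, u j ∈ connectedComponentIn (K j)ᶜ (u j) := fun j =>
    mem_connectedComponentIn (connectedComponentIn_nonempty_iff.1 ⟨_, h j⟩)
  choose g C a b c d using fun j => exists_move (E := E)
    (K.isCompact j).isClosed.isOpen_compl.connectedComponentIn
    isPreconnected_connectedComponentIn (hu j) (h j)
  have hD : ∀ j, insert (u j) (C j) ⊆ (K j)ᶜ := fun j =>
    (insert_subset (hu j) (b j)).trans (connectedComponentIn_subset _ _)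
  have hnext : ∀ j, ∃ m, j < m ∧ insert (u j) (C j) ⊆ K m := fun j => by
    obtain ⟨m, hm⟩ := K.exists_superset_of_isCompact ((a j).insert (u j))
    exact ⟨max (j + 1) m, by omega, hm.trans (K.subset (le_max_right _ _))⟩
  choose nx h1 h2 using hnext
  let n : ℕ → ℕ := fun k => nx^[k] 0
  have hn : ∀ k, n (k + 1) = nx (n k) := fun k => Function.iterate_succ_apply' _ _ _
  have hmono : StrictMono n := strictMono_nat_of_lt_succ fun k => by rw [hn]; exact h1 _
  have hdisj : ∀ k l, k < l →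
      Disjoint (insert (u (n k)) (C (n k))) (insert (u (n l)) (C (n l))) := fun k l hkl =>
    disjoint_left.2 fun p hp hp' => hD _ hp' (K.subset (by
      rw [← hn]; exact hmono.monotone hkl) (h2 _ hp))
  obtain ⟨H, H1, H2⟩ := exists_glue (fun k => g (n (2 * k)))
    (fun k => insert (u (n (2 * k))) (C (n (2 * k)))) (fun k => ((a _).insert _).isClosed)
    (fun k l hkl => by
      rcases lt_or_gt_of_ne hkl with h | h
      · exact hdisj _ _ (by omega)
      · exact (hdisj _ _ (by omega)).symm)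
    (fun p => by
      obtain ⟨m, hm⟩ := K.exists_mem_nhds p
      refine ⟨K m, hm, (finite_lt_nat m).subset fun k ⟨x, hx, hx'⟩ => ?_⟩
      by_contra hc
      exact hD _ hx (K.subset (le_trans (show m ≤ 2 * k by
        simp only [mem_ofPred_eq] at hc; omega) (hmono.id_le (2 * k))) hx'))
    fun k p hp => c _ p fun h => hp (Or.inr h)
  obtain ⟨T, hT⟩ := hext H
  have e1 : StrictMono fun k => n (2 * k) := fun _ _ h => hmono (by omega)
  have e2 : StrictMono fun k => n (2 * k + 1) := fun _ _ h => hmono (by omega)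
  have hTy : T y = y := by
    refine tendsto_nhds_unique ((T.continuous.tendsto y).comp (hy.comp e2.tendsto_atTop))
      ((hy.comp e2.tendsto_atTop).congr fun k => ?_)
    simp only [Function.comp]
    rw [hT, H2 _ fun l hl => ?_]
    rcases lt_or_gt_of_ne (show 2 * k + 1 ≠ 2 * l by omega) with h | h
    · exact disjoint_left.1 (hdisj _ _ h) (mem_insert _ _) hl
    · exact disjoint_left.1 (hdisj _ _ h) hl (mem_insert _ _)
  have h3 := (T.continuous.tendsto y).comp (hy.comp e1.tendsto_atTop)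
  rw [hTy] at h3
  refine e1.tendsto_atTop.frequently ((h3.eventually hW).mono fun k hk => ?_).frequently
  simp only [Function.comp] at hk
  rwa [hT, H1 k _ (mem_insert _ _), d] at hk

include E in
theorem dense_range [NormedAddCommGroup E'] [NormedSpace ℝ E'] [ProperSpace E']
    (hE : 1 < Module.rank ℝ E') [ChartedSpace E' N] [PreconnectedSpace N]
    [SecondCountableTopology M] [Nonempty M] {φ : M → N} (hφ : IsOpenEmbedding φ)
    (hext : ∀ g : M ≃ₜ M, ∃ T : N ≃ₜ N, ∀ x, T (φ x) = φ (g x)) : closure (range φ) = univ := by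
  have := ChartedSpace.locallyConnectedSpace E M
  have := ChartedSpace.locallyCompactSpace E M
  by_contra hne
  obtain ⟨y, hy⟩ := nonempty_frontier_iff.2 ⟨(range_nonempty φ).closure, hne⟩
  obtain ⟨J, hJ, rfl⟩ := exists_isOpenEmbedding (E := E') y
  rw [frontier_eq_closure_inter_closure, closure_closure] at hy
  obtain ⟨_, ⟨a, rfl⟩, ha⟩ := mem_closure_iff.1 hy.1 _ hJ.isOpen_range ⟨0, rfl⟩
  obtain ⟨_, ⟨b, rfl⟩, hb⟩ := mem_closure_iff.1 hy.2 _ hJ.isOpen_range ⟨0, rfl⟩
  obtain ⟨ρ, hρ, hρ'⟩ := ((nhds_basis_closedBall (x := (0 : E'))).mem_iff (t :=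
    (fun z => J (a + z)) ⁻¹' range φ ∩ (fun z => J (b + z)) ⁻¹' (closure (range φ))ᶜ)).1
    (inter_mem ((hφ.isOpen_range.preimage (by fun_prop)).mem_nhds (by simpa using ha))
      ((isClosed_closure.isOpen_compl.preimage (by fun_prop)).mem_nhds (by simpa using hb)))
  have ra : ∀ c ∈ closedBall a ρ, J c ∈ range φ := fun c hc => by
    simpa using (hρ' (show c - a ∈ closedBall 0 ρ by simpa [dist_eq_norm] using hc)).1
  have rb : ∀ c ∈ closedBall b ρ, J c ∉ range φ := fun c hc h => by
    have := (hρ' (show c - b ∈ closedBall 0 ρ by simpa [dist_eq_norm] using hc)).2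
    exact this (by simpa using subset_closure h)
  let K := CompactExhaustion.choice M
  set R := max ‖a‖ ‖b‖ with hR
  obtain ⟨m₀, hm₀⟩ := K.exists_superset_of_isCompact (hφ.isInducing.isCompact_preimage'
    ((isCompact_closedBall a ρ).image hJ.continuous) (image_subset_iff.2 ra))
  obtain ⟨m, hm, hsmall⟩ : ∃ m ≥ m₀, ∀ u v c, v ∈ connectedComponentIn (K m)ᶜ u →
      c ∈ closedBall (0 : E') R → φ u = J c → φ v ∈ J '' closedBall c ρ := by
    by_contra hcon
    push Not at hcon
    choose u v c h1 h2 h3 h4 using fun j => hcon (j + m₀) (Nat.le_add_left _ _)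
    obtain ⟨c₀, -, s, hs, hlim⟩ := (isCompact_closedBall (0 : E') R).tendsto_subseq h2
    have h5 := frequently_mem (E := E) hext K (u := u ∘ s) (v := v ∘ s) (y := J c₀)
      (fun j => connectedComponentIn_mono _ (compl_subset_compl.2 (K.subset
        ((hs.id_le j).trans (Nat.le_add_right _ _)))) (h1 (s j)))
      (((hJ.continuous.tendsto c₀).comp hlim).congr fun j => (h3 (s j)).symm)
      (hJ.isOpenMap.image_mem_nhds (ball_mem_nhds c₀ (half_pos hρ)))
    obtain ⟨j, ⟨z, h6, h7⟩, h8⟩ :=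
      (h5.and_eventually (hlim.eventually (ball_mem_nhds c₀ (half_pos hρ)))).exists
    refine h4 (s j) ⟨z, ?_, h7⟩
    have := dist_triangle_right z (c (s j)) c₀
    have h9 : dist z c₀ < ρ / 2 := h6
    have h10 : dist (c (s j)) c₀ < ρ / 2 := h8
    rw [mem_closedBall]
    linarith
  have hKo : IsOpen (K m)ᶜ := (K.isCompact m).isClosed.isOpen_compl
  let F := K (m + 1) \ interior (K (m + 1))
  have hF : IsCompact F := (K.isCompact _).diff isOpen_interior
  have hFK : F ⊆ (K m)ᶜ := fun x hx h => hx.2 (K.subset_interior_succ m h)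
  obtain ⟨t, ht, htc⟩ := hF.elim_nhds_subcover (fun x => connectedComponentIn (K m)ᶜ x)
    fun x hx => hKo.connectedComponentIn.mem_nhds (mem_connectedComponentIn (hFK hx))
  let A : M → Set E' := fun x => J ⁻¹' (φ '' (F ∩ connectedComponentIn (K m)ᶜ x))
  have hnot : ∀ x c, c ∈ A x → a ∉ closedBall c ρ ∧ b ∉ closedBall c ρ := by
    rintro x c ⟨u, hu, hc⟩
    refine ⟨fun h => hFK hu.1 (K.subset hm (hm₀ ⟨c, mem_closedBall_comm.1 h, hc.symm⟩)),
      fun h => rb c (mem_closedBall_comm.1 h) ⟨u, hc⟩⟩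
  have hPB := phragmen_brouwer_finite (𝒜 := A '' t) (p := a) (q := b) (t.finite_toSet.image A)
    (by
      rintro _ ⟨x, -, rfl⟩
      have : F ∩ connectedComponentIn (K m)ᶜ x = F \ ((K m)ᶜ \ connectedComponentIn (K m)ᶜ x) := by
        ext z
        exact and_congr_right fun hz => ⟨fun h h' => h'.2 h, fun h => not_not.1 fun h' =>
          h ⟨hFK hz, h'⟩⟩
      simp only [A, this]
      exact ((hF.diff (isOpen_sdiff_component hKo x)).image hφ.continuous).isClosed.preimage
        hJ.continuous)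
    (by
      rintro _ ⟨x, -, rfl⟩ _ ⟨x', -, rfl⟩ hne
      refine disjoint_left.2 fun c ⟨u, hu, hc⟩ ⟨u', hu', hc'⟩ => hne ?_
      obtain rfl := hφ.injective (hc.trans hc'.symm)
      simp only [A, connectedComponentIn_eq hu.2, connectedComponentIn_eq hu'.2])
    (by
      rintro _ ⟨x, -, rfl⟩
      by_cases hx : ∃ c ∈ A x, c ∈ closedBall (0 : E') R
      · obtain ⟨c, hc, hc'⟩ := hx
        refine (isPreconnected_compl_closedBall hE c hρ.le).subset_connectedComponentIn
          (hnot x c hc).1 (compl_subset_compl.2 ?_) (hnot x c hc).2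
        obtain ⟨u, hu, hc⟩ := hc
        rintro z ⟨v, hv, hz⟩
        obtain ⟨z', h1, h2⟩ := hsmall u v c (connectedComponentIn_eq hu.2 ▸ hv.2) hc' hc
        exact hJ.injective (h2.trans hz) ▸ h1
      · exact (convex_closedBall (0 : E') R).isPreconnected.subset_connectedComponentIn
          (by simp [hR]) (fun c hc hc' => hx ⟨c, hc', hc⟩) (by simp [hR]))
  have hsub := IsPreconnected.subset_left_of_subset_union (s := connectedComponentIn (⋃₀ (A '' t))ᶜ a)
    (u := J ⁻¹' (φ '' interior (K (m + 1)))) (v := (J ⁻¹' (φ '' K (m + 1)))ᶜ)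
    ((hφ.isOpenMap _ isOpen_interior).preimage hJ.continuous)
    (((K.isCompact _).image hφ.continuous).isClosed.preimage hJ.continuous).isOpen_compl
    (disjoint_left.2 fun z ⟨u, hu, hz⟩ h => h ⟨u, interior_subset hu, hz⟩)
    (fun z hz => by
      by_cases h : z ∈ J ⁻¹' (φ '' K (m + 1))
      · obtain ⟨u, hu, hz'⟩ := h
        refine Or.inl ⟨u, not_not.1 fun h' => ?_, hz'⟩
        obtain ⟨x, hx, hx'⟩ := mem_iUnion₂.1 (htc ⟨hu, h'⟩)
        exact connectedComponentIn_subset _ _ hz ⟨A x, ⟨x, hx, rfl⟩, u, ⟨⟨hu, h'⟩, hx'⟩, hz'⟩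
      · exact Or.inr h)
    (by
      obtain ⟨u, hu⟩ := ha
      exact ⟨a, mem_connectedComponentIn (connectedComponentIn_nonempty_iff.1 ⟨b, hPB⟩), u,
        K.subset_interior_succ m (K.subset hm (hm₀ ⟨a, mem_closedBall_self hρ.le, hu.symm⟩)), hu⟩)
    isPreconnected_connectedComponentIn hPB
  obtain ⟨u, -, hu⟩ := hsub
  exact rb b (mem_closedBall_self hρ.le) ⟨u, hu⟩

end Pool.Agent.Lib.MP_b004e2_gt
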