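import Mathlib

/-!
Classification of connected one-dimensional manifolds, in the form needed here.
-/

set_option autoImplicit false

namespace Pool.Agent.Lib.MP_b004e2_gt

open Set Filter Topology Metric Function

/-- Spaces locally homeomorphic to the real line. -/
def Line1 (X : Type*) [TopologicalSpace X] : Prop :=
  ∀ x : X, ∃ J : ℝ → X, IsOpenEmbedding J ∧ J 0 = x

variable {X : Type*} [TopologicalSpace X]

theorem exists_inv {J : ℝ → X} (hJ : IsOpenEmbedding J) :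
    ∃ k : X → ℝ, ContinuousOn k (range J) ∧ (∀ t, k (J t) = t) ∧ ∀ y ∈ range J, J (k y) = y := by
  refine ⟨invFun J, ?_, leftInverse_invFun hJ.injective, fun y hy => invFun_eq hy⟩
  rw [← image_univ, hJ.isInducing.continuousOn_image_iff]
  exact continuousOn_id.congr fun t _ => leftInverse_invFun hJ.injective t

theorem isOpenEmbedding_neg {J : ℝ → X} (hJ : IsOpenEmbedding J) :
    IsOpenEmbedding fun t => J (-t) := hJ.comp (Homeomorph.neg ℝ).isOpenEmbedding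

omit [TopologicalSpace X] in
theorem range_neg (J : ℝ → X) : (range fun t => J (-t)) = range J :=
  neg_surjective.range_comp J

theorem Line1.isOpenEmbedding (h : Line1 X) {c : ℝ → X} (hc : Continuous c) (hi : Injective c) :
    IsOpenEmbedding c := by
  refine .of_continuous_injective_isOpenMap hc hi (isOpenMap_iff_nhds_le.2 fun x s hs => ?_)
  obtain ⟨J, hJ, hJx⟩ := h (c x)
  obtain ⟨k, k1, k2, k3⟩ := exists_inv hJ
  obtain ⟨ε, hε, hsub⟩ := nhds_basis_closedBall.mem_iff.1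
    (inter_mem (hc.continuousAt.preimage_mem_nhds (hJ.isOpen_range.mem_nhds ⟨0, hJx⟩))
      (show c ⁻¹' s ∈ 𝓝 x from hs))
  rw [Real.closedBall_eq_Icc] at hsub
  have c1 : ContinuousOn (k ∘ c) (Icc (x - ε) (x + ε)) :=
    k1.comp hc.continuousOn fun t ht => (hsub ht).1
  have i1 : InjOn (k ∘ c) (Icc (x - ε) (x + ε)) := fun a ha b hb hab => hi (by
    rw [← k3 _ (hsub ha).1, ← k3 _ (hsub hb).1]; exact congrArg J hab)
  have hl : x - ε ∈ Icc (x - ε) (x + ε) := ⟨le_rfl, by linarith⟩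
  have hr : x + ε ∈ Icc (x - ε) (x + ε) := ⟨by linarith, le_rfl⟩
  have hm : x ∈ Icc (x - ε) (x + ε) := ⟨by linarith, by linarith⟩
  have key : (k ∘ c) '' Icc (x - ε) (x + ε) ∈ 𝓝 (k (c x)) := by
    rcases c1.strictMonoOn_of_injOn_Icc' (by linarith) i1 with h1 | h1
    · exact mem_of_superset (Icc_mem_nhds (h1 hl hm (by linarith)) (h1 hm hr (by linarith)))
        (intermediate_value_Icc (by linarith) c1)
    · exact mem_of_superset (Icc_mem_nhds (h1 hm hr (by linarith)) (h1 hl hm (by linarith)))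
        (intermediate_value_Icc' (by linarith) c1)
  have := hJ.isOpenMap.image_mem_nhds key
  rw [k3 _ ⟨0, hJx⟩] at this
  refine mem_of_superset this ?_
  rintro _ ⟨_, ⟨t, ht, rfl⟩, rfl⟩
  rw [comp_apply, k3 _ (hsub ht).1]
  exact (hsub ht).2

theorem exists_reparam {t : ℝ → ℝ} (hc : Continuous t) (hm : StrictMono t) {n : ℝ} (hn : 0 ≤ n)
    (R : ℝ) : ∃ h : ℝ → ℝ, Continuous h ∧ Bijective h ∧ (∀ x ∈ Icc (-n) n, h x = t x) ∧
      Icc (-R) R ⊆ h '' Icc (-(n + 1)) (n + 1) := by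
  let L := |R| + |t n| + |t (-n)| + 1
  have hL : 0 < L := by positivity
  let cl : ℝ → ℝ := fun x => max (-n) (min x n)
  let h : ℝ → ℝ := fun x => t (cl x) + L * (x - cl x)
  have hh : Continuous h := by fun_prop
  have h1 : ∀ x, n ≤ x → h x = t n + L * (x - n) := fun x hx => by
    simp only [h, cl, min_eq_right hx, max_eq_right (show -n ≤ n by linarith)]
  have h2 : ∀ x, x ≤ -n → h x = t (-n) + L * (x + n) := fun x hx => by
    simp only [h, cl, max_eq_left ((min_le_left x n).trans hx), sub_neg_eq_add]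
  have hs : StrictMono h := by
    intro x y hxy
    have a1 : cl x ≤ cl y := max_le_max le_rfl (min_le_min hxy.le le_rfl)
    have a2 : x - cl x ≤ y - cl y := by
      simp only [cl]
      rcases le_total x n with b | b <;> rcases le_total y n with b' | b' <;>
        simp only [min_eq_left, min_eq_right, b, b'] <;>
        rcases le_total (-n) x with e | e <;> rcases le_total (-n) y with e' | e' <;>
        simp only [max_eq_left, max_eq_right, e, e', show -n ≤ n by linarith] <;> linarith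
    rcases a1.lt_or_eq with b | b
    · have := hm b
      simp only [h]
      nlinarith
    · simp only [h, b]
      nlinarith
  refine ⟨h, hh, ⟨hs.injective, hh.surjective ?_ ?_⟩, fun x hx => ?_, ?_⟩
  · refine (tendsto_atTop_add_const_left _ (t n) ((tendsto_atTop_add_const_right _ (-n)
      tendsto_id).const_mul_atTop hL)).congr' ?_
    filter_upwards [eventually_ge_atTop n] with x hx
    rw [h1 x hx]; rfl
  · refine (tendsto_atBot_add_const_left _ (t (-n)) ((tendsto_atBot_add_const_right _ n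
      tendsto_id).const_mul_atBot hL)).congr' ?_
    filter_upwards [eventually_le_atBot (-n)] with x hx
    rw [h2 x hx]; rfl
  · simp only [h, cl, min_eq_left hx.2, max_eq_right hx.1, sub_self, mul_zero, add_zero]
  · refine (Icc_subset_Icc ?_ ?_).trans (intermediate_value_Icc (by linarith) hh.continuousOn)
    · rw [h2 _ (by linarith)]
      have := le_abs_self R
      have := le_abs_self (t (-n))
      have := abs_nonneg (t n)
      simp only [L]
      linarith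
    · rw [h1 _ (by linarith)]
      have := le_abs_self R
      have := neg_abs_le (t n)
      have := abs_nonneg (t (-n))
      simp only [L]
      linarith

theorem exists_step {δ γ : ℝ → X} (hδ : IsOpenEmbedding δ) (hγ : IsOpenEmbedding γ)
    (hs : range δ ⊆ range γ) {n : ℝ} (hn : 0 ≤ n) {C : Set X} (hC : IsCompact C)
    (hCγ : C ⊆ range γ) : ∃ δ' : ℝ → X, IsOpenEmbedding δ' ∧ range δ' = range γ ∧
      (∀ x ∈ Icc (-n) n, δ' x = δ x) ∧ C ⊆ δ' '' Icc (-(n + 1)) (n + 1) := by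
  have key : ∀ γ : ℝ → X, IsOpenEmbedding γ → C ⊆ range γ → ∀ t : ℝ → ℝ, Continuous t →
      StrictMono t → (∀ x, γ (t x) = δ x) → ∃ δ' : ℝ → X, IsOpenEmbedding δ' ∧
      range δ' = range γ ∧ (∀ x ∈ Icc (-n) n, δ' x = δ x) ∧
      C ⊆ δ' '' Icc (-(n + 1)) (n + 1) := by
    intro γ hγ hCγ t h1 h2 h3
    obtain ⟨R, hR⟩ := (hγ.isInducing.isCompact_preimage' hC hCγ).isBounded.subset_closedBall 0
    obtain ⟨h, a, b, c, d⟩ := exists_reparam h1 h2 hn R
    refine ⟨γ ∘ h, hγ.comp (Line1.isOpenEmbedding (fun x => ⟨_, (Homeomorph.addRight x).isOpenEmbedding,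
      by simp⟩) a b.1), b.2.range_comp γ, fun x hx => by rw [comp_apply, c x hx, h3], fun y hy => ?_⟩
    obtain ⟨z, rfl⟩ := hCγ hy
    obtain ⟨w, e, rfl⟩ := d (by simpa [Real.closedBall_eq_Icc] using hR hy)
    exact ⟨w, e, rfl⟩
  obtain ⟨k, k1, k2, k3⟩ := exists_inv hγ
  have c1 : Continuous (k ∘ δ) := k1.comp_continuous hδ.continuous fun x => hs ⟨x, rfl⟩
  have e1 : ∀ x, γ (k (δ x)) = δ x := fun x => k3 _ (hs ⟨x, rfl⟩)
  rcases c1.strictMono_of_inj (fun a b hab => hδ.injective (by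
    rw [← e1 a, ← e1 b]; exact congrArg γ hab)) with h | h
  · exact key γ hγ hCγ _ c1 h e1
  · rw [← range_neg γ] at hCγ ⊢
    exact key _ (isOpenEmbedding_neg hγ) hCγ _ c1.neg h.neg fun x => by simpa using e1 x

theorem Line1.chain_bound [SecondCountableTopology X] (h : Line1 X) {𝒞 : Set (Set X)}
    (h1 : ∀ U ∈ 𝒞, ∃ γ : ℝ → X, IsOpenEmbedding γ ∧ range γ = U) (h2 : IsChain (· ⊆ ·) 𝒞)
    (h3 : 𝒞.Nonempty) : ∃ γ : ℝ → X, IsOpenEmbedding γ ∧ ∀ U ∈ 𝒞, U ⊆ range γ := by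
  obtain ⟨U₀, hU₀⟩ := h3
  have : Nonempty X := by
    obtain ⟨γ, -, -⟩ := h1 U₀ hU₀
    exact ⟨γ 0⟩
  choose! g hg hg' using h1
  obtain ⟨T, hT, hT'⟩ := TopologicalSpace.isOpen_iUnion_countable
    (fun i : 𝒞 × ℕ => g i.1 '' Ioo (-(i.2 : ℝ)) i.2)
    fun i => (hg _ i.1.2).isOpenMap _ isOpen_Ioo
  obtain ⟨e, he⟩ := (hT.insert (⟨U₀, hU₀⟩, 0)).exists_eq_range (insert_nonempty _ _)
  have hstep : ∀ (n : ℕ) (δ : {δ : ℝ → X // IsOpenEmbedding δ ∧ range δ ∈ 𝒞}),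
      ∃ δ' : {δ : ℝ → X // IsOpenEmbedding δ ∧ range δ ∈ 𝒞},
      (∀ x ∈ Icc (-(n : ℝ)) n, δ'.1 x = δ.1 x) ∧
      g (e n).1 '' Icc (-((e n).2 : ℝ)) (e n).2 ⊆ δ'.1 '' Icc (-((n : ℝ) + 1)) (n + 1) := by
    intro n δ
    have hC : IsCompact (g (e n).1 '' Icc (-((e n).2 : ℝ)) (e n).2) :=
      isCompact_Icc.image (hg _ (e n).1.2).continuous
    have hm : range (g (e n).1) ∈ 𝒞 := by rw [hg' _ (e n).1.2]; exact (e n).1.2
    rcases h2.total δ.2.2 hm with h4 | h4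
    · obtain ⟨δ', a, b, c, d⟩ := exists_step δ.2.1 (hg _ (e n).1.2) h4 (Nat.cast_nonneg n) hC
        (image_subset_range _ _)
      exact ⟨⟨δ', a, b ▸ hm⟩, c, d⟩
    · obtain ⟨δ', a, b, c, d⟩ := exists_step δ.2.1 δ.2.1 subset_rfl (Nat.cast_nonneg n) hC
        ((image_subset_range _ _).trans h4)
      exact ⟨⟨δ', a, b ▸ δ.2.2⟩, c, d⟩
  choose st hst hst' using hstep
  let δ : ℕ → {δ : ℝ → X // IsOpenEmbedding δ ∧ range δ ∈ 𝒞} := fun n =>
    Nat.rec ⟨g U₀, hg _ hU₀, by rw [hg' _ hU₀]; exact hU₀⟩ st n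
  have hagree : ∀ n m : ℕ, n ≤ m → ∀ x ∈ Icc (-(n : ℝ)) n, (δ m).1 x = (δ n).1 x := by
    intro n m hnm x hx
    induction hnm with
    | refl => rfl
    | @step m hm ih =>
      have : (n : ℝ) ≤ m := Nat.cast_le.2 hm
      rw [← ih]
      exact hst m (δ m) x ⟨by linarith [hx.1], by linarith [hx.2]⟩
  let γ : ℝ → X := fun x => (δ ⌈|x|⌉₊).1 x
  have hγ : ∀ (n : ℕ), ∀ x ∈ Icc (-(n : ℝ)) n, γ x = (δ n).1 x := fun n x hx =>
    (hagree _ _ (Nat.ceil_le.2 (abs_le.2 hx)) x (abs_le.1 (Nat.le_ceil _))).symm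
  refine ⟨γ, h.isOpenEmbedding ?_ fun a b hab => ?_, fun U hU y hy => ?_⟩
  · rw [continuous_iff_continuousAt]
    intro x
    obtain ⟨n, hn⟩ := exists_nat_gt |x|
    refine (δ n).2.1.continuous.continuousAt.congr ?_
    filter_upwards [Icc_mem_nhds (abs_lt.1 hn).1 (abs_lt.1 hn).2] with y hy using (hγ n y hy).symm
  · obtain ⟨n, hn⟩ := exists_nat_ge (max |a| |b|)
    rw [hγ n a (abs_le.1 ((le_max_left _ _).trans hn)),
      hγ n b (abs_le.1 ((le_max_right _ _).trans hn))] at hab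
    exact (δ n).2.1.injective hab
  · rw [← hg' U hU] at hy
    obtain ⟨x, rfl⟩ := hy
    obtain ⟨k, hk⟩ := exists_nat_gt |x|
    have : g U x ∈ ⋃ i ∈ T, g i.1 '' Ioo (-(i.2 : ℝ)) i.2 := by
      rw [hT']
      exact mem_iUnion.2 ⟨(⟨U, hU⟩, k), x, abs_lt.1 hk, rfl⟩
    obtain ⟨i, hi, hx⟩ := mem_iUnion₂.1 this
    obtain ⟨n, rfl⟩ : i ∈ range e := he ▸ mem_insert_of_mem _ hi
    obtain ⟨z, hz, hz'⟩ := hst' n (δ n) (image_mono Ioo_subset_Icc_self hx)
    exact ⟨z, (hγ (n + 1) z (by simpa using hz)).trans hz'⟩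

variable [T2Space X]

theorem exists_Ioo_subset {γ J : ℝ → X} (hγ : IsOpenEmbedding γ) (hJ : IsOpenEmbedding J)
    (h0 : J 0 ∉ range γ) (hc : ∀ ε > 0, ∃ s ∈ Ioo 0 ε, J s ∈ range γ) :
    ∃ d > 0, ∀ s ∈ Ioo 0 d, J s ∈ range γ := by
  have hcl : IsClosed {s | J s ∉ range γ} := (hγ.isOpen_range.preimage hJ.continuous).isClosed_compl
  obtain ⟨s₀, hs₀, h1⟩ := hc 1 one_pos
  obtain ⟨c, ⟨hc1, hc2⟩, hc3⟩ := (isCompact_Icc.inter_right hcl).exists_isGreatest
    (⟨0, ⟨le_rfl, hs₀.1.le⟩, h0⟩ : (Icc 0 s₀ ∩ {s | J s ∉ range γ}).Nonempty)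
  rcases hc1.1.lt_or_eq with hpos | rfl
  swap
  · exact ⟨s₀, hs₀.1, fun s hs => not_not.1 fun h => not_le.2 hs.1 (hc3 ⟨⟨hs.1.le, hs.2.le⟩, h⟩)⟩
  exfalso
  obtain ⟨s₁, hs₁, h2⟩ := hc c hpos
  obtain ⟨c', ⟨a1, a2⟩, a3⟩ := (isCompact_Icc.inter_right hcl).exists_isGreatest
    (⟨0, ⟨le_rfl, hs₁.1.le⟩, h0⟩ : (Icc 0 s₁ ∩ {s | J s ∉ range γ}).Nonempty)
  obtain ⟨d', ⟨b1, b2⟩, -⟩ := (isCompact_Icc.inter_right hcl).exists_isLeast
    (⟨c, ⟨hs₁.2.le, le_rfl⟩, hc2⟩ : (Icc s₁ c ∩ {s | J s ∉ range γ}).Nonempty)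
  have he : γ ⁻¹' (J '' Icc c' d') = γ ⁻¹' (J '' Ioo c' d') := by
    refine subset_antisymm ?_ (preimage_mono (image_mono Ioo_subset_Icc_self))
    rintro t ⟨s, hs, hs'⟩
    refine ⟨s, ⟨hs.1.lt_of_ne ?_, hs.2.lt_of_ne ?_⟩, hs'⟩
    · rintro rfl; exact a2 ⟨t, hs'.symm⟩
    · rintro rfl; exact b2 ⟨t, hs'.symm⟩
  have hclo : IsClopen (γ ⁻¹' (J '' Icc c' d')) :=
    ⟨(isCompact_Icc.image hJ.continuous).isClosed.preimage hγ.continuous,
      he ▸ (hJ.isOpenMap _ isOpen_Ioo).preimage hγ.continuous⟩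
  obtain ⟨t₁, ht₁⟩ := h2
  obtain ⟨t₀, ht₀⟩ := h1
  obtain ⟨s, hs, hs'⟩ : t₀ ∈ γ ⁻¹' (J '' Icc c' d') := by
    rw [hclo.eq_univ ⟨t₁, s₁, ⟨a1.2, b1.1⟩, ht₁.symm⟩]; trivial
  obtain rfl := hJ.injective (hs'.trans ht₀)
  obtain rfl := le_antisymm hc1.2 (hs.2.trans b1.2)
  exact hc2 ⟨t₀, ht₀⟩

/-- The positive end of `γ` runs into `J 0` along the positive side of `J`. -/
def Tail (γ J : ℝ → X) (d : ℝ) : Prop :=
  ∀ s ∈ Ioo 0 d, ∃ τ, γ τ = J s ∧ γ '' Ici τ = J '' Ioc 0 s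

theorem exists_tail {γ J : ℝ → X} (hγ : IsOpenEmbedding γ) (hJ : IsOpenEmbedding J)
    (h0 : J 0 ∉ range γ) {d : ℝ} (hd : 0 < d) (h : ∀ s ∈ Ioo 0 d, J s ∈ range γ) :
    Tail γ J d ∨ Tail (fun t => γ (-t)) J d := by
  have key : ∀ γ : ℝ → X, IsOpenEmbedding γ → J 0 ∉ range γ → ∀ t : ℝ → ℝ,
      ContinuousOn t (Ioo 0 d) → StrictAntiOn t (Ioo 0 d) → (∀ s ∈ Ioo 0 d, γ (t s) = J s) →
      Tail γ J d := by
    intro γ hγ h0 t h1 h2 h3 s hs
    have hsub : Ioc 0 s ⊆ Ioo 0 d := fun x hx => ⟨hx.1, hx.2.trans_lt hs.2⟩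
    refine ⟨t s, h3 s hs, subset_antisymm ?_ ?_⟩
    · rintro _ ⟨τ, hτ, rfl⟩
      obtain ⟨s', a, b⟩ : ∃ s' ∈ Ioc 0 s, τ ≤ t s' := by
        by_contra hc
        push Not at hc
        refine h0 (image_subset_range γ (Icc (t s) τ)
          ((isCompact_Icc.image hγ.continuous).isClosed.closure_subset ?_))
        refine closure_mono (s := J '' Ioc 0 s) ?_ (image_closure_subset_closure_image
          hJ.continuous ⟨0, by rw [closure_Ioc hs.1.ne]; exact ⟨le_rfl, hs.1.le⟩, rfl⟩)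
        rintro _ ⟨x, hx, rfl⟩
        exact ⟨t x, ⟨h2.antitoneOn (hsub hx) hs hx.2, (hc x hx).le⟩, h3 x (hsub hx)⟩
      obtain ⟨x, hx, rfl⟩ := intermediate_value_Icc' a.2
        (h1.mono fun x hx => hsub ⟨a.1.trans_le hx.1, hx.2⟩) ⟨hτ, b⟩
      exact ⟨x, ⟨a.1.trans_le hx.1, hx.2⟩, (h3 x (hsub ⟨a.1.trans_le hx.1, hx.2⟩)).symm⟩
    · rintro _ ⟨x, hx, rfl⟩
      exact ⟨t x, h2.antitoneOn (hsub hx) hs hx.2, h3 x (hsub hx)⟩
  obtain ⟨k, k1, k2, k3⟩ := exists_inv hγ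
  have c1 : ContinuousOn (k ∘ J) (Ioo 0 d) := k1.comp hJ.continuous.continuousOn h
  have e1 : ∀ s ∈ Ioo 0 d, γ (k (J s)) = J s := fun s hs => k3 _ (h s hs)
  rcases c1.strictMonoOn_of_injOn_Ioo hd (fun a ha b hb hab => hJ.injective (by
    rw [← e1 a ha, ← e1 b hb]; exact congrArg γ hab)) with h1 | h1
  · exact Or.inr (key _ (isOpenEmbedding_neg hγ) (by rwa [range_neg]) _ c1.neg h1.neg
      fun s hs => by simpa using e1 s hs)
  · exact Or.inl (key γ hγ h0 _ c1 h1 e1)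

omit [T2Space X] in
theorem Line1.extend (h : Line1 X) {γ J : ℝ → X} (hγ : IsOpenEmbedding γ) (hJ : IsOpenEmbedding J)
    {d ε : ℝ} (hd : 0 < d) (hε : 0 < ε) (ht : Tail γ J d)
    (hn : ∀ s ∈ Ioc (-ε) 0, J s ∉ range γ) :
    ∃ c : ℝ → X, IsOpenEmbedding c ∧ range γ ⊆ range c ∧ J 0 ∈ range c := by
  obtain ⟨τ, h1, h2⟩ := ht (d / 2) ⟨half_pos hd, half_lt_self hd⟩
  set s := d / 2 with hs
  have hs0 : 0 < s := half_pos hd
  let u : ℝ → ℝ := fun x => -ε + (s + ε) * Real.exp (τ - x)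
  have hu : StrictAnti u := fun x y hxy => by
    have : Real.exp (τ - y) < Real.exp (τ - x) := Real.exp_lt_exp.2 (by linarith)
    simp only [u]
    nlinarith
  have huτ : u τ = s := by simp [u]
  have hul : ∀ x, -ε < u x := fun x => by
    have := Real.exp_pos (τ - x)
    simp only [u]
    nlinarith
  let c : ℝ → X := fun x => if x ≤ τ then γ x else J (u x)
  have hc : Continuous c := Continuous.if_le hγ.continuous (hJ.continuous.comp (by fun_prop))
    continuous_id continuous_const fun x hx => by rw [hx, huτ, h1]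
  have hcJ : ∀ x, τ ≤ x → c x = J (u x) := fun x hx => by
    rcases hx.lt_or_eq with h3 | rfl
    · exact if_neg (not_le.2 h3)
    · rw [huτ, ← h1]; exact if_pos le_rfl
  have hmix : ∀ x y, x ≤ τ → τ < y → γ x ≠ J (u y) := fun x y hx hy he => by
    have h3 : u y < s := huτ ▸ hu hy
    rcases le_or_gt (u y) 0 with h4 | h4
    · exact hn _ ⟨hul y, h4⟩ ⟨x, he⟩
    · obtain ⟨z, hz, hz'⟩ : J (u y) ∈ γ '' Ici τ := h2 ▸ ⟨u y, ⟨h4, h3.le⟩, rfl⟩
      obtain rfl := hγ.injective (hz'.trans he.symm)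
      obtain rfl := le_antisymm hx hz
      exact h3.ne' (hJ.injective (h1.symm.trans he))
  have hsurj : ∀ a ∈ Icc 0 s, J a ∈ range c := fun a ha => by
    have h3 : 0 < (a + ε) / (s + ε) := div_pos (by linarith [ha.1]) (by linarith)
    have h4 : Real.log ((a + ε) / (s + ε)) ≤ 0 :=
      Real.log_nonpos h3.le ((div_le_one (by linarith)).2 (by linarith [ha.2]))
    refine ⟨τ - Real.log ((a + ε) / (s + ε)), ?_⟩
    rw [hcJ _ (by linarith)]
    simp only [u, sub_sub_cancel, Real.exp_log h3]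
    rw [mul_div_cancel₀ _ (by linarith)]
    simp
  refine ⟨c, h.isOpenEmbedding hc fun x y hxy => ?_, ?_, hsurj 0 ⟨le_rfl, hs0.le⟩⟩
  · simp only [c] at hxy
    split_ifs at hxy with a b b
    · exact hγ.injective hxy
    · exact absurd hxy (hmix x y a (not_le.1 b))
    · exact absurd hxy.symm (hmix y x b (not_le.1 a))
    · exact hu.injective (hJ.injective hxy)
  · rintro _ ⟨x, rfl⟩
    by_cases hx : x ≤ τ
    · exact ⟨x, if_pos hx⟩
    · obtain ⟨a, ha, ha'⟩ : γ x ∈ J '' Ioc 0 s := h2 ▸ ⟨x, (not_le.1 hx).le, rfl⟩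
      exact ha' ▸ hsurj a ⟨ha.1.le, ha.2⟩

omit [T2Space X] in
theorem Tail.mem_closure {γ J : ℝ → X} (hγ : Injective γ) (hJ : Continuous J) {d : ℝ} (hd : 0 < d)
    (ht : Tail γ J d) (t : ℝ) : J 0 ∈ closure (γ '' Ioi t) := by
  obtain ⟨τ, -, h2⟩ := ht (d / 2) ⟨half_pos hd, half_lt_self hd⟩
  obtain ⟨s, hs, hs'⟩ : γ (max τ (t + 1)) ∈ J '' Ioc 0 (d / 2) := h2 ▸ ⟨_, mem_Ici.2 (le_max_left _ _), rfl⟩
  obtain ⟨τ', h3, h4⟩ := ht s ⟨hs.1, hs.2.trans_lt (half_lt_self hd)⟩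
  obtain rfl := hγ (h3.trans hs')
  refine closure_mono (s := J '' Ioc 0 s) ?_ (image_closure_subset_closure_image
    hJ ⟨0, by rw [closure_Ioc hs.1.ne]; exact ⟨le_rfl, hs.1.le⟩, rfl⟩)
  rw [← h4]
  exact image_mono fun x hx => lt_of_lt_of_le (lt_add_one t) ((le_max_right _ _).trans hx)

theorem circle_like [PreconnectedSpace X] {γ J : ℝ → X} (hγ : IsOpenEmbedding γ)
    (hJ : IsOpenEmbedding J) (h0 : J 0 ∉ range γ) {d d' : ℝ} (hd : 0 < d) (hd' : 0 < d')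
    (ht : Tail γ J d) (ht' : Tail (fun t => γ (-t)) (fun t => J (-t)) d') :
    CompactSpace X ∧ ∀ p : X, IsPreconnected ({p}ᶜ : Set X) := by
  obtain ⟨τ, -, h2⟩ := ht (d / 2) ⟨half_pos hd, half_lt_self hd⟩
  obtain ⟨τ', -, h2'⟩ := ht' (d' / 2) ⟨half_pos hd', half_lt_self hd'⟩
  have hJs : J '' Icc (-(d' / 2)) (d / 2) ⊆ insert (J 0) (range γ) := by
    rintro _ ⟨s, hs, rfl⟩
    rcases lt_trichotomy s 0 with h | rfl | h
    · obtain ⟨z, -, hz⟩ : J s ∈ (fun t => γ (-t)) '' Ici τ' :=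
        h2' ▸ ⟨-s, ⟨by linarith, by linarith [hs.1]⟩, by simp⟩
      exact Or.inr ⟨_, hz⟩
    · exact Or.inl rfl
    · exact Or.inr (image_subset_range _ _
        (show J s ∈ γ '' Ici τ from h2 ▸ ⟨s, ⟨h, hs.2⟩, rfl⟩))
  have hcomp : IsCompact (insert (J 0) (range γ)) := by
    have : insert (J 0) (range γ) = γ '' Icc (-τ') τ ∪ J '' Icc (-(d' / 2)) (d / 2) := by
      refine subset_antisymm ?_ (union_subset ((image_subset_range _ _).trans
        (subset_insert _ _)) hJs)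
      rintro _ (rfl | ⟨x, rfl⟩)
      · exact Or.inr ⟨0, ⟨by linarith, by linarith⟩, rfl⟩
      · rcases le_total τ x with h | h
        · obtain ⟨s, hs, hs'⟩ : γ x ∈ J '' Ioc 0 (d / 2) := h2 ▸ ⟨x, h, rfl⟩
          exact Or.inr ⟨s, ⟨by linarith [hs.1], hs.2⟩, hs'⟩
        · rcases le_total x (-τ') with h' | h'
          · obtain ⟨s, hs, hs'⟩ : γ x ∈ (fun t => J (-t)) '' Ioc 0 (d' / 2) :=
              h2' ▸ ⟨-x, show τ' ≤ -x by linarith, by simp⟩
            exact Or.inr ⟨-s, ⟨by linarith [hs.2], by linarith [hs.1]⟩, hs'⟩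
          · exact Or.inl ⟨x, ⟨h', h⟩, rfl⟩
    rw [this]
    exact (isCompact_Icc.image hγ.continuous).union (isCompact_Icc.image hJ.continuous)
  have hopen : IsOpen (insert (J 0) (range γ)) := by
    have : insert (J 0) (range γ) = range γ ∪ J '' Ioo (-(d' / 2)) (d / 2) := by
      refine subset_antisymm ?_ (union_subset (subset_insert _ _)
        ((image_mono Ioo_subset_Icc_self).trans hJs))
      rintro _ (rfl | h)
      · exact Or.inr ⟨0, ⟨by linarith, by linarith⟩, rfl⟩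
      · exact Or.inl h
    rw [this]
    exact hγ.isOpen_range.union (hJ.isOpenMap _ isOpen_Ioo)
  have huniv : insert (J 0) (range γ) = univ :=
    IsClopen.eq_univ ⟨hcomp.isClosed, hopen⟩ (insert_nonempty _ _)
  refine ⟨⟨huniv ▸ hcomp⟩, fun p => ?_⟩
  rcases (huniv ▸ mem_univ p : p ∈ insert (J 0) (range γ)) with rfl | ⟨t, rfl⟩
  · have : ({J 0}ᶜ : Set X) = range γ := by
      ext y
      refine ⟨fun hy => (huniv ▸ mem_univ y : y ∈ insert (J 0) (range γ)).resolve_left hy,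
        fun hy h => h0 (mem_singleton_iff.1 h ▸ hy)⟩
    rw [this]
    exact isPreconnected_range hγ.continuous
  · have : ({γ t}ᶜ : Set X) = insert (J 0) (γ '' Ioi t) ∪
        insert (J 0) ((fun t => γ (-t)) '' Ioi (-t)) := by
      ext y
      constructor
      · intro hy
        rcases (huniv ▸ mem_univ y : y ∈ insert (J 0) (range γ)) with rfl | ⟨x, rfl⟩
        · exact Or.inl (Or.inl rfl)
        · rcases lt_trichotomy x t with h | rfl | h
          · exact Or.inr (Or.inr ⟨-x, show -t < -x by linarith, by simp⟩)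
          · exact absurd rfl hy
          · exact Or.inl (Or.inr ⟨x, h, rfl⟩)
      · rintro ((rfl | ⟨x, hx, rfl⟩) | (rfl | ⟨x, hx, rfl⟩))
        · exact fun h => h0 ⟨t, (mem_singleton_iff.1 h).symm⟩
        · exact fun h => (show t < x from hx).ne' (hγ.injective h)
        · exact fun h => h0 ⟨t, (mem_singleton_iff.1 h).symm⟩
        · intro h
          have h3 := hγ.injective h
          have h4 : -t < x := hx
          linarith
    rw [this]
    refine IsPreconnected.union (J 0) (mem_insert _ _) (mem_insert _ _) ?_ ?_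
    · exact (isPreconnected_Ioi.image _ hγ.continuous.continuousOn).subset_closure
        (subset_insert _ _) (insert_subset (ht.mem_closure hγ.injective hJ.continuous hd t)
          subset_closure)
    · refine (isPreconnected_Ioi.image _
        (isOpenEmbedding_neg hγ).continuous.continuousOn).subset_closure
        (subset_insert _ _) (insert_subset ?_ subset_closure)
      simpa using ht'.mem_closure (isOpenEmbedding_neg hγ).injective
        (isOpenEmbedding_neg hJ).continuous hd' (-t)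

theorem Line1.classify [SecondCountableTopology X] [ConnectedSpace X] (h : Line1 X) :
    Nonempty (ℝ ≃ₜ X) ∨ (CompactSpace X ∧ ∀ p : X, IsPreconnected ({p}ᶜ : Set X)) := by
  obtain ⟨x₀⟩ : Nonempty X := inferInstance
  obtain ⟨J₀, hJ₀, -⟩ := h x₀
  obtain ⟨_, -, ⟨γ, hγ, rfl⟩, hmax⟩ := zorn_subset_nonempty
    {U | ∃ γ : ℝ → X, IsOpenEmbedding γ ∧ range γ = U} (fun 𝒞 h1 h2 h3 => by
      obtain ⟨γ, a, b⟩ := h.chain_bound h1 h2 h3
      exact ⟨_, ⟨γ, a, rfl⟩, b⟩) _ ⟨J₀, hJ₀, rfl⟩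
  by_cases hu : range γ = univ
  · exact Or.inl ⟨hγ.isEmbedding.toHomeomorphOfSurjective (range_eq_univ.1 hu)⟩
  right
  obtain ⟨b, hb⟩ := nonempty_frontier_iff.2 ⟨range_nonempty γ, hu⟩
  rw [hγ.isOpen_range.frontier_eq] at hb
  have key2 : ∀ γ' J : ℝ → X, IsOpenEmbedding γ' → range γ' = range γ → IsOpenEmbedding J →
      J 0 = b → ∀ d > 0, Tail γ' J d →
      CompactSpace X ∧ ∀ p : X, IsPreconnected ({p}ᶜ : Set X) := by
    rintro γ' J hγ' hr hJ rfl d hd ht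
    have h0 : J 0 ∉ range γ' := hr ▸ hb.2
    have h0' : J (-0) ∉ range γ' := by rwa [neg_zero]
    by_cases hc : ∀ ε > 0, ∃ s ∈ Ioo 0 ε, J (-s) ∈ range γ'
    · obtain ⟨d', hd', h1⟩ := exists_Ioo_subset hγ' (isOpenEmbedding_neg hJ) h0' hc
      rcases exists_tail hγ' (isOpenEmbedding_neg hJ) h0' hd' h1 with h2 | h2
      · exfalso
        obtain ⟨τ, -, a⟩ := ht (d / 2) ⟨half_pos hd, half_lt_self hd⟩
        obtain ⟨τ', -, a'⟩ := h2 (d' / 2) ⟨half_pos hd', half_lt_self hd'⟩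
        obtain ⟨s, hs, e⟩ : γ' (max τ τ') ∈ J '' Ioc 0 (d / 2) := a ▸ ⟨_, mem_Ici.2 (le_max_left _ _), rfl⟩
        obtain ⟨s', hs', e'⟩ : γ' (max τ τ') ∈ (fun t => J (-t)) '' Ioc 0 (d' / 2) :=
          a' ▸ ⟨_, mem_Ici.2 (le_max_right _ _), rfl⟩
        have := hJ.injective (e.trans e'.symm)
        linarith [hs.1, hs'.1]
      · exact circle_like hγ' hJ h0 hd hd' ht h2
    · push Not at hc
      obtain ⟨ε, hε, hc⟩ := hc
      obtain ⟨c, a1, a2, a3⟩ := h.extend hγ' hJ hd hε ht fun s hs => by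
        rcases hs.2.lt_or_eq with h1 | rfl
        · simpa using hc (-s) ⟨by linarith, by linarith [hs.1]⟩
        · exact h0
      exact absurd (hmax ⟨c, a1, rfl⟩ (hr ▸ a2) a3) hb.2
  have key : ∀ J : ℝ → X, IsOpenEmbedding J → J 0 = b →
      (∀ ε > 0, ∃ s ∈ Ioo 0 ε, J s ∈ range γ) →
      CompactSpace X ∧ ∀ p : X, IsPreconnected ({p}ᶜ : Set X) := by
    intro J hJ hJb hc
    have h0 : J 0 ∉ range γ := hJb ▸ hb.2
    obtain ⟨d, hd, h1⟩ := exists_Ioo_subset hγ hJ h0 hc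
    rcases exists_tail hγ hJ h0 hd h1 with h2 | h2
    · exact key2 γ J hγ rfl hJ hJb d hd h2
    · exact key2 _ J (isOpenEmbedding_neg hγ) (range_neg γ) hJ hJb d hd h2
  obtain ⟨J, hJ, hJb⟩ := h b
  by_cases hc : ∀ ε > 0, ∃ s ∈ Ioo 0 ε, J s ∈ range γ
  · exact key J hJ hJb hc
  · push Not at hc
    obtain ⟨ε₀, hε₀, hc⟩ := hc
    refine key _ (isOpenEmbedding_neg hJ) (by rwa [neg_zero]) fun ε hε => ?_
    obtain ⟨_, ⟨s, hs, rfl⟩, hs'⟩ := mem_closure_iff.1 hb.1 (J '' Ioo (-ε) ε₀)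
      (hJ.isOpenMap _ isOpen_Ioo) ⟨0, ⟨by linarith, hε₀⟩, hJb⟩
    rcases lt_trichotomy s 0 with h1 | rfl | h1
    · exact ⟨-s, ⟨by linarith, by linarith [hs.1]⟩, by simpa using hs'⟩
    · exact absurd (hJb ▸ hs') hb.2
    · exact absurd hs' (hc s ⟨h1, hs.2⟩)

end Pool.Agent.Lib.MP_b004e2_gt
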