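import Mathlib
import Pool.Agent.Lib.MP_b004e2_gt.Defs
import Pool.Agent.Lib.MP_b004e2_gt.Ends
import Pool.Agent.Lib.MP_b004e2_gt.OneMfd

/-!
The line and the circle: the group of the cosine is not the group of a function on a circle.
-/

set_option autoImplicit false

namespace Pool.Agent.Lib.MP_b004e2_gt

open Set Filter Topology Metric Function

theorem not_lt_of_invariant {α : Type*} [ConditionallyCompleteLinearOrder α] [TopologicalSpace α]
    [OrderTopology α] {σ : α → α} (hσ : Monotone σ) {g : α → ℝ} (hg : Continuous g)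
    (hi : ∀ x, g (σ x) = g x) (hn : ∀ a b, a < b → ∃ y ∈ Icc a b, ∃ z ∈ Icc a b, g y ≠ g z) (x : α)
    (h : (∃ c, c ≤ x ∧ c ≤ σ c) ∨ ∃ L, Tendsto g atBot (𝓝 L)) : ¬ σ x < x := by
  intro hx
  have ha : Antitone fun n => σ^[n] x := antitone_nat_of_succ_le fun n => by
    rw [iterate_succ_apply]
    exact hσ.iterate n hx.le
  have hit : ∀ n y, g (σ^[n] y) = g y := fun n y => by
    induction n with
    | zero => rfl
    | succ n ih => rw [iterate_succ_apply', hi, ih]
  have key : ∃ L, ∀ y ∈ Icc (σ x) x, Tendsto (fun n => g (σ^[n] y)) atTop (𝓝 L) := by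
    by_cases hb : BddBelow (range fun n => σ^[n] x)
    · have h1 := tendsto_atTop_ciInf ha hb
      refine ⟨_, fun y hy => (hg.tendsto _).comp (tendsto_of_tendsto_of_tendsto_of_le_of_le
        ((tendsto_add_atTop_iff_nat 1).2 h1) h1 (fun n => ?_) fun n => hσ.iterate n hy.2)⟩
      rw [iterate_succ_apply]
      exact hσ.iterate n hy.1
    · rcases h with ⟨c, h1, h2⟩ | ⟨L, hL⟩
      · refine absurd ⟨c, ?_⟩ hb
        rintro _ ⟨n, rfl⟩
        induction n with
        | zero => exact h1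
        | succ n ih =>
          simp only [iterate_succ_apply'] at ih ⊢
          exact h2.trans (hσ ih)
      · exact ⟨L, fun y hy => hL.comp (tendsto_atBot_mono (fun n => hσ.iterate n hy.2)
          (tendsto_atTop_atBot_of_antitone ha fun b => by
            obtain ⟨_, ⟨n, rfl⟩, h⟩ := not_bddBelow_iff.1 hb b
            exact ⟨n, h.le⟩))⟩
  obtain ⟨L, hL⟩ := key
  obtain ⟨y, hy, z, hz, hyz⟩ := hn _ _ hx
  have h1 := hL y hy
  have h2 := hL z hz
  simp only [hit] at h1 h2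
  exact hyz ((tendsto_const_nhds_iff.1 h1).trans (tendsto_const_nhds_iff.1 h2).symm)

theorem not_gt_of_invariant {α : Type*} [ConditionallyCompleteLinearOrder α] [TopologicalSpace α]
    [OrderTopology α] {σ : α → α} (hσ : Monotone σ) {g : α → ℝ} (hg : Continuous g)
    (hi : ∀ x, g (σ x) = g x) (hn : ∀ a b, a < b → ∃ y ∈ Icc a b, ∃ z ∈ Icc a b, g y ≠ g z) (x : α)
    (h : (∃ c, x ≤ c ∧ σ c ≤ c) ∨ ∃ L, Tendsto g atTop (𝓝 L)) : ¬ x < σ x :=
  not_lt_of_invariant (α := αᵒᵈ) (σ := σ) hσ.dual (g := g) hg hi (fun a b h => by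
    obtain ⟨y, hy, z, hz, h⟩ := hn b a h
    exact ⟨y, ⟨hy.2, hy.1⟩, z, ⟨hz.2, hz.1⟩, h⟩) x h

theorem monotone_sq {σ : ℝ → ℝ} (hc : Continuous σ) (hi : Injective σ) :
    Monotone fun x => σ (σ x) := by
  rcases hc.strictMono_of_inj hi with h | h
  · exact (h.comp h).monotone
  · exact (h.comp h).monotone

theorem countable_cos_fiber (c : ℝ) : {x | Real.cos x = Real.cos c}.Countable := by
  refine ((countable_range fun k : ℤ => 2 * k * Real.pi + c).union
    (countable_range fun k : ℤ => 2 * k * Real.pi - c)).mono fun x hx => ?_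
  obtain ⟨k, h | h⟩ := Real.cos_eq_cos_iff.1 (show Real.cos c = Real.cos x from hx.symm)
  · exact Or.inl ⟨k, h.symm⟩
  · exact Or.inr ⟨k, h.symm⟩

theorem cos_nonconst (a b : ℝ) (h : a < b) :
    ∃ y ∈ Icc a b, ∃ z ∈ Icc a b, Real.cos y ≠ Real.cos z := by
  by_contra hc
  push Not at hc
  have := ((countable_cos_fiber a).mono fun y (hy : y ∈ Icc a b) =>
    hc y hy a ⟨le_rfl, h.le⟩).measure_zero MeasureTheory.volume
  rw [Real.volume_Icc, ENNReal.ofReal_eq_zero] at this
  linarith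

theorem cos_sq_not_injective (a : ℝ → levelGroup Real.cos) : ¬ Injective fun t => a t * a t := by
  intro hi
  have hm : ∀ t, Monotone ((a t * a t).1 : ℝ → ℝ) := fun t =>
    monotone_sq (a t).1.continuous (a t).1.injective
  have hm' : ∀ t, Monotone ((a t * a t)⁻¹.1 : ℝ → ℝ) := fun t =>
    monotone_sq (a t).1.symm.continuous (a t).1.symm.injective
  have key : ∀ S : levelGroup Real.cos, Monotone (S.1 : ℝ → ℝ) → S.1 0 = 0 → ∀ x,
      (0 ≤ x → x ≤ S.1 x) ∧ (x ≤ 0 → S.1 x ≤ x) := fun S h1 h2 x =>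
    ⟨fun hx => not_lt.1 (not_lt_of_invariant h1 Real.continuous_cos S.2 cos_nonconst x
      (Or.inl ⟨0, hx, h2.ge⟩)), fun hx => not_lt.1 (not_gt_of_invariant h1 Real.continuous_cos S.2
      cos_nonconst x (Or.inl ⟨0, hx, h2.le⟩))⟩
  refine not_countable_univ (α := ℝ) ((countable_cos_fiber 0).preimage_of_injOn
    (f := fun t => (a t * a t).1 0) (fun s _ t _ hst => hi ?_) |>.mono fun t _ => (a t * a t).2 0)
  have aux : ∀ s t, (a s * a s).1 0 = (a t * a t).1 0 → ∀ x,
      (0 ≤ x → (a t * a t).1 x ≤ (a s * a s).1 x) ∧ (x ≤ 0 → (a s * a s).1 x ≤ (a t * a t).1 x) := by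
    intro s t h x
    obtain ⟨h1, h2⟩ := key ((a t * a t)⁻¹ * (a s * a s)) ((hm' t).comp (hm s))
      (show (a t * a t).1.symm ((a s * a s).1 0) = 0 by rw [h, Homeomorph.symm_apply_apply]) x
    have e : (a t * a t).1 (((a t * a t)⁻¹ * (a s * a s)).1 x) = (a s * a s).1 x :=
      (a t * a t).1.apply_symm_apply _
    exact ⟨fun hx => e ▸ hm t (h1 hx), fun hx => e ▸ hm t (h2 hx)⟩
  refine Subtype.ext (Homeomorph.ext fun x => ?_)
  rcases le_total 0 x with hx | hx
  · exact le_antisymm ((aux t s hst.symm x).1 hx) ((aux s t hst x).1 hx)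
  · exact le_antisymm ((aux s t hst x).2 hx) ((aux t s hst.symm x).2 hx)

theorem cos_exists_infinite : ∃ g : levelGroup Real.cos, ¬ IsOfFinOrder g := by
  let g : levelGroup Real.cos := ⟨Homeomorph.addRight (2 * Real.pi), Real.cos_add_two_pi⟩
  have hg : ∀ n : ℕ, (g ^ n).1 0 = n * (2 * Real.pi) := fun n => by
    induction n with
    | zero => simp
    | succ n ih =>
      rw [pow_succ']
      show (g ^ n).1 0 + 2 * Real.pi = _
      rw [ih]
      push_cast
      ring
  refine ⟨g, fun h => ?_⟩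
  obtain ⟨n, hn, h⟩ := isOfFinOrder_iff_pow_eq_one.1 h
  have h1 := hg n
  rw [h] at h1
  have h2 : (0 : ℝ) < n * (2 * Real.pi) := by have := Real.pi_pos; positivity
  exact h2.ne h1

theorem exists_sq_injective {E N : Type} [NormedAddCommGroup E] [NormedSpace ℝ E] [ProperSpace E]
    [Nontrivial E] [TopologicalSpace N] [T2Space N] [ChartedSpace E N] {f : N → ℝ} {y : N}
    (hy : ∀ᶠ z in 𝓝 y, f z = f y) : ∃ a : ℝ → levelGroup f, Injective fun t => a t * a t := by
  obtain ⟨U, h1, h2, h3⟩ := _root_.mem_nhds_iff.1 hy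
  obtain ⟨j, j1, -, j3⟩ := exists_chart (E := E) y h2 h3
  obtain ⟨v, hv⟩ := exists_ne (0 : E)
  obtain ⟨ψ, p1, p2⟩ := exists_flow_chart j j1 v
  refine ⟨fun t => ⟨ψ.toHomeomorph t, fun p => ?_⟩, fun s t hst => ?_⟩
  · by_cases hp : p ∈ j '' closedBall 0 1
    · exact (h1 (j3 (flow_mem ψ p1 t hp))).trans (h1 (j3 hp)).symm
    · exact congrArg f (p1 t p hp)
  · have e : ψ s (ψ s (j (dn 0))) = ψ t (ψ t (j (dn 0))) :=
      congrArg (fun T : levelGroup f => T.1 (j (dn 0))) hst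
    rw [p2, p2, p2, p2] at e
    have e2 := congrArg up (j.injOn (j1 (mem_closedBall_zero_iff.2 (norm_dn_lt _).le))
      (j1 (mem_closedBall_zero_iff.2 (norm_dn_lt _).le)) e)
    rw [up_dn, up_dn, zero_add, zero_add, ← add_smul, ← add_smul] at e2
    have := smul_left_injective ℝ hv e2
    linarith

variable {X : Type*} [TopologicalSpace X]

theorem Line1.exists_range [T2Space X] [SecondCountableTopology X] [PreconnectedSpace X]
    (h : Line1 X) {U : Set X} (hU : IsOpen U) (hc : IsConnected U) (hn : U ≠ univ) :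
    ∃ γ : ℝ → X, IsOpenEmbedding γ ∧ range γ = U := by
  have := isConnected_iff_connectedSpace.1 hc
  have hL : Line1 U := by
    rintro ⟨x, hx⟩
    obtain ⟨J, hJ, rfl⟩ := h x
    obtain ⟨ε, hε, h1⟩ := Metric.mem_nhds_iff.1
      (hJ.continuous.continuousAt.preimage_mem_nhds (hU.mem_nhds hx))
    let e := OpenPartialHomeomorph.univBall (0 : ℝ) ε
    have he : IsOpenEmbedding e := e.isOpenEmbedding (OpenPartialHomeomorph.univBall_source _ _)
    have hm : ∀ t, J (e t) ∈ U := fun t => h1 (by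
      rw [← OpenPartialHomeomorph.univBall_target (0 : ℝ) hε]
      exact e.map_source (by rw [OpenPartialHomeomorph.univBall_source]; trivial))
    refine ⟨fun t => ⟨J (e t), hm t⟩, IsOpenEmbedding.of_comp _ hU.isOpenEmbedding_subtypeVal
      (hJ.comp he), Subtype.ext ?_⟩
    simp [e]
  rcases hL.classify with ⟨⟨γ⟩⟩ | ⟨h1, -⟩
  · exact ⟨_, hU.isOpenEmbedding_subtypeVal.comp γ.isOpenEmbedding, by
      rw [γ.surjective.range_comp, Subtype.range_coe]⟩
  · exact absurd (IsClopen.eq_univ ⟨(isCompact_iff_compactSpace.2 h1).isClosed, hU⟩ hc.nonempty) hn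

theorem exists_conj {γ : ℝ → X} (hγ : IsOpenEmbedding γ) {S : X → X} (hS : Continuous S)
    (hm : MapsTo S (range γ) (range γ)) : ∃ σ : ℝ → ℝ, Continuous σ ∧ ∀ t, γ (σ t) = S (γ t) := by
  obtain ⟨k, k1, -, k3⟩ := exists_inv hγ
  exact ⟨fun t => k (S (γ t)), k1.comp_continuous (hS.comp hγ.continuous) fun t => hm ⟨t, rfl⟩,
    fun t => k3 _ (hm ⟨t, rfl⟩)⟩

theorem Line1.locallyConnectedSpace (h : Line1 X) : LocallyConnectedSpace X := by
  refine locallyConnectedSpace_iff_subsets_isOpen_isConnected.2 fun x U hU => ?_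
  obtain ⟨J, hJ, rfl⟩ := h x
  obtain ⟨ε, hε, h1⟩ := Metric.mem_nhds_iff.1 (hJ.continuous.continuousAt.preimage_mem_nhds hU)
  exact ⟨J '' ball 0 ε, image_subset_iff.2 h1, hJ.isOpenMap _ isOpen_ball,
    ⟨0, mem_ball_self hε, rfl⟩,
    ((convex_ball _ _).isConnected (nonempty_ball.2 hε)).image _ hJ.continuous.continuousOn⟩

variable [T2Space X] [SecondCountableTopology X] [ConnectedSpace X] [CompactSpace X]

theorem Line1.exists_periodic (h : Line1 X) {f : X → ℝ} (hf : Continuous f)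
    (hn : ∀ y, ¬ ∀ᶠ z in 𝓝 y, f z = f y) {T : X → X} (hT : Continuous T)
    (hi : ∀ p, f (T p) = f p) : ∃ k > 0, ∃ p, T^[k] p = p := by
  have := h.locallyConnectedSpace
  obtain ⟨a₀, -, ha₀⟩ := isCompact_univ.exists_isMinOn univ_nonempty hf.continuousOn
  obtain ⟨c, -, hc⟩ := isCompact_univ.exists_isMaxOn univ_nonempty hf.continuousOn
  have hlt : f a₀ < f c := lt_of_not_ge fun hge => hn a₀ (Eventually.of_forall fun z =>
    le_antisymm ((hc (mem_univ z)).trans hge) (ha₀ (mem_univ z)))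
  have hit : ∀ n y, f (T^[n] y) = f y := fun n y => by
    induction n with
    | zero => rfl
    | succ n ih => rw [iterate_succ_apply', hi, ih]
  let U := {x | f x < f c}
  have hU : IsOpen U := isOpen_lt hf continuous_const
  let A := {x | f x = f a₀}
  have hA : IsClosed A := isClosed_eq hf continuous_const
  have hAU : A ⊆ U := fun x hx => (show f x = f a₀ from hx).trans_lt hlt
  obtain ⟨t, -, ht⟩ := hA.isCompact.elim_nhds_subcover (fun x => connectedComponentIn U x)
    fun x hx => hU.connectedComponentIn.mem_nhds (mem_connectedComponentIn (hAU hx))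
  have h1 : ∀ n, ∃ x ∈ t, T^[n] a₀ ∈ connectedComponentIn U x := fun n => by
    simpa using ht (show T^[n] a₀ ∈ A from hit n a₀)
  choose x hx hx' using h1
  obtain ⟨n, m, hnm, e⟩ := t.finite_toSet.exists_lt_map_eq_of_forall_mem hx
  obtain ⟨k, rfl⟩ := Nat.exists_eq_add_of_lt hnm
  set a := T^[n] a₀
  have haA : a ∈ A := hit n a₀
  have ha : T^[k + 1] a ∈ connectedComponentIn U a := by
    rw [← connectedComponentIn_eq (hx' n), e, ← iterate_add_apply, add_comm (k + 1), ← add_assoc]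
    exact hx' _
  obtain ⟨γ, hγ, hr⟩ := h.exists_range hU.connectedComponentIn
    (isConnected_connectedComponentIn_iff.2 (hAU haA)) fun e => lt_irrefl (f c)
      (connectedComponentIn_subset U a (e ▸ mem_univ c))
  obtain ⟨σ, hσ, hσ'⟩ := exists_conj hγ (hT.iterate (k + 1)) (by
    rw [hr]
    intro y hy
    rw [connectedComponentIn_eq ha]
    refine (isPreconnected_connectedComponentIn.image _
      (hT.iterate (k + 1)).continuousOn).subset_connectedComponentIn
      ⟨a, mem_connectedComponentIn (hAU haA), rfl⟩ ?_ ⟨y, hy, rfl⟩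
    rintro _ ⟨z, hz, rfl⟩
    exact (hit _ z).trans_lt (connectedComponentIn_subset U a hz))
  have hB : IsCompact (γ ⁻¹' (A \ (U \ connectedComponentIn U a))) :=
    hγ.isInducing.isCompact_preimage' (hA.sdiff (isOpen_sdiff_component hU a)).isCompact
      fun y hy => hr ▸ not_not.1 fun h => hy.2 ⟨hAU hy.1, h⟩
  have hmem : ∀ s, s ∈ γ ⁻¹' (A \ (U \ connectedComponentIn U a)) ↔ γ s ∈ A := fun s =>
    ⟨fun h => h.1, fun h => ⟨h, fun h' => h'.2 (hr ▸ ⟨s, rfl⟩)⟩⟩
  have hne : (γ ⁻¹' (A \ (U \ connectedComponentIn U a))).Nonempty := by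
    obtain ⟨s, hs⟩ : a ∈ range γ := hr ▸ mem_connectedComponentIn (hAU haA)
    exact ⟨s, (hmem s).2 (hs ▸ haA)⟩
  have hmap : ∀ s, s ∈ γ ⁻¹' (A \ (U \ connectedComponentIn U a)) →
      σ s ∈ γ ⁻¹' (A \ (U \ connectedComponentIn U a)) := fun s hs => (hmem _).2 (by
    rw [hσ']
    exact (hit _ _).trans ((hmem s).1 hs))
  obtain ⟨b₀, h0, h0'⟩ := hB.exists_isLeast hne
  obtain ⟨b₁, h1, h1'⟩ := hB.exists_isGreatest hne
  obtain ⟨s, -, hs⟩ := intermediate_value_Icc' (h0' h1) (hσ.sub continuous_id).continuousOn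
    (show (0 : ℝ) ∈ Icc (σ b₁ - b₁) (σ b₀ - b₀) from
      ⟨sub_nonpos.2 (h1' (hmap _ h1)), sub_nonneg.2 (h0' (hmap _ h0))⟩)
  exact ⟨k + 1, k.succ_pos, γ s, by rw [← hσ', sub_eq_zero.1 hs]; rfl⟩

theorem Line1.sq_eq_of_fixed (h : Line1 X) (hp : ∀ p : X, IsPreconnected ({p}ᶜ : Set X))
    {f : X → ℝ} (hf : Continuous f) (hn : ∀ y, ¬ ∀ᶠ z in 𝓝 y, f z = f y) {S : X → X}
    (hS : Continuous S) (hS' : Injective S) (hi : ∀ p, f (S p) = f p) {p : X} (hfix : S p = p)
    (x : X) : S (S x) = x := by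
  rcases eq_or_ne x p with rfl | hx
  · rw [hfix, hfix]
  obtain ⟨γ, hγ, hr⟩ := h.exists_range isOpen_compl_singleton ⟨⟨x, hx⟩, hp p⟩
    fun e => (e ▸ mem_univ p : p ∈ ({p}ᶜ : Set X)) rfl
  obtain ⟨σ, hσ, hσ'⟩ := exists_conj hγ hS (by
    rw [hr]
    exact fun y hy e => hy (hS' (e.trans hfix.symm)))
  have hm := monotone_sq hσ fun a b e => hγ.injective (hS' (by rw [← hσ', ← hσ', e]))
  have hlim : Tendsto (f ∘ γ) (cocompact ℝ) (𝓝 (f p)) := by
    refine (hf.tendsto p).comp fun V hV => ?_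
    obtain ⟨W, h1, h2, h3⟩ := _root_.mem_nhds_iff.1 hV
    refine mem_of_superset (hγ.isInducing.isCompact_preimage' h2.isClosed_compl.isCompact
      (by rw [hr]; exact compl_subset_compl.2 (singleton_subset_iff.2 h3))).compl_mem_cocompact
      fun t ht => h1 (not_not.1 ht)
  have hinv : ∀ t, (f ∘ γ) (σ (σ t)) = (f ∘ γ) t := fun t => by
    simp only [comp_apply, hσ', hi]
  have hnc : ∀ a b, a < b → ∃ y ∈ Icc a b, ∃ z ∈ Icc a b, (f ∘ γ) y ≠ (f ∘ γ) z := by
    intro a b hab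
    by_contra hc
    push Not at hc
    have h1 : a < (a + b) / 2 := by linarith
    have h2 : (a + b) / 2 < b := by linarith
    refine hn (γ ((a + b) / 2)) (mem_of_superset
      (hγ.isOpenMap.image_mem_nhds (Icc_mem_nhds h1 h2)) ?_)
    rintro _ ⟨y, hy, rfl⟩
    exact hc y hy _ ⟨h1.le, h2.le⟩
  obtain ⟨t, rfl⟩ : x ∈ range γ := hr ▸ hx
  rw [← hσ', ← hσ']
  exact congrArg γ (le_antisymm
    (not_lt.1 (not_gt_of_invariant hm (hf.comp hγ.continuous) hinv hnc t
      (Or.inr ⟨_, hlim.mono_left atTop_le_cocompact⟩)))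
    (not_lt.1 (not_lt_of_invariant hm (hf.comp hγ.continuous) hinv hnc t
      (Or.inr ⟨_, hlim.mono_left atBot_le_cocompact⟩))))

theorem circle_case {E N : Type} [NormedAddCommGroup E] [NormedSpace ℝ E] [ProperSpace E]
    [Nontrivial E] [TopologicalSpace N] [T2Space N] [ChartedSpace E N] [SecondCountableTopology N]
    [ConnectedSpace N] [CompactSpace N] (h : Line1 N)
    (hp : ∀ p : N, IsPreconnected ({p}ᶜ : Set N)) {f : N → ℝ} (hf : Continuous f) :
    IsEmpty (levelGroup Real.cos ≃* levelGroup f) := by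
  refine ⟨fun Φ => ?_⟩
  by_cases hn : ∀ y, ¬ ∀ᶠ z in 𝓝 y, f z = f y
  · obtain ⟨g, hg⟩ := cos_exists_infinite
    obtain ⟨k, hk, p, e⟩ := h.exists_periodic hf hn (Φ g).1.continuous (Φ g).2
    have hit : ∀ n x, (Φ g ^ n).1 x = (Φ g).1^[n] x := fun n => by
      induction n with
      | zero => exact fun _ => rfl
      | succ n ih => exact fun x => by rw [pow_succ]; exact ih _
    refine hg (isOfFinOrder_iff_pow_eq_one.2 ⟨k + k, by omega, Φ.injective ?_⟩)
    rw [map_pow, map_one, pow_add]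
    exact Subtype.ext (Homeomorph.ext fun x => h.sq_eq_of_fixed hp hf hn (Φ g ^ k).1.continuous
      (Φ g ^ k).1.injective (Φ g ^ k).2 ((hit k p).trans e) x)
  · push Not at hn
    obtain ⟨y, hy⟩ := hn
    obtain ⟨a, ha⟩ := exists_sq_injective (E := E) hy
    refine cos_sq_not_injective (fun t => Φ.symm (a t)) fun s t hst => ha (Φ.symm.injective ?_)
    simpa using hst

end Pool.Agent.Lib.MP_b004e2_gt
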