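import Mathlib
import Pool.Agent.Lib.MP_b004e2_gt.Defs

/-!
Every compact metric space carries a continuous real function preserved by no nontrivial
self-homeomorphism (a Baire category argument).
-/

set_option autoImplicit false

namespace Pool.Agent.Lib.MP_b004e2_gt

open Set Metric Topology Filter

variable {K : Type} [MetricSpace K] [CompactSpace K]

/-- Functions whose maxima over two given sets can be separated. -/
theorem sep_open_dense {A B : Set K} (hA : IsClosed A) (hB : IsClosed B) (hAB : Disjoint A B) :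
    IsOpen {r : C(K, ℝ) | ∃ t : ℝ, ((∀ x ∈ A, r x < t) ∧ ∃ y ∈ B, t < r y) ∨
        ((∀ x ∈ B, r x < t) ∧ ∃ y ∈ A, t < r y) ∨ (A = ∅ ∧ B = ∅)} ∧
    Dense {r : C(K, ℝ) | ∃ t : ℝ, ((∀ x ∈ A, r x < t) ∧ ∃ y ∈ B, t < r y) ∨
        ((∀ x ∈ B, r x < t) ∧ ∃ y ∈ A, t < r y) ∨ (A = ∅ ∧ B = ∅)} := by
  have hop : ∀ {A B : Set K}, IsClosed A → ∀ t : ℝ,
      IsOpen {r : C(K, ℝ) | (∀ x ∈ A, r x < t) ∧ ∃ y ∈ B, t < r y} := by
    intro A B hA t
    have h2 : IsOpen {r : C(K, ℝ) | ∃ y ∈ B, t < r y} := by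
      have : {r : C(K, ℝ) | ∃ y ∈ B, t < r y} = ⋃ y ∈ B, {r : C(K, ℝ) | t < r y} := by
        ext r; simp
      rw [this]
      exact isOpen_biUnion fun y _ => isOpen_lt continuous_const (continuous_eval_const y)
    exact IsOpen.inter (ContinuousMap.isOpen_setOfPred_mapsTo hA.isCompact isOpen_Iio) h2
  constructor
  · rw [ofPred_exists]
    refine isOpen_iUnion fun t => ((hop hA t).union ((hop hB t).union ?_))
    exact isOpen_const
  · rcases A.eq_empty_or_nonempty with rfl | hAn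
    · rcases B.eq_empty_or_nonempty with rfl | ⟨y, hy⟩
      · intro r; exact subset_closure ⟨0, Or.inr (Or.inr ⟨rfl, rfl⟩)⟩
      · intro r
        exact subset_closure ⟨r y - 1, Or.inl ⟨by simp, y, hy, by linarith⟩⟩
    rcases B.eq_empty_or_nonempty with rfl | hBn
    · obtain ⟨y, hy⟩ := hAn
      intro r
      exact subset_closure ⟨r y - 1, Or.inr (Or.inl ⟨by simp, y, hy, by linarith⟩)⟩
    intro r
    obtain ⟨a, ha, hamax⟩ := hA.isCompact.exists_isMaxOn hAn r.continuous.continuousOn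
    obtain ⟨b, hb, hbmax⟩ := hB.isCompact.exists_isMaxOn hBn r.continuous.continuousOn
    rcases lt_trichotomy (r a) (r b) with h | h | h
    · refine subset_closure ⟨(r a + r b) / 2, Or.inl ⟨fun x hx => ?_, b, hb, by linarith⟩⟩
      have : r x ≤ r a := hamax hx
      linarith
    · obtain ⟨φ, hφ0, hφ1, hφ⟩ := exists_continuous_zero_one_of_isClosed hA hB hAB
      rw [Metric.mem_closure_iff]
      intro ε hε
      refine ⟨r + (ε / 2) • φ, ⟨r a + ε / 4, Or.inl ⟨fun x hx => ?_, b, hb, ?_⟩⟩, ?_⟩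
      · have h1 : r x ≤ r a := hamax hx
        have h2 : φ x = 0 := hφ0 hx
        simp only [ContinuousMap.add_apply, ContinuousMap.smul_apply, h2, smul_eq_mul]
        linarith
      · have h2 : φ b = 1 := hφ1 hb
        simp only [ContinuousMap.add_apply, ContinuousMap.smul_apply, h2, smul_eq_mul]
        linarith
      · rw [ContinuousMap.dist_lt_iff hε]
        intro x
        have := hφ x
        simp only [ContinuousMap.add_apply, ContinuousMap.smul_apply, smul_eq_mul, Real.dist_eq]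
        rw [abs_lt]
        constructor <;> nlinarith [this.1, this.2]
    · refine subset_closure ⟨(r a + r b) / 2, Or.inr (Or.inl
        ⟨fun x hx => ?_, a, ha, by linarith⟩)⟩
      have : r x ≤ r b := hbmax hx
      linarith

/-- Functions with a robust local maximum inside a given ball. -/
theorem locmax_open_dense (c : K) {ρ : ℝ} (hρ : 0 < ρ) :
    IsOpen {r : C(K, ℝ) | ∃ δ, 0 < δ ∧ δ < ρ ∧ ∃ t, t < r c ∧ ∀ y ∈ sphere c δ, r y < t} ∧
    Dense {r : C(K, ℝ) | ∃ δ, 0 < δ ∧ δ < ρ ∧ ∃ t, t < r c ∧ ∀ y ∈ sphere c δ, r y < t} := by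
  constructor
  · have : {r : C(K, ℝ) | ∃ δ, 0 < δ ∧ δ < ρ ∧ ∃ t, t < r c ∧ ∀ y ∈ sphere c δ, r y < t} =
        ⋃ δ ∈ Ioo 0 ρ, ⋃ t : ℝ, ({r : C(K, ℝ) | t < r c} ∩
          {r : C(K, ℝ) | MapsTo r (sphere c δ) (Iio t)}) := by
      ext r
      simp only [mem_ofPred_eq, mem_iUnion, mem_Ioo, mem_inter_iff, exists_prop, MapsTo, mem_Iio]
      constructor
      · rintro ⟨δ, h1, h2, t, h3, h4⟩; exact ⟨δ, ⟨h1, h2⟩, t, h3, h4⟩
      · rintro ⟨δ, ⟨h1, h2⟩, t, h3, h4⟩; exact ⟨δ, h1, h2, t, h3, h4⟩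
    rw [this]
    refine isOpen_biUnion fun δ _ => isOpen_iUnion fun t => IsOpen.inter ?_ ?_
    · exact isOpen_lt continuous_const (continuous_eval_const c)
    · exact ContinuousMap.isOpen_setOfPred_mapsTo isClosed_sphere.isCompact isOpen_Iio
  · intro r
    rw [Metric.mem_closure_iff]
    intro ε hε
    obtain ⟨δ0, hδ0, hδ⟩ := Metric.continuousAt_iff.1 (r.continuous.continuousAt (x := c))
      (ε / 8) (by linarith)
    set δ := min (δ0 / 2) (ρ / 2) with hδdef
    have hδpos : 0 < δ := lt_min (by linarith) (by linarith)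
    have hδ1 : δ < δ0 := (min_le_left _ _).trans_lt (by linarith)
    have hδ2 : δ < ρ := (min_le_right _ _).trans_lt (by linarith)
    obtain ⟨φ, hφ0, hφ1, hφ⟩ := exists_continuous_zero_one_of_isClosed
      (isClosed_sphere (x := c) (ε := δ)) (isClosed_singleton (x := c))
      (by simp [hδpos.ne])
    refine ⟨r + (ε / 2) • φ, ⟨δ, hδpos, hδ2, r c + ε / 4, ?_, fun y hy => ?_⟩, ?_⟩
    · have h2 : φ c = 1 := hφ1 rfl
      simp only [ContinuousMap.add_apply, ContinuousMap.smul_apply, h2, smul_eq_mul]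
      linarith
    · have h2 : φ y = 0 := hφ0 hy
      have h3 := hδ (x := y) (by rw [mem_sphere.1 hy]; exact hδ1)
      rw [Real.dist_eq, abs_lt] at h3
      simp only [ContinuousMap.add_apply, ContinuousMap.smul_apply, h2, smul_eq_mul]
      linarith [h3.2]
    · rw [ContinuousMap.dist_lt_iff hε]
      intro x
      have := hφ x
      simp only [ContinuousMap.add_apply, ContinuousMap.smul_apply, smul_eq_mul, Real.dist_eq]
      rw [abs_lt]
      constructor <;> nlinarith [this.1, this.2]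

/-- A rigid continuous function on a compact metric space. -/
theorem exists_rigid_fun (K : Type) [MetricSpace K] [CompactSpace K] :
    ∃ r : C(K, ℝ), ∀ T : K ≃ₜ K, (∀ p, r (T p) = r p) → ∀ p, T p = p := by
  obtain ⟨D, hDc, hDd⟩ := TopologicalSpace.exists_countable_dense K
  have : Countable D := hDc.to_subtype
  let I1 := {q : (D × ℕ) × (D × ℕ) // Disjoint (closedBall (q.1.1 : K) (1 / ((q.1.2 : ℝ) + 1)))
    (closedBall (q.2.1 : K) (1 / ((q.2.2 : ℝ) + 1)))}
  have h1 := dense_iInter_of_isOpen (ι := I1)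
    (fun q => (sep_open_dense isClosed_closedBall isClosed_closedBall q.2).1)
    (fun q => (sep_open_dense isClosed_closedBall isClosed_closedBall q.2).2)
  have h2 := dense_iInter_of_isOpen (ι := D × ℕ)
    (fun q => (locmax_open_dense (q.1 : K) (Nat.one_div_pos_of_nat (n := q.2))).1)
    (fun q => (locmax_open_dense (q.1 : K) (Nat.one_div_pos_of_nat (n := q.2))).2)
  have g1 := IsGδ.iInter fun q : I1 =>
    (sep_open_dense isClosed_closedBall isClosed_closedBall q.2).1.isGδ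
  have g2 := IsGδ.iInter fun q : D × ℕ =>
    (locmax_open_dense (q.1 : K) (Nat.one_div_pos_of_nat (n := q.2))).1.isGδ
  obtain ⟨r, hr1, hr2⟩ := (h1.inter_of_Gδ g1 g2 h2).nonempty
  refine ⟨r, fun T hT => ?_⟩
  by_contra hne
  push Not at hne
  obtain ⟨p, hp⟩ := hne
  -- small closed balls with centres in `D`
  have hball : ∀ (x : K) (U : Set K), U ∈ 𝓝 x → ∃ q : D × ℕ,
      x ∈ closedBall (q.1 : K) (1 / ((q.2 : ℝ) + 1)) ∧
      closedBall (q.1 : K) (1 / ((q.2 : ℝ) + 1)) ⊆ U := by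
    intro x U hU
    obtain ⟨ε, hε, hεU⟩ := Metric.mem_nhds_iff.1 hU
    obtain ⟨n, hn⟩ := exists_nat_one_div_lt (show 0 < ε / 2 by linarith)
    obtain ⟨d, hdD, hd⟩ := hDd.exists_dist_lt x (Nat.one_div_pos_of_nat (n := n))
    refine ⟨(⟨d, hdD⟩, n), mem_closedBall.2 hd.le, fun y hy => hεU ?_⟩
    have := dist_triangle y d x
    rw [dist_comm d x] at this
    have h' : dist y d ≤ 1 / ((n : ℝ) + 1) := hy
    rw [mem_ball]
    linarith
  have hopen : IsOpen {x | T x ≠ x} := isOpen_ne_fun T.continuous continuous_id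
  obtain ⟨q, -, hq⟩ := hball p _ (hopen.mem_nhds hp)
  obtain ⟨δ, hδ0, hδ1, t, ht, hsph⟩ := mem_iInter.1 hr2 q
  obtain ⟨x, hx, hxmax⟩ := (isCompact_closedBall (q.1 : K) δ).exists_isMaxOn
    ⟨q.1, mem_closedBall_self hδ0.le⟩ r.continuous.continuousOn
  have hxc : r q.1 ≤ r x := hxmax (mem_closedBall_self hδ0.le)
  have hxb : x ∈ ball (q.1 : K) δ := by
    rcases (mem_closedBall.1 hx).lt_or_eq with h | h
    · exact h
    · have := hsph x h
      linarith
  have hxT : T x ≠ x := hq (closedBall_subset_closedBall hδ1.le hx)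
  have hloc : ∀ᶠ y in 𝓝 x, r y ≤ r x := by
    filter_upwards [isOpen_ball.mem_nhds hxb] with y hy using hxmax (ball_subset_closedBall hy)
  have hloc' : ∀ᶠ y in 𝓝 (T x), r y ≤ r (T x) := by
    have : Tendsto T.symm (𝓝 (T x)) (𝓝 x) := by
      simpa using T.symm.continuous.tendsto (T x)
    filter_upwards [this.eventually hloc] with y hy
    rw [hT x, ← hT (T.symm y), T.apply_symm_apply] at *
    exact hy
  obtain ⟨U, V, hU, hV, hxU, hxV, hUV⟩ := t2_separation hxT.symm
  obtain ⟨q1, hq1, hq1'⟩ := hball x _ (inter_mem (hU.mem_nhds hxU) hloc)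
  obtain ⟨q2, hq2, hq2'⟩ := hball (T x) _ (inter_mem (hV.mem_nhds hxV) hloc')
  have hdis : Disjoint (closedBall (q1.1 : K) (1 / ((q1.2 : ℝ) + 1)))
      (closedBall (q2.1 : K) (1 / ((q2.2 : ℝ) + 1))) :=
    hUV.mono (fun y hy => (hq1' hy).1) (fun y hy => (hq2' hy).1)
  obtain ⟨s, hs⟩ := mem_iInter.1 hr1 (⟨(q1, q2), hdis⟩ : I1)
  rcases hs with ⟨ha, y, hy, hy'⟩ | ⟨ha, y, hy, hy'⟩ | ⟨ha, -⟩
  · have e1 := ha x hq1
    have e2 : r y ≤ r (T x) := (hq2' hy).2
    rw [hT] at e2
    linarith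
  · have e1 := ha (T x) hq2
    have e2 : r y ≤ r x := (hq1' hy).2
    rw [hT] at e1
    linarith
  · rw [ha] at hq1; exact hq1

end Pool.Agent.Lib.MP_b004e2_gt
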