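import Mathlib
import Pool.Agent.Lib.MP_b004e2_gt.Circle
import Pool.Agent.Lib.MP_b004e2_gt.Rigid

/-!
The connected case.
-/

set_option autoImplicit false

namespace Pool.Agent.Lib.MP_b004e2_gt

open Set Filter Topology Metric Function

theorem levelGroup_congr {M M' : Type} [TopologicalSpace M] [TopologicalSpace M'] (h : M ≃ₜ M')
    (f : M' → ℝ) : Nonempty (levelGroup (f ∘ h) ≃* levelGroup f) :=
  ⟨{ toFun := fun T => ⟨h.symm.trans (T.1.trans h), fun p => by
        simpa using T.2 (h.symm p)⟩
     invFun := fun T => ⟨h.trans (T.1.trans h.symm), fun p => by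
        simpa using T.2 (h p)⟩
     left_inv := fun T => Subtype.ext (Homeomorph.ext fun x => by simp)
     right_inv := fun T => Subtype.ext (Homeomorph.ext fun x => by simp)
     map_mul' := fun S T => Subtype.ext (Homeomorph.ext fun x => by simp) }⟩

theorem exists_rigid_fun' (N : Type) [TopologicalSpace N] [T2Space N] [LocallyCompactSpace N]
    [SecondCountableTopology N] :
    ∃ r : N → ℝ, Continuous r ∧ ∀ T : N ≃ₜ N, (∀ p, r (T p) = r p) → ∀ p, T p = p := by
  have : SecondCountableTopology (OnePoint N) := by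
    let K := CompactExhaustion.choice N
    refine TopologicalSpace.IsTopologicalBasis.secondCountableTopology
      (b := (image OnePoint.some '' TopologicalSpace.countableBasis N) ∪
        range fun n => (OnePoint.some '' K n)ᶜ)
      (TopologicalSpace.isTopologicalBasis_of_isOpen_of_nhds ?_ ?_)
      (((TopologicalSpace.countable_countableBasis N).image _).union (countable_range _))
    · rintro _ (⟨U, hU, rfl⟩ | ⟨n, rfl⟩)
      · exact OnePoint.isOpenMap_coe _ (TopologicalSpace.isOpen_of_mem_countableBasis hU)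
      · exact ((K.isCompact n).image OnePoint.continuous_coe).isClosed.isOpen_compl
    · intro a U ha hU
      induction a using OnePoint.rec with
      | infty =>
        obtain ⟨n, hn⟩ := K.exists_superset_of_isCompact
          ((OnePoint.isOpen_iff_of_mem ha).1 hU).2
        refine ⟨_, Or.inr ⟨n, rfl⟩, by simp, fun x hx => ?_⟩
        induction x using OnePoint.rec with
        | infty => exact ha
        | coe x => exact not_not.1 fun h => hx ⟨x, hn h, rfl⟩
      | coe a =>
        obtain ⟨V, h1, h2, h3⟩ := (TopologicalSpace.isBasis_countableBasis N).exists_subset_of_mem_open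
          (show a ∈ OnePoint.some ⁻¹' U from ha) (hU.preimage OnePoint.continuous_coe)
        exact ⟨_, Or.inl ⟨V, h1, rfl⟩, ⟨a, h2, rfl⟩, image_subset_iff.2 h3⟩
  let := TopologicalSpace.metrizableSpaceMetric (OnePoint N)
  obtain ⟨r, hr⟩ := exists_rigid_fun (OnePoint N)
  refine ⟨fun p => r p, r.continuous.comp OnePoint.continuous_coe, fun T hT p => ?_⟩
  refine OnePoint.coe_injective (hr T.onePointCongr (fun q => ?_) p)
  induction q using OnePoint.rec with
  | infty => rfl
  | coe q => exact hT q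

theorem line1_of_charted (N : Type) [TopologicalSpace N] [T2Space N]
    [ChartedSpace (EuclideanSpace ℝ (Fin 1)) N] : Line1 N := fun x => by
  obtain ⟨J, hJ, h0⟩ := exists_isOpenEmbedding (E := EuclideanSpace ℝ (Fin 1)) x
  let e : ℝ ≃L[ℝ] EuclideanSpace ℝ (Fin 1) := ContinuousLinearEquiv.ofFinrankEq (by simp)
  exact ⟨J ∘ e, hJ.comp e.toHomeomorph.isOpenEmbedding, by simp [h0]⟩

theorem Line1.of_isOpenEmbedding {M N : Type} [TopologicalSpace M] [TopologicalSpace N]
    (h : Line1 N) {φ : M → N} (hφ : IsOpenEmbedding φ) : Line1 M := by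
  intro x
  obtain ⟨J, hJ, h0⟩ := h (φ x)
  obtain ⟨ε, hε, h1⟩ := Metric.mem_nhds_iff.1
    (hJ.continuous.continuousAt.preimage_mem_nhds (hφ.isOpen_range.mem_nhds ⟨x, h0.symm⟩))
  let e := OpenPartialHomeomorph.univBall (0 : ℝ) ε
  have he : IsOpenEmbedding e := e.isOpenEmbedding (OpenPartialHomeomorph.univBall_source _ _)
  have hm : ∀ t, J (e t) ∈ range φ := fun t => h1 (by
    rw [← OpenPartialHomeomorph.univBall_target (0 : ℝ) hε]
    exact e.map_source (by rw [OpenPartialHomeomorph.univBall_source]; trivial))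
  choose c hc using hm
  refine ⟨c, IsOpenEmbedding.of_comp _ hφ ?_, hφ.injective ?_⟩
  · rw [show φ ∘ c = J ∘ e from funext hc]
    exact hJ.comp he
  · simp [hc, e, h0]

theorem connected_case (m n : ℕ) (M N : Type) [TopologicalSpace M] [T2Space M]
    [SecondCountableTopology M] [ChartedSpace (EuclideanSpace ℝ (Fin m)) M] [ConnectedSpace M]
    [Nontrivial M] [TopologicalSpace N] [T2Space N] [SecondCountableTopology N]
    [ChartedSpace (EuclideanSpace ℝ (Fin n)) N] [ConnectedSpace N] (hne : IsEmpty (M ≃ₜ N)) :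
    ∃ f₀ : M → ℝ, Continuous f₀ ∧
      ∀ f : N → ℝ, Continuous f → IsEmpty (levelGroup f₀ ≃* levelGroup f) := by
  by_cases hex : Nonempty (ℝ ≃ₜ M) ∧ n = 1 ∧ CompactSpace N ∧
      ∀ p : N, IsPreconnected ({p}ᶜ : Set N)
  · obtain ⟨⟨h⟩, rfl, h1, h2⟩ := hex
    refine ⟨Real.cos ∘ h.symm, Real.continuous_cos.comp h.symm.continuous, fun f hf => ⟨fun Φ => ?_⟩⟩
    obtain ⟨Ψ⟩ := levelGroup_congr h.symm Real.cos
    exact (circle_case (E := EuclideanSpace ℝ (Fin 1)) (line1_of_charted N) h2 hf).false
      (Ψ.symm.trans Φ)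
  refine ⟨fun _ => 0, continuous_const, fun f hf => ⟨fun Φ => ?_⟩⟩
  let ι : (M ≃ₜ M) →* levelGroup (fun _ : M => (0 : ℝ)) :=
    (MonoidHom.id _).codRestrict _ fun _ _ => rfl
  obtain ⟨φ, h1, h2, h3, h4⟩ := core (E := EuclideanSpace ℝ (Fin m))
    (E' := EuclideanSpace ℝ (Fin n)) hf ((levelGroup f).subtype.comp (Φ.toMonoidHom.comp ι))
    (fun a b h => congrArg Subtype.val (Φ.injective (Subtype.ext h) : ι a = ι b))
    fun T => ⟨fun ⟨g, hg⟩ => hg ▸ (Φ (ι g)).2, fun hT => ⟨(Φ.symm ⟨T, hT⟩).1,
      congrArg Subtype.val (Φ.apply_symm_apply ⟨T, hT⟩)⟩⟩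
  have hsurj : range φ ≠ univ := fun e =>
    hne.false (h1.isEmbedding.toHomeomorphOfSurjective (range_eq_univ.1 e))
  have : Nontrivial N := h1.injective.nontrivial
  rcases n with _ | _ | n
  · have := ChartedSpace.discreteTopology (EuclideanSpace ℝ (Fin 0)) N
    exact not_subsingleton N (subsingleton_of_preconnected_totallyDisconnected)
  · have hN := line1_of_charted N
    rcases (hN.of_isOpenEmbedding h1).classify with h | ⟨h, -⟩
    · rcases hN.classify with ⟨⟨e⟩⟩ | h'
      · obtain ⟨h⟩ := h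
        exact hne.false (h.symm.trans e)
      · exact hex ⟨h, rfl, h'⟩
    · exact hsurj (IsClopen.eq_univ ⟨(isCompact_range h1.continuous).isClosed, h1.isOpen_range⟩
        (range_nonempty φ))
  · have hd := dense_range (E := EuclideanSpace ℝ (Fin m))
      (E' := EuclideanSpace ℝ (Fin (n + 1 + 1))) (by
        rw [← Module.finrank_eq_rank, finrank_euclideanSpace_fin]
        exact_mod_cast (by omega : 1 < n + 1 + 1)) h1 fun g => ⟨_, h2 g⟩
    obtain ⟨x₀⟩ : Nonempty M := inferInstance
    have hc : ∀ y, f y = f (φ x₀) := fun y =>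
      (isClosed_eq hf continuous_const).closure_subset_iff.2
        (show range φ ⊆ {y | f y = f (φ x₀)} by rintro _ ⟨x, rfl⟩; exact h3 x x₀)
        (hd ▸ mem_univ y)
    exact hsurj (eq_univ_of_forall fun y => h4 y inferInstance
      (Eventually.of_forall fun z => (hc z).trans (hc y).symm))

end Pool.Agent.Lib.MP_b004e2_gt
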