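import Mathlib
import Pool.Agent.Lib.MP_b004e2_gt.Defs
import Pool.Agent.Lib.MP_b004e2_gt.Rigid

set_option autoImplicit false

namespace Pool.Agent.Lib.MP_b004e2_gt

open Set Topology

/-- Adding a compact component with a rigid function above the value at a base point does not
change the level group. -/
theorem levelGroup_sum {M K : Type} [TopologicalSpace M] [ConnectedSpace M]
    [TopologicalSpace K] (f₀ : M → ℝ) (r : K → ℝ) (m₀ : M) (hr : ∀ k, f₀ m₀ < r k)
    (hrig : ∀ T : K ≃ₜ K, (∀ p, r (T p) = r p) → ∀ p, T p = p) :
    Nonempty (levelGroup f₀ ≃* levelGroup (Sum.elim f₀ r : M ⊕ K → ℝ)) := by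
  let φ : levelGroup f₀ →* levelGroup (Sum.elim f₀ r : M ⊕ K → ℝ) :=
    { toFun := fun S => ⟨S.1.sumCongr (Homeomorph.refl K), by
        rintro (p | p)
        · exact S.2 p
        · rfl⟩
      map_one' := by
        ext p
        rcases p with p | p <;> rfl
      map_mul' := by
        intro S T
        ext p
        rcases p with p | p <;> rfl }
  refine ⟨MulEquiv.ofBijective φ ⟨?_, ?_⟩⟩
  · intro S T h
    ext p
    have := congrArg (fun U : levelGroup (Sum.elim f₀ r : M ⊕ K → ℝ) => U.1 (Sum.inl p)) h
    exact Sum.inl_injective this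
  · -- every level-preserving homeomorphism maps the left summand into itself
    have key : ∀ T : (M ⊕ K) ≃ₜ (M ⊕ K), (∀ p, Sum.elim f₀ r (T p) = Sum.elim f₀ r p) →
        ∀ m, ∃ m', T (Sum.inl m) = Sum.inl m' := by
      intro T hT m
      have hcl : IsClopen {m : M | T (Sum.inl m) ∈ range (Sum.inl : M → M ⊕ K)} :=
        IsClopen.preimage ⟨isClosed_range_inl, isOpen_range_inl⟩
          (T.continuous.comp continuous_inl)
      have hne : {m : M | T (Sum.inl m) ∈ range (Sum.inl : M → M ⊕ K)}.Nonempty := by
        refine ⟨m₀, ?_⟩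
        have h0 := hT (Sum.inl m₀)
        show T (Sum.inl m₀) ∈ range (Sum.inl : M → M ⊕ K)
        rcases h : T (Sum.inl m₀) with m' | k
        · exact ⟨m', rfl⟩
        · rw [h] at h0
          exact absurd h0 (hr k).ne'
      have := hcl.eq_univ hne
      have hm : m ∈ {m : M | T (Sum.inl m) ∈ range (Sum.inl : M → M ⊕ K)} := by
        rw [this]; trivial
      obtain ⟨m', hm'⟩ := hm
      exact ⟨m', hm'.symm⟩
    have key2 : ∀ T : (M ⊕ K) ≃ₜ (M ⊕ K), (∀ p, Sum.elim f₀ r (T p) = Sum.elim f₀ r p) →
        ∀ k, ∃ k', T (Sum.inr k) = Sum.inr k' := by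
      intro T hT k
      rcases h : T (Sum.inr k) with m' | k'
      · obtain ⟨m'', hm⟩ := key T.symm ((levelGroup _).inv_mem hT) m'
        rw [← h, T.symm_apply_apply] at hm
        exact absurd hm Sum.inr_ne_inl
      · exact ⟨k', rfl⟩
    rintro ⟨T, hT⟩
    have hT' := (levelGroup (Sum.elim f₀ r : M ⊕ K → ℝ)).inv_mem hT
    choose a ha using key T hT
    choose a' ha' using key T.symm hT'
    choose b hb using key2 T hT
    choose b' hb' using key2 T.symm hT'
    have ca : Continuous a := IsEmbedding.inl.continuous_iff.2 (by
      have : Sum.inl ∘ a = T ∘ Sum.inl := funext fun m => (ha m).symm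
      rw [this]; exact T.continuous.comp continuous_inl)
    have ca' : Continuous a' := IsEmbedding.inl.continuous_iff.2 (by
      have : Sum.inl ∘ a' = T.symm ∘ Sum.inl := funext fun m => (ha' m).symm
      rw [this]; exact T.symm.continuous.comp continuous_inl)
    have cb : Continuous b := IsEmbedding.inr.continuous_iff.2 (by
      have : Sum.inr ∘ b = T ∘ Sum.inr := funext fun m => (hb m).symm
      rw [this]; exact T.continuous.comp continuous_inr)
    have cb' : Continuous b' := IsEmbedding.inr.continuous_iff.2 (by
      have : Sum.inr ∘ b' = T.symm ∘ Sum.inr := funext fun m => (hb' m).symm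
      rw [this]; exact T.symm.continuous.comp continuous_inr)
    let S : M ≃ₜ M :=
      { toFun := a, invFun := a'
        left_inv := fun m => Sum.inl_injective (β := K) (by
          rw [← ha', ← ha, T.symm_apply_apply])
        right_inv := fun m => Sum.inl_injective (β := K) (by
          rw [← ha, ← ha', T.apply_symm_apply])
        continuous_toFun := ca, continuous_invFun := ca' }
    let R : K ≃ₜ K :=
      { toFun := b, invFun := b'
        left_inv := fun m => Sum.inr_injective (α := M) (by
          rw [← hb', ← hb, T.symm_apply_apply])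
        right_inv := fun m => Sum.inr_injective (α := M) (by
          rw [← hb, ← hb', T.apply_symm_apply])
        continuous_toFun := cb, continuous_invFun := cb' }
    have hR : ∀ k, b k = k := hrig R fun k => by
      have := hT (Sum.inr k)
      rw [hb] at this
      exact this
    refine ⟨⟨S, fun m => ?_⟩, ?_⟩
    · have := hT (Sum.inl m)
      rw [ha] at this
      exact this
    · ext p
      rcases p with p | p
      · exact (ha p).symm
      · show Sum.inr p = T (Sum.inr p)
        rw [hb, hR]

end Pool.Agent.Lib.MP_b004e2_gt
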